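import Pool.Agent.Helper48.SN.Ser

set_option autoImplicit false
set_option linter.unusedSectionVars false

/-! # Formal coordinate changes -/

namespace Pool.Agent.Helper48.SN

open Finset

variable {σ : Type} [Fintype σ]

/-- a power series without constant term is a combination of the variables -/
theorem exists_decomp [DecidableEq σ] (g : PS σ) : ∃ (c : ℂ) (h : σ → PS σ),
    g = MvPowerSeries.C c + ∑ i, MvPowerSeries.X i * h i := by
  classical
  have hpick : ∀ m : σ →₀ ℕ, ∃ i : Option σ, (m ≠ 0 → ∃ j, i = some j ∧ m j ≠ 0) := by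
    intro m
    by_cases hm : m = 0
    · exact ⟨none, fun h => absurd hm h⟩
    · obtain ⟨j, hj⟩ := Finsupp.ne_iff.1 hm
      exact ⟨some j, fun _ => ⟨j, rfl, by simpa using hj⟩⟩
  choose pick hp using hpick
  set h : σ → PS σ := fun i m => if pick (m + Finsupp.single i 1) = some i then
    MvPowerSeries.coeff (m + Finsupp.single i 1) g else 0 with hh
  refine ⟨MvPowerSeries.coeff 0 g, h, ?_⟩
  ext m
  rw [map_add, map_sum, MvPowerSeries.coeff_C]
  have h1 : ∀ i, MvPowerSeries.coeff m (MvPowerSeries.X i * h i) =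
      if pick m = some i ∧ m i ≠ 0 then MvPowerSeries.coeff m g else 0 := by
    intro i
    rw [MvPowerSeries.X, MvPowerSeries.coeff_monomial_mul]
    by_cases hm : Finsupp.single i 1 ≤ m
    · have h2 : m i ≠ 0 := by
        have := Finsupp.single_le_iff.1 hm
        omega
      have h3 : m - Finsupp.single i 1 + Finsupp.single i 1 = m := tsub_add_cancel_of_le hm
      rw [if_pos hm, one_mul]
      change (if pick (m - Finsupp.single i 1 + Finsupp.single i 1) = some i then
        MvPowerSeries.coeff (m - Finsupp.single i 1 + Finsupp.single i 1) g else 0) = _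
      rw [h3]
      by_cases h4 : pick m = some i
      · rw [if_pos h4, if_pos ⟨h4, h2⟩]
      · rw [if_neg h4, if_neg (fun h5 => h4 h5.1)]
    · rw [if_neg hm, if_neg]
      rintro ⟨_, h2⟩
      apply hm
      rw [Finsupp.single_le_iff]
      omega
  rw [Finset.sum_congr rfl fun i _ => h1 i]
  by_cases hm : m = 0
  · subst hm
    rw [if_pos rfl, Finset.sum_eq_zero, add_zero]
    intro i _
    rw [if_neg]
    rintro ⟨_, h2⟩
    exact h2 rfl
  · obtain ⟨j, hj, hj2⟩ := hp m hm
    rw [if_neg hm, zero_add, Finset.sum_eq_single j]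
    · rw [if_pos ⟨hj, hj2⟩]
    · intro i _ hij
      rw [if_neg]
      rintro ⟨h2, _⟩
      rw [hj] at h2
      exact hij (Option.some_injective _ h2).symm
    · intro h2
      exact absurd (Finset.mem_univ j) h2

theorem deriv_zero (D : Derivation ℂ (PS σ) (PS σ)) (hD : ∀ i, D (MvPowerSeries.X i) = 0)
    (g : PS σ) : D g = 0 := by
  classical
  have h1 : ∀ (n : ℕ) (g : PS σ) (m : σ →₀ ℕ), m.degree < n → MvPowerSeries.coeff m (D g) = 0 := by
    intro n
    induction n with
    | zero => intro g m hm; omega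
    | succ n ih =>
      intro g m hm
      obtain ⟨c, h, rfl⟩ := exists_decomp g
      have h2 : D (MvPowerSeries.C c + ∑ i, MvPowerSeries.X i * h i) =
          ∑ i, MvPowerSeries.X i * D (h i) := by
        rw [map_add, map_sum]
        have h3 : D (MvPowerSeries.C c) = 0 := D.map_algebraMap c
        rw [h3, zero_add]
        refine Finset.sum_congr rfl fun i _ => ?_
        rw [D.leibniz, hD, smul_zero, add_zero, smul_eq_mul]
      rw [h2, map_sum]
      refine Finset.sum_eq_zero fun i _ => ?_
      rw [MvPowerSeries.X, MvPowerSeries.coeff_monomial_mul]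
      split_ifs with h3
      · rw [ih _ _ (by
          have h4 : m = m - Finsupp.single i 1 + Finsupp.single i 1 :=
            (tsub_add_cancel_of_le h3).symm
          have h5 := congrArg Finsupp.degree h4
          rw [map_add, Finsupp.degree_single] at h5
          omega), mul_zero]
      · rfl
  ext m
  rw [h1 (m.degree + 1) g m (Nat.lt_succ_self _), map_zero]

/-- a derivation of the ring of power series is a combination of the partial derivatives -/
theorem deriv_eq (D : Derivation ℂ (PS σ) (PS σ)) :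
    ((D : Derivation ℂ (PS σ) (PS σ)) : PS σ →ₗ[ℂ] PS σ) =
      ∑ i, ml (D (MvPowerSeries.X i)) * pp i := by
  classical
  have h1 := deriv_zero (D - ∑ i, D (MvPowerSeries.X i) • MvPowerSeries.pderiv ℂ i) (fun j => by
    have h2 := map_sum (Derivation.coeFnAddMonoidHom (R := ℂ) (A := PS σ) (M := PS σ))
      (fun i => D (MvPowerSeries.X i) • MvPowerSeries.pderiv ℂ i) Finset.univ
    have h3 := congrFun h2 (MvPowerSeries.X j)
    rw [Finset.sum_apply] at h3
    rw [Derivation.sub_apply, sub_eq_zero]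
    refine Eq.trans ?_ h3.symm
    rw [Finset.sum_eq_single j]
    · change _ = D (MvPowerSeries.X j) * MvPowerSeries.pderiv ℂ j (MvPowerSeries.X j)
      rw [MvPowerSeries.pderiv_X_self, mul_one]
    · intro i _ hi
      change D (MvPowerSeries.X i) * MvPowerSeries.pderiv ℂ i (MvPowerSeries.X j) = 0
      rw [MvPowerSeries.pderiv_X_of_ne (Ne.symm hi), mul_zero]
    · intro h
      exact absurd (Finset.mem_univ j) h)
  refine LinearMap.ext fun g => ?_
  have h2 := h1 g
  rw [Derivation.sub_apply, sub_eq_zero] at h2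
  have h3 := congrFun (map_sum (Derivation.coeFnAddMonoidHom (R := ℂ) (A := PS σ) (M := PS σ))
      (fun i => D (MvPowerSeries.X i) • MvPowerSeries.pderiv ℂ i) Finset.univ) g
  rw [Finset.sum_apply] at h3
  rw [LinearMap.sum_apply]
  exact h2.trans h3

theorem deriv_mem (D : Derivation ℂ (PS σ) (PS σ)) :
    ((D : Derivation ℂ (PS σ) (PS σ)) : PS σ →ₗ[ℂ] PS σ) ∈ dS σ := by
  rw [deriv_eq]
  exact Subalgebra.sum_mem _ fun i _ => Subalgebra.mul_mem _ (ml_mem _) (pp_mem i)

variable {σ' : Type} [Fintype σ']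

/-- the conjugation of an operator -/
noncomputable def conjE (Ψ : PS σ ≃ₐ[ℂ] PS σ') (Q : Module.End ℂ (PS σ)) : Module.End ℂ (PS σ') :=
  (Ψ.toLinearEquiv.toLinearMap ∘ₗ Q) ∘ₗ Ψ.symm.toLinearEquiv.toLinearMap

theorem conjE_apply (Ψ : PS σ ≃ₐ[ℂ] PS σ') (Q : Module.End ℂ (PS σ)) (g : PS σ') :
    conjE Ψ Q g = Ψ (Q (Ψ.symm g)) := rfl

theorem conjE_mem (Ψ : PS σ ≃ₐ[ℂ] PS σ') {Q : Module.End ℂ (PS σ)} (hQ : Q ∈ dS σ) :
    conjE Ψ Q ∈ dS σ' := by
  induction hQ using Algebra.adjoin_induction with
  | mem Q hQ =>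
    rcases hQ with ⟨a, rfl⟩ | ⟨i, rfl⟩
    · have h1 : conjE Ψ (ml a) = ml (Ψ a) := by
        refine LinearMap.ext fun g => ?_
        rw [conjE_apply, ml_apply, ml_apply, map_mul, AlgEquiv.apply_symm_apply]
      rw [h1]
      exact ml_mem _
    · set D : Derivation ℂ (PS σ') (PS σ') := Derivation.mk' (conjE Ψ (pp i)) (fun a b => by
        rw [conjE_apply, conjE_apply, conjE_apply, map_mul, pp_mul, map_add, map_mul, map_mul,
          AlgEquiv.apply_symm_apply, AlgEquiv.apply_symm_apply, smul_eq_mul, smul_eq_mul]) with hD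
      have h1 : conjE Ψ (pp i) = (D : PS σ' →ₗ[ℂ] PS σ') := rfl
      rw [h1]
      exact deriv_mem D
  | algebraMap a =>
    have h1 : conjE Ψ (algebraMap ℂ _ a) = algebraMap ℂ _ a := by
      refine LinearMap.ext fun g => ?_
      rw [conjE_apply, Module.algebraMap_end_apply, Module.algebraMap_end_apply, map_smul,
        AlgEquiv.apply_symm_apply]
    rw [h1]
    exact Subalgebra.algebraMap_mem _ _
  | add Q Q' _ _ ih ih' =>
    have h1 : conjE Ψ (Q + Q') = conjE Ψ Q + conjE Ψ Q' := by
      refine LinearMap.ext fun g => ?_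
      rw [conjE_apply, LinearMap.add_apply, map_add, LinearMap.add_apply, conjE_apply, conjE_apply]
    rw [h1]
    exact Subalgebra.add_mem _ ih ih'
  | mul Q Q' _ _ ih ih' =>
    have h1 : conjE Ψ (Q * Q') = conjE Ψ Q * conjE Ψ Q' := by
      refine LinearMap.ext fun g => ?_
      rw [conjE_apply, Module.End.mul_apply, Module.End.mul_apply, conjE_apply, conjE_apply,
        AlgEquiv.symm_apply_apply]
    rw [h1]
    exact Subalgebra.mul_mem _ ih ih'

/-- **Functional equations are invariant under formal coordinate changes.** -/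
theorem formal_equiv (Ψ : PS σ ≃ₐ[ℂ] PS σ') (f : PS σ) (b : Polynomial ℂ) (h : IsFormalB f b) :
    IsFormalB (Ψ f) b := by
  classical
  obtain ⟨P, hP⟩ := h
  refine ⟨Finsupp.onFinset P.support (fun m => if m ∈ P.support then
    (⟨conjE Ψ (P m), conjE_mem Ψ (P m).2⟩ : dS σ') else 0) (fun m hm => by
      by_contra h
      exact hm (if_neg h)), fun s => ?_⟩
  rw [Finsupp.onFinset_sum]
  · have h1 := congrArg Ψ (hP s)
    rw [map_smul, map_pow, Finsupp.sum, map_sum] at h1
    rw [h1]
    refine Finset.sum_congr rfl fun m hm => ?_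
    rw [if_pos hm]
    change Ψ _ = ((s : ℂ) ^ m) • conjE Ψ (P m) (Ψ f ^ (s + 1))
    have h2 : Ψ.symm (Ψ f ^ (s + 1)) = f ^ (s + 1) := by
      rw [map_pow, AlgEquiv.symm_apply_apply]
    rw [map_smul, conjE_apply, h2]
  · intro m
    simp

end Pool.Agent.Helper48.SN
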