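import Pool.Agent.Helper48.SN.Forms

set_option autoImplicit false
set_option linter.unusedSectionVars false

/-! # The exterior derivative -/

namespace Pool.Agent.Helper48.SN

open Finset MvPolynomial

variable {σ : Type} [Fintype σ] [LinearOrder σ]

/-- the derivatives of the coefficients -/
noncomputable def pd (i : σ) : Om σ (MvPolynomial σ ℂ) →ₗ[ℂ] Om σ (MvPolynomial σ ℂ) where
  toFun ω S := pderiv i (ω S)
  map_add' ω η := by
    funext S
    simp only [Pi.add_apply, map_add]
  map_smul' c ω := by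
    funext S
    exact (pderiv i).map_smul c (ω S)

theorem pd_apply (i : σ) (ω : Om σ (MvPolynomial σ ℂ)) (S : Finset σ) :
    pd i ω S = pderiv i (ω S) := rfl

/-- the gradient -/
noncomputable def grad (p : MvPolynomial σ ℂ) (i : σ) : MvPolynomial σ ℂ := pderiv i p

theorem pd_smul (i : σ) (p : MvPolynomial σ ℂ) (ω : Om σ (MvPolynomial σ ℂ)) :
    pd i (p • ω) = pderiv i p • ω + p • pd i ω := by
  funext S
  simp only [pd_apply, Pi.add_apply, Pi.smul_apply, smul_eq_mul, pderiv_mul]

theorem pd_ex (i j : σ) (ω : Om σ (MvPolynomial σ ℂ)) : pd j (ex i ω) = ex i (pd j ω) := by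
  funext S
  rw [pd_apply, ex_apply, ex_apply, pd_apply]
  split_ifs
  · rw [map_zsmul]
  · rw [map_zero]

theorem pd_ct (i j : σ) (ω : Om σ (MvPolynomial σ ℂ)) : pd j (ct i ω) = ct i (pd j ω) := by
  funext S
  rw [pd_apply, ct_apply, ct_apply, pd_apply]
  split_ifs
  · rw [map_zero]
  · rw [map_zsmul]

theorem pderiv_comm (i j : σ) (p : MvPolynomial σ ℂ) :
    pderiv i (pderiv j p) = pderiv j (pderiv i p) := by
  classical
  induction p using MvPolynomial.induction_on with
  | C a => simp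
  | add p q hp hq => rw [map_add, map_add, map_add, map_add, hp, hq]
  | mul_X p n hp =>
    have h1 : ∀ a b : σ, pderiv a (pderiv b (X n : MvPolynomial σ ℂ)) = 0 := by
      intro a b
      rw [pderiv_X]
      by_cases h : n = b
      · subst h
        rw [Pi.single_eq_same, pderiv_one]
      · rw [Pi.single_eq_of_ne h, map_zero]
    rw [pderiv_mul, pderiv_mul, map_add, map_add, pderiv_mul, pderiv_mul, pderiv_mul, pderiv_mul,
      h1, h1, hp]
    ring

theorem pd_pd (i j : σ) (ω : Om σ (MvPolynomial σ ℂ)) : pd i (pd j ω) = pd j (pd i ω) := by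
  funext S
  rw [pd_apply, pd_apply, pd_apply, pd_apply, pderiv_comm]

/-- the exterior derivative -/
noncomputable def dd : Om σ (MvPolynomial σ ℂ) →ₗ[ℂ] Om σ (MvPolynomial σ ℂ) :=
  ∑ i, (ex i).restrictScalars ℂ ∘ₗ pd i

theorem dd_apply (ω : Om σ (MvPolynomial σ ℂ)) : dd ω = ∑ i, ex i (pd i ω) := by
  simp [dd, LinearMap.sum_apply]

theorem dd_smul (p : MvPolynomial σ ℂ) (ω : Om σ (MvPolynomial σ ℂ)) :
    dd (p • ω) = ee (grad p) ω + p • dd ω := by
  rw [dd_apply, dd_apply, ee_apply, Finset.smul_sum, ← Finset.sum_add_distrib]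
  refine Finset.sum_congr rfl fun i _ => ?_
  rw [pd_smul, map_add, map_smul, map_smul]
  rfl

theorem dd_ex (i : σ) (ω : Om σ (MvPolynomial σ ℂ)) : dd (ex i ω) = - ex i (dd ω) := by
  rw [dd_apply, dd_apply, map_sum, ← Finset.sum_neg_distrib]
  exact Finset.sum_congr rfl fun j _ => by rw [pd_ex, ex_ex]

theorem dd_dd (ω : Om σ (MvPolynomial σ ℂ)) : dd (dd ω) = 0 := by
  have h : dd (dd ω) = ∑ i, ∑ j, - ex i (ex j (pd j (pd i ω))) := by
    rw [dd_apply ω, map_sum]
    refine Finset.sum_congr rfl fun i _ => ?_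
    rw [dd_ex, dd_apply, map_sum, ← Finset.sum_neg_distrib]
  rw [h]
  refine anti_sum (fun i j => - ex i (ex j (pd j (pd i ω)))) (fun i => ?_) (fun i j => ?_)
  · simp only [ex_ex_self, neg_zero]
  · rw [ex_ex i j, pd_pd]

theorem dd_ee (p : MvPolynomial σ ℂ) (ω : Om σ (MvPolynomial σ ℂ)) :
    dd (ee (grad p) ω) = - ee (grad p) (dd ω) := by
  have h : dd (ee (grad p) ω) = ∑ i, (ee (grad (pderiv i p)) (ex i ω) - pderiv i p • ex i (dd ω)) := by
    rw [ee_apply, map_sum]
    refine Finset.sum_congr rfl fun i _ => ?_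
    rw [dd_smul, dd_ex, smul_neg, ← sub_eq_add_neg]
    rfl
  rw [h, Finset.sum_sub_distrib]
  have h1 : ∑ i, ee (grad (pderiv i p)) (ex i ω) = 0 := by
    simp only [ee_apply]
    refine anti_sum (fun i j => grad (pderiv i p) j • ex j (ex i ω)) (fun i => ?_) (fun i j => ?_)
    · simp only [ex_ex_self, smul_zero]
    · rw [ex_ex j i, smul_neg,
        show grad (pderiv i p) j = grad (pderiv j p) i from pderiv_comm j i p]
  rw [h1, zero_sub, ee_apply]
  rfl

theorem pr_pd (p : ℤ) (i : σ) (ω : Om σ (MvPolynomial σ ℂ)) : pr p (pd i ω) = pd i (pr p ω) := by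
  funext S
  rw [pr_apply, pd_apply, pd_apply, pr_apply]
  split_ifs
  · rfl
  · rw [map_zero]

theorem pr_dd (p : ℤ) (ω : Om σ (MvPolynomial σ ℂ)) : pr (p + 1) (dd ω) = dd (pr p ω) := by
  rw [dd_apply, dd_apply, map_sum]
  exact Finset.sum_congr rfl fun i _ => by rw [pr_ex, pr_pd]

/-- the volume form -/
noncomputable def vol : Om σ (MvPolynomial σ ℂ) := fun S => if S = Finset.univ then 1 else 0

theorem ex_vol (i : σ) : ex i (vol : Om σ (MvPolynomial σ ℂ)) = 0 := by
  funext S
  rw [ex_apply, vol, Pi.zero_apply]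
  split_ifs with h1 h2
  · exact absurd (h2 ▸ Finset.mem_univ i) (Finset.notMem_erase i S)
  · rw [smul_zero]
  · rfl

theorem pd_vol (i : σ) : pd i (vol : Om σ (MvPolynomial σ ℂ)) = 0 := by
  funext S
  rw [pd_apply, vol, Pi.zero_apply]
  split_ifs with h1
  · exact pderiv_one
  · rw [map_zero]

theorem ee_vol (w : σ → MvPolynomial σ ℂ) : ee w (vol : Om σ (MvPolynomial σ ℂ)) = 0 := by
  rw [ee_apply]
  exact Finset.sum_eq_zero fun i _ => by rw [ex_vol, smul_zero]

theorem ee_ii_vol (v w : σ → MvPolynomial σ ℂ) :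
    ee w (ii v (vol : Om σ (MvPolynomial σ ℂ))) = (∑ i, v i * w i) • vol := by
  have h := ii_ee v w (vol : Om σ (MvPolynomial σ ℂ))
  rw [ee_vol, map_zero] at h
  exact (sub_eq_zero.1 h.symm).symm

theorem dd_ii_vol (v : σ → MvPolynomial σ ℂ) :
    dd (ii v (vol : Om σ (MvPolynomial σ ℂ))) = (∑ i, pderiv i (v i)) • vol := by
  have h : ∀ i, ex i (pd i (ii v (vol : Om σ (MvPolynomial σ ℂ)))) = pderiv i (v i) • vol := by
    intro i
    have h1 : pd i (ii v (vol : Om σ (MvPolynomial σ ℂ))) = ii (fun j => pderiv i (v j)) vol := by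
      rw [ii_apply, ii_apply, map_sum]
      refine Finset.sum_congr rfl fun j _ => ?_
      rw [pd_smul, pd_ct, pd_vol, map_zero, smul_zero, add_zero]
    rw [h1]
    have h2 := ee_ii_vol (fun j => pderiv i (v j)) (Pi.single i (1 : MvPolynomial σ ℂ))
    rw [ee_apply, Finset.sum_eq_single i (fun j _ hj => by
        rw [Pi.single_eq_of_ne hj, zero_smul]) (fun h => absurd (Finset.mem_univ i) h),
      Pi.single_eq_same, one_smul] at h2
    rw [h2, Finset.sum_eq_single i (fun j _ hj => by
        rw [Pi.single_eq_of_ne hj, mul_zero]) (fun h => absurd (Finset.mem_univ i) h),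
      Pi.single_eq_same, mul_one]
  rw [dd_apply, Finset.sum_congr rfl fun i _ => h i, Finset.sum_smul]

theorem pr_vol : pr (Fintype.card σ : ℤ) (vol : Om σ (MvPolynomial σ ℂ)) = vol := by
  funext S
  rw [pr_apply, vol]
  split_ifs with h1 h2 h2
  · rfl
  · rfl
  · rw [h2, Finset.card_univ] at h1
    exact absurd rfl h1
  · rfl

theorem exists_ii (ω : Om σ (MvPolynomial σ ℂ)) (h : pr ((Fintype.card σ : ℤ) - 1) ω = ω) :
    ω = ii (fun i => sg i (Finset.univ.erase i) • ω (Finset.univ.erase i)) vol := by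
  funext S
  rw [ii_apply, Finset.sum_apply]
  by_cases hS : (S.card : ℤ) = (Fintype.card σ : ℤ) - 1
  · have h1 : Sᶜ.card = 1 := by
      rw [Finset.card_compl]
      omega
    obtain ⟨i, hi⟩ := Finset.card_eq_one.1 h1
    have h2 : S = Finset.univ.erase i := by
      rw [← compl_compl S, hi]
      ext x
      simp
    rw [Finset.sum_eq_single i]
    · rw [Pi.smul_apply, ct_apply, if_neg (by rw [h2]; simp), vol, if_pos (by
        rw [h2, Finset.insert_erase (Finset.mem_univ i)]), ← h2, smul_eq_mul, zsmul_eq_mul,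
        zsmul_eq_mul, mul_one]
      have h3 := sg_sq i S
      have h4 : ((sg i S : ℤ) : MvPolynomial σ ℂ) * ((sg i S : ℤ) : MvPolynomial σ ℂ) = 1 := by
        rw [← Int.cast_mul, h3, Int.cast_one]
      linear_combination - (ω S) * h4
    · intro j _ hj
      rw [Pi.smul_apply, ct_apply, if_pos (by rw [h2]; simp [hj]), smul_zero]
    · intro h5
      exact absurd (Finset.mem_univ i) h5
  · have h1 : ω S = 0 := by
      rw [← h, pr_apply, if_neg hS]
    rw [h1, eq_comm]
    refine Finset.sum_eq_zero fun i _ => ?_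
    rw [Pi.smul_apply, ct_apply]
    split_ifs with h2
    · rw [smul_zero]
    · rw [vol, if_neg, smul_zero, smul_zero]
      intro h3
      have h4 := congrArg Finset.card h3
      rw [Finset.card_insert_of_notMem h2, Finset.card_univ] at h4
      omega

end Pool.Agent.Helper48.SN
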