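import Pool.Agent.Helper48.SN.Lin

set_option autoImplicit false
set_option linter.unusedSectionVars false

/-! # Linear vector fields tangent to the hypersurfaces -/

namespace Pool.Agent.Helper48.SN

open Finset MvPolynomial Pool.Agent.H119.LSS

variable {N : ℕ} {ι : Type} [DecidableEq ι]

theorem eval_zero_of_hom (p : MvPolynomial (Fin N) ℂ) (k : ℕ) (hp : p.IsHomogeneous k)
    (hk : 0 < k) : eval 0 p = 0 := by
  by_contra h0
  have h2 : coeff 0 p ≠ 0 := by rwa [← constantCoeff_eq, ← eval_zero]
  have h3 := hp h2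
  rw [map_zero] at h3
  omega

theorem const_of_hom (p : MvPolynomial (Fin N) ℂ) (hp : p.IsHomogeneous 0) :
    p = C (coeff 0 p) := by
  rw [← homogeneousComponent_zero, homogeneousComponent_eq_self hp]

theorem euler_eval (p : MvPolynomial (Fin N) ℂ) (k : ℕ) (hp : p.IsHomogeneous k) (x : Fin N → ℂ) :
    ∑ j, x j * eval x (pderiv j p) = k * eval x p := by
  have h := congrArg (eval x) hp.sum_X_mul_pderiv
  rw [map_sum, nsmul_eq_mul, map_mul, map_natCast] at h
  rw [← h]
  exact Finset.sum_congr rfl fun j _ => by rw [map_mul, eval_X]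

/-- `N` of the forms have no common zero -/
theorem zero_of_card (F : ι → MvPolynomial (Fin N) ℂ) (e : ι → ℕ)
    (hF : ∀ k, (F k).IsHomogeneous (e k)) (hS : SNC F) (I : Finset ι) (hI : N ≤ I.card)
    (x : Fin N → ℂ) (hx : ∀ i ∈ I, eval x (F i) = 0) : x = 0 := by
  by_contra hx0
  have hli := hS I x hx0 hx
  have h1 := hli.fintype_card_le_finrank
  rw [Module.finrank_fin_fun, Fintype.card_coe] at h1
  have h2 := hli.span_eq_top_of_card_eq_finrank' (by
    rw [Module.finrank_fin_fun, Fintype.card_coe]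
    omega)
  set φ : (Fin N → ℂ) →ₗ[ℂ] ℂ := Fintype.linearCombination ℂ x with hφ
  have h3 : Submodule.span ℂ (Set.range fun (i : I) (j : Fin N) => eval x (pderiv j (F i))) ≤
      LinearMap.ker φ := by
    rw [Submodule.span_le]
    rintro _ ⟨i, rfl⟩
    rw [SetLike.mem_coe, LinearMap.mem_ker, hφ, Fintype.linearCombination_apply]
    have h4 := euler_eval (F i) (e i) (hF i) x
    rw [hx i i.2, mul_zero] at h4
    rw [← h4]
    exact Finset.sum_congr rfl fun j _ => by rw [smul_eq_mul, mul_comm]
  rw [h2, top_le_iff] at h3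
  apply hx0
  funext j
  have h4 : (Pi.single j (1 : ℂ) : Fin N → ℂ) ∈ LinearMap.ker φ := by
    rw [h3]
    exact Submodule.mem_top
  rw [LinearMap.mem_ker, hφ, Fintype.linearCombination_apply_single, one_smul] at h4
  exact h4

theorem kos_grad (F : ι → MvPolynomial (Fin N) ℂ) (e : ι → ℕ)
    (hF : ∀ k, (F k).IsHomogeneous (e k)) (he : ∀ k, 0 < e k) (hS : SNC F) (i : ι)
    (A : Fin N → MvPolynomial (Fin N) ℂ) (h : ∑ j, A j * pderiv j (F i) = 0) :
    Kos (fun j => pderiv j (F i)) A := by
  refine h1_of_zero (fun j => pderiv j (F i)) (fun x hx => ?_) A h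
  by_contra hx0
  have h1 := euler_eval (F i) (e i) (hF i) x
  rw [Finset.sum_eq_zero fun j _ => by rw [hx j, mul_zero]] at h1
  have h2 : eval x (F i) = 0 := by
    rcases mul_eq_zero.1 h1.symm with h3 | h3
    · have := he i
      have h4 : e i = 0 := by exact_mod_cast h3
      omega
    · exact h3
  have h3 := hS {i} x hx0 (by
    intro k hk
    rw [Finset.mem_singleton] at hk
    rw [hk, h2])
  apply h3.ne_zero (⟨i, Finset.mem_singleton_self i⟩ : ({i} : Finset ι))
  funext j
  exact hx j

theorem mu_two (F : ι → MvPolynomial (Fin N) ℂ) (e : ι → ℕ)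
    (hF : ∀ k, (F k).IsHomogeneous (e k)) (he : ∀ k, 0 < e k) (hS : SNC F) (hN : 0 < N)
    (A : Fin N → MvPolynomial (Fin N) ℂ) (hdiv : ∑ j, pderiv j (A j) = 0) (i : ι)
    (h2 : 2 ≤ e i) (μ : ℂ) (hμ : ∑ j, A j * pderiv j (F i) = C μ * F i) : μ = 0 := by
  have hei : (e i : ℂ) ≠ 0 := by
    have := he i
    exact_mod_cast this.ne'
  have h3 : ∑ j, (A j - C (μ / e i) * X j) * pderiv j (F i) = 0 := by
    have h4 := (hF i).sum_X_mul_pderiv
    have h5 : ∑ j, (A j - C (μ / e i) * X j) * pderiv j (F i) =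
        ∑ j, A j * pderiv j (F i) - C (μ / e i) * ∑ j, X j * pderiv j (F i) := by
      rw [Finset.mul_sum, ← Finset.sum_sub_distrib]
      exact Finset.sum_congr rfl fun j _ => by ring
    rw [h5, h4, hμ, nsmul_eq_mul, ← mul_assoc, ← map_natCast (C : ℂ →+* MvPolynomial (Fin N) ℂ),
      ← map_mul, div_mul_cancel₀ _ hei, sub_self]
  obtain ⟨c, hc, hA⟩ := kos_grad F e hF he hS i _ h3
  have h4 : ∑ j, pderiv j (A j - C (μ / e i) * X j) = - C (μ / e i * N) := by
    have h5 : ∀ j : Fin N, pderiv j (A j - C (μ / e i) * X j) = pderiv j (A j) - C (μ / e i) := by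
      intro j
      rw [map_sub, pderiv_C_mul, pderiv_X_self, mul_one]
    rw [Finset.sum_congr rfl fun j _ => h5 j, Finset.sum_sub_distrib, hdiv, zero_sub,
      Finset.sum_const, Finset.card_univ, Fintype.card_fin, nsmul_eq_mul, map_mul, map_natCast,
      mul_comm]
  have h5 : ∑ j, pderiv j (A j - C (μ / e i) * X j) =
      ∑ j, ∑ k, (pderiv j (c j k) * pderiv k (F i)) := by
    have h6 : ∀ j : Fin N, pderiv j (A j - C (μ / e i) * X j) =
        ∑ k, (pderiv j (c j k) * pderiv k (F i)) + ∑ k, c j k * pderiv j (pderiv k (F i)) := by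
      intro j
      have h7 : A j - C (μ / e i) * X j = ∑ k, c j k * pderiv k (F i) := congrFun hA j
      rw [h7, map_sum, ← Finset.sum_add_distrib]
      exact Finset.sum_congr rfl fun k _ => by rw [pderiv_mul]
    rw [Finset.sum_congr rfl fun j _ => h6 j, Finset.sum_add_distrib,
      anti_sum (fun j k => c j k * pderiv j (pderiv k (F i))) (fun j => by rw [hc.1, zero_mul])
        (fun j k => by rw [hc.2 j k, pderiv_comm j k, neg_mul]), add_zero]
  have h6 := congrArg (eval (0 : Fin N → ℂ)) (h4.symm.trans h5)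
  rw [map_neg, eval_C, map_sum, Finset.sum_eq_zero fun j _ => by
    rw [map_sum]
    refine Finset.sum_eq_zero fun k _ => ?_
    rw [map_mul, eval_zero_of_hom (pderiv k (F i)) (e i - 1) (hF i).pderiv (by omega), mul_zero]]
    at h6
  have hN' : (N : ℂ) ≠ 0 := by exact_mod_cast hN.ne'
  rw [neg_eq_zero, mul_eq_zero, div_eq_zero_iff] at h6
  rcases h6 with (h6 | h6) | h6
  · exact h6
  · exact absurd h6 hei
  · exact absurd h6 hN'

theorem mu_lin [Fintype ι] (F : ι → MvPolynomial (Fin N) ℂ) (e : ι → ℕ)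
    (hF : ∀ k, (F k).IsHomogeneous (e k)) (he : ∀ k, 0 < e k) (hS : SNC F) (hN : 0 < N)
    (A : Fin N → MvPolynomial (Fin N) ℂ) (hA1 : ∀ j, (A j).IsHomogeneous 1) (q : ι)
    (h2 : 2 ≤ e q) (hq : ∑ j, A j * pderiv j (F q) = 0) (i : ι) (hi : e i = 1) (μ : ℂ)
    (hμ : ∑ j, A j * pderiv j (F i) = C μ * F i) : μ = 0 := by
  have hne : ∀ k, F k ≠ 0 := F_ne hN F hS
  obtain ⟨c, hc, hA⟩ := kos_grad F e hF he hS q _ hq
  have hA' : ∀ j, A j = ∑ k, c j k * pderiv k (F q) := fun j => congrFun hA j
  by_contra hμ0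
  have hCμ : C μ * F i ≠ 0 := mul_ne_zero (by
    rw [Ne, ← C_0, (C_injective _ _).eq_iff]
    exact hμ0) (hne i)
  rcases Nat.lt_or_ge 2 (e q) with h3 | h3
  · apply hCμ
    rw [← hμ]
    refine Finset.sum_eq_zero fun j _ => ?_
    have h4 := homogeneousComponent_eq_self (hA1 j)
    rw [hA' j, map_sum, Finset.sum_eq_zero fun k _ => by
      rw [mul_comm]
      exact Pool.Agent.K3h38.SM.comp_mul_lt _ _ (e q - 1) 1 (hF q).pderiv (by omega)] at h4
    rw [hA' j, ← h4, zero_mul]
  · have h4 : e q = 2 := le_antisymm h3 h2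
    have hdq : ∀ k, (pderiv k (F q)).IsHomogeneous 1 := by
      intro k
      have h5 := (hF q).pderiv (i := k)
      rwa [h4] at h5
    have hdi : ∀ k, pderiv k (F i) = C (coeff 0 (pderiv k (F i))) := by
      intro k
      refine const_of_hom _ ?_
      have h5 := (hF i).pderiv (i := k)
      rwa [hi] at h5
    set l : Fin N → ℂ := fun k => coeff 0 (pderiv k (F i)) with hl
    set c0 : Fin N → Fin N → ℂ := fun j k => coeff 0 (c j k) with hc0
    have hc00 : ∀ j, c0 j j = 0 := by
      intro j
      rw [hc0]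
      simp only
      rw [hc.1, coeff_zero]
    have hc01 : ∀ j k, c0 j k = - c0 k j := by
      intro j k
      rw [hc0]
      simp only
      rw [hc.2 j k, coeff_neg]
    have hAc : ∀ j, A j = ∑ k, C (c0 j k) * pderiv k (F q) := by
      intro j
      have h5 := homogeneousComponent_eq_self (hA1 j)
      rw [← h5, hA' j, map_sum]
      refine Finset.sum_congr rfl fun k _ => ?_
      have h6 := Pool.Agent.K3h38.SM.comp_mul_left (pderiv k (F q)) (c j k) 1 0 (hdq k)
      rw [add_zero, homogeneousComponent_zero] at h6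
      rw [mul_comm, h6, mul_comm]
    set v : Fin N → ℂ := fun k => ∑ j, l j * c0 j k with hv
    have hstar : ∑ k, C (v k) * pderiv k (F q) = C μ * F i := by
      rw [← hμ]
      have h5 : ∀ j, A j * pderiv j (F i) = ∑ k, C (l j * c0 j k) * pderiv k (F q) := by
        intro j
        rw [hAc j, hdi j, Finset.sum_mul]
        refine Finset.sum_congr rfl fun k _ => ?_
        rw [map_mul]
        ring
      rw [Finset.sum_congr rfl fun j _ => h5 j, Finset.sum_comm]
      refine Finset.sum_congr rfl fun k _ => ?_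
      rw [hv]
      simp only
      rw [map_sum, Finset.sum_mul]
    have hv0 : v ≠ 0 := by
      intro h5
      apply hCμ
      rw [← hstar, h5]
      simp
    have hgq : ∀ m, eval v (pderiv m (F q)) = μ * l m := by
      intro m
      have h5 := euler_eval (pderiv m (F q)) 1 (hdq m) v
      rw [Nat.cast_one, one_mul] at h5
      rw [← h5]
      have h6 := congrArg (fun p => eval v (pderiv m p)) hstar
      simp only [map_sum, pderiv_C_mul, map_mul, eval_C] at h6
      rw [hdi m, eval_C] at h6
      rw [← h6]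
      exact Finset.sum_congr rfl fun k _ => by rw [pderiv_comm]
    have hlv : ∑ m, v m * l m = 0 := by
      have h5 : ∑ m, v m * l m = ∑ m, ∑ j, l j * c0 j m * l m := by
        refine Finset.sum_congr rfl fun m _ => ?_
        rw [hv]
        simp only
        rw [Finset.sum_mul]
      rw [h5]
      refine anti_sum (fun m j => l j * c0 j m * l m) (fun m => ?_) (fun m j => ?_)
      · rw [hc00, mul_zero, zero_mul]
      · rw [hc01 j m]
        ring
    have hFi : eval v (F i) = 0 := by
      have h5 := euler_eval (F i) (e i) (hF i) v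
      rw [hi, Nat.cast_one, one_mul] at h5
      rw [← h5, ← hlv]
      refine Finset.sum_congr rfl fun m _ => ?_
      rw [hdi m, eval_C]
    have hFq : eval v (F q) = 0 := by
      have h5 := euler_eval (F q) (e q) (hF q) v
      rw [Finset.sum_congr rfl fun m _ => by rw [hgq m]] at h5
      have h6 : ∑ m, v m * (μ * l m) = 0 := by
        rw [← mul_zero μ, ← hlv, Finset.mul_sum]
        exact Finset.sum_congr rfl fun m _ => by ring
      rw [h6, h4] at h5
      rcases mul_eq_zero.1 h5.symm with h7 | h7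
      · norm_num at h7
      · exact h7
    have hqi : q ≠ i := by
      rintro rfl
      omega
    have hli := hS {q, i} v hv0 (by
      intro k hk
      rw [Finset.mem_insert, Finset.mem_singleton] at hk
      rcases hk with rfl | rfl
      · exact hFq
      · exact hFi)
    rw [Fintype.linearIndependent_iff] at hli
    have h5 := hli (fun x => if x.1 = q then 1 else - μ) (by
      have h6 := Finset.sum_coe_sort ({q, i} : Finset ι)
        (fun x => (if x = q then (1 : ℂ) else - μ) • fun j => eval v (pderiv j (F x)))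
      rw [Finset.sum_pair hqi, if_pos rfl, if_neg (Ne.symm hqi)] at h6
      refine h6.trans ?_
      funext j
      rw [Pi.add_apply, Pi.smul_apply, Pi.smul_apply, Pi.zero_apply, hgq j, hdi j, eval_C,
        smul_eq_mul, smul_eq_mul]
      ring) ⟨q, by simp⟩
    rw [if_pos rfl] at h5
    exact one_ne_zero h5

/-- the case of hyperplanes -/
theorem mu_hyp (F : ι → MvPolynomial (Fin N) ℂ) [Fintype ι] (hF : ∀ k, (F k).IsHomogeneous 1)
    (hS : SNC F) (hN : 0 < N) (A : Fin N → MvPolynomial (Fin N) ℂ)
    (hdiv : ∑ j, pderiv j (A j) = 0) (μ : ι → ℂ) (hcard : N + 1 ≤ Fintype.card ι)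
    (hμ : ∀ i, ∑ j, A j * pderiv j (F i) = C (μ i) * F i) (i : ι) : μ i = 0 := by
  have hdi : ∀ i k, pderiv k (F i) = C (coeff 0 (pderiv k (F i))) := by
    intro i k
    exact const_of_hom _ ((hF i).pderiv (i := k))
  set l : ι → Fin N → ℂ := fun i k => coeff 0 (pderiv k (F i)) with hl
  have hev : ∀ i x, eval x (F i) = ∑ k, x k * l i k := by
    intro i x
    have h5 := euler_eval (F i) 1 (hF i) x
    rw [Nat.cast_one, one_mul] at h5
    rw [← h5]
    exact Finset.sum_congr rfl fun k _ => by rw [hdi i k, eval_C]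
  have hAv : ∀ i x, ∑ k, eval x (A k) * l i k = μ i * ∑ k, x k * l i k := by
    intro i x
    have h5 := congrArg (eval x) (hμ i)
    rw [map_sum, map_mul, eval_C, hev] at h5
    rw [← h5]
    refine Finset.sum_congr rfl fun k _ => ?_
    rw [map_mul, hdi i k, eval_C]
  have hall : ∀ i i', μ i = μ i' := by
    intro i i'
    rcases eq_or_ne i i' with rfl | hii
    · rfl
    have h1 : N - 1 ≤ (Finset.univ \ {i, i'}).card := by
      rw [Finset.card_sdiff_of_subset (Finset.subset_univ _), Finset.card_univ,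
        Finset.card_pair hii]
      omega
    obtain ⟨I, hI, hIc⟩ := Finset.exists_subset_card_eq h1
    have h2 : LinearMap.ker (Matrix.mulVecLin (Matrix.of fun (k : I) j => l k j)) ≠ ⊥ := by
      apply LinearMap.ker_ne_bot_of_finrank_lt
      rw [Module.finrank_fin_fun, Module.finrank_fintype_fun_eq_card, Fintype.card_coe, hIc]
      omega
    obtain ⟨x, hx, hx0⟩ := Submodule.exists_mem_ne_zero_of_ne_bot h2
    rw [LinearMap.mem_ker, Matrix.mulVecLin_apply] at hx
    have hx' : ∀ k ∈ I, ∑ j, x j * l k j = 0 := by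
      intro k hk
      have h3 := congrFun hx ⟨k, hk⟩
      rw [Matrix.mulVec, dotProduct] at h3
      rw [← show ∑ j, l k j * x j = 0 from h3]
      exact Finset.sum_congr rfl fun j _ => mul_comm _ _
    have h3 : ∀ b, b ∉ I → (fun k => eval x (A k)) = μ b • x := by
      intro b hb
      rw [← sub_eq_zero]
      refine zero_of_card F (fun _ => 1) hF hS (insert b I) (by
        rw [Finset.card_insert_of_notMem hb, hIc]
        omega) _ fun k hk => ?_
      rw [hev]
      have h4 : ∑ j, ((fun k => eval x (A k)) - μ b • x) j * l k j =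
          (μ k - μ b) * ∑ j, x j * l k j := by
        rw [sub_mul, ← hAv, Finset.mul_sum, ← Finset.sum_sub_distrib]
        refine Finset.sum_congr rfl fun j _ => ?_
        rw [Pi.sub_apply, Pi.smul_apply, smul_eq_mul]
        ring
      rw [h4]
      rcases Finset.mem_insert.1 hk with rfl | hk
      · rw [sub_self, zero_mul]
      · rw [hx' k hk, mul_zero]
    have hiI : i ∉ I := fun h => by
      have := hI h
      simp at this
    have hiI' : i' ∉ I := fun h => by
      have := hI h
      simp at this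
    have h4 := (h3 i hiI).symm.trans (h3 i' hiI')
    rw [← sub_eq_zero, ← sub_smul, smul_eq_zero] at h4
    rcases h4 with h4 | h4
    · exact sub_eq_zero.1 h4
    · exact absurd h4 hx0
  have h5 : ∀ j, A j = C (μ i) * X j := by
    intro j
    refine MvPolynomial.funext fun x => ?_
    have h6 : (fun k => eval x (A k)) - μ i • x = 0 := by
      refine zero_of_card F (fun _ => 1) hF hS Finset.univ (by
        rw [Finset.card_univ]
        omega) _ fun k _ => ?_
      rw [hev]
      have h4 : ∑ j, ((fun k => eval x (A k)) - μ i • x) j * l k j =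
          (μ k - μ i) * ∑ j, x j * l k j := by
        rw [sub_mul, ← hAv, Finset.mul_sum, ← Finset.sum_sub_distrib]
        refine Finset.sum_congr rfl fun j _ => ?_
        rw [Pi.sub_apply, Pi.smul_apply, smul_eq_mul]
        ring
      rw [h4, hall k i, sub_self, zero_mul]
    have h7 := congrFun h6 j
    rw [Pi.sub_apply, Pi.smul_apply, Pi.zero_apply, smul_eq_mul, sub_eq_zero] at h7
    rw [h7, map_mul, eval_C, eval_X]
  rw [Finset.sum_congr rfl fun j _ => by rw [h5 j, pderiv_C_mul, pderiv_X_self, mul_one],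
    Finset.sum_const, Finset.card_univ, Fintype.card_fin, nsmul_eq_mul,
    ← map_natCast (C : ℂ →+* MvPolynomial (Fin N) ℂ), ← map_mul, ← C_0,
    (C_injective _ _).eq_iff, mul_eq_zero] at hdiv
  rcases hdiv with h6 | h6
  · have : N = 0 := by exact_mod_cast h6
    omega
  · exact h6

theorem no_PP [Fintype ι] (hN : 2 ≤ N) (F : ι → MvPolynomial (Fin N) ℂ) (e : ι → ℕ)
    (hF : ∀ k, (F k).IsHomogeneous (e k)) (he : ∀ k, 0 < e k) (hS : SNC F)
    (hcard : (∃ i, 2 ≤ e i) ∨ N + 1 ≤ Fintype.card ι) (lam : ι → ℂ) : ¬ PP F lam 0 := by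
  intro h
  obtain ⟨A, μ, hA1, hdiv, hμ, hsum⟩ := PP_linear hN F e hF he hS lam h
  have h1 : ∀ i, μ i = 0 := by
    by_cases h2 : ∃ i, 2 ≤ e i
    · obtain ⟨q, hq⟩ := h2
      have h3 := mu_two F e hF he hS (by omega) A hdiv q hq (μ q) (hμ q)
      intro i
      rcases Nat.lt_or_ge (e i) 2 with h4 | h4
      · refine mu_lin F e hF he hS (by omega) A hA1 q hq ?_ i (by
          have := he i
          omega) (μ i) (hμ i)
        rw [hμ q, h3, map_zero, zero_mul]
      · exact mu_two F e hF he hS (by omega) A hdiv i h4 (μ i) (hμ i)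
    · have h3 : ∀ i, e i = 1 := by
        intro i
        have h4 : ¬ 2 ≤ e i := fun h5 => h2 ⟨i, h5⟩
        have := he i
        omega
      exact mu_hyp F (fun k => by rw [← h3 k]; exact hF k) hS (by omega) A hdiv μ
        (hcard.resolve_left h2) hμ
  rw [Finset.sum_eq_zero fun i _ => by rw [h1 i, mul_zero]] at hsum
  have h2 : (N : ℂ) = 0 := by
    rw [← neg_eq_zero, ← hsum]
  have h3 : N = 0 := by exact_mod_cast h2
  omega

end Pool.Agent.Helper48.SN
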