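import Pool.Agent.Helper48.SN.Near
import Pool.Agent.Helper48.SN.End

set_option autoImplicit false
set_option linter.unusedSectionVars false

/-! # Hypersurfaces with normal crossings are complete intersections -/

namespace Pool.Agent.Helper48.SN

open Finset MvPolynomial

variable {N : ℕ} {ι : Type} [DecidableEq ι]

theorem exists_mul_pow_mem {R : Type} [CommRing R] {I p : Ideal R} (hp : p ∈ I.minimalPrimes)
    {x : R} (hx : x ∈ p) : ∃ y ∉ p, ∃ m : ℕ, y * x ^ m ∈ I := by
  have hpp : p.IsPrime := hp.1.1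
  by_contra hcon
  push Not at hcon
  set S : Submonoid R :=
    { carrier := {z | ∃ y ∉ p, ∃ m : ℕ, z = y * x ^ m}
      mul_mem' := by
        rintro _ _ ⟨y, hy, m, rfl⟩ ⟨y', hy', m', rfl⟩
        refine ⟨y * y', fun h => ?_, m + m', by rw [pow_add]; ring⟩
        rcases hpp.mem_or_mem h with h | h
        · exact hy h
        · exact hy' h
      one_mem' := ⟨1, (Ideal.ne_top_iff_one p).1 hpp.ne_top, 0, by simp⟩ } with hS
  have hd : Disjoint (I : Set R) S := by
    rw [Set.disjoint_left]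
    rintro z hz ⟨y, hy, m, rfl⟩
    exact hcon y hy m hz
  obtain ⟨P, hP, hIP, hPS⟩ := Ideal.exists_le_prime_disjoint I S hd
  have h1 : P ≤ p := by
    intro z hz
    by_contra hzp
    exact Set.disjoint_left.1 hPS hz ⟨z, hzp, 0, by simp⟩
  have h2 : x ∉ P := by
    intro h
    exact Set.disjoint_left.1 hPS h ⟨1, (Ideal.ne_top_iff_one p).1 hpp.ne_top, 1, by simp⟩
  exact h2 (hp.2 ⟨hP, hIP⟩ h1 hx)

/-- the primes which contain the ideal, but not all variables, have height at least `t` -/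
def Big (I : Ideal (MvPolynomial (Fin N) ℂ)) (t : ℕ) : Prop :=
  ∀ P : Ideal (MvPolynomial (Fin N) ℂ), P.IsPrime → I ≤ P →
    (∃ i, (X i : MvPolynomial (Fin N) ℂ) ∉ P) → (t : ℕ∞) ≤ P.height

theorem Big.mono {I J : Ideal (MvPolynomial (Fin N) ℂ)} {t : ℕ} (h : Big I t) (hIJ : I ≤ J) :
    Big J t := fun P hP hJ hi => h P hP (hIJ.trans hJ) hi

theorem Big.step {I : Ideal (MvPolynomial (Fin N) ℂ)} {t : ℕ} (h : Big I t)
    (g : MvPolynomial (Fin N) ℂ) (hg : ∀ Q ∈ I.minimalPrimes,
      (∃ i, (X i : MvPolynomial (Fin N) ℂ) ∉ Q) → g ∉ Q) (J : Ideal (MvPolynomial (Fin N) ℂ))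
    (hIJ : I ≤ J) (hgJ : g ∈ J) : Big J (t + 1) := by
  intro P hP hJ hi
  obtain ⟨Q, hQ, hQP⟩ := Ideal.exists_minimalPrimes_le (hIJ.trans hJ)
  have hQp : Q.IsPrime := hQ.1.1
  obtain ⟨i, hi⟩ := hi
  have h1 : ∃ i, (X i : MvPolynomial (Fin N) ℂ) ∉ Q := ⟨i, fun h => hi (hQP h)⟩
  have h2 := h Q hQp hQ.1.2 h1
  have h3 : Q < P := by
    refine lt_of_le_of_ne hQP ?_
    rintro rfl
    exact hg _ hQ h1 (hJ hgJ)
  have h4 := Ideal.height_add_one_le_of_lt_of_isPrime h3
  push_cast
  exact (add_le_add_left h2 1).trans h4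

theorem exists_point (Q : Ideal (MvPolynomial (Fin N) ℂ)) (hQ : Q.IsPrime)
    (p : MvPolynomial (Fin N) ℂ) (hp : p ∉ Q) :
    ∃ x : Fin N → ℂ, (∀ q ∈ Q, eval x q = 0) ∧ eval x p ≠ 0 := by
  by_contra hcon
  push Not at hcon
  apply hp
  have h1 : p ∈ vanishingIdeal ℂ (zeroLocus ℂ Q) := by
    rw [mem_vanishingIdeal_iff]
    intro x hx
    rw [mem_zeroLocus_iff] at hx
    exact hcon x fun q hq => hx q hq
  rw [vanishingIdeal_zeroLocus_eq_radical] at h1
  rwa [hQ.radical] at h1

theorem big_list (F : ι → MvPolynomial (Fin N) ℂ) (hS : SNC F) (l : List ι) :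
    l.Nodup → Big (FI F l) l.length := by
  induction l with
  | nil =>
    intro _ P _ _ _
    simp
  | cons b l ih =>
    intro hl
    have hl' := List.nodup_cons.1 hl
    refine (ih hl'.2).step (F b) ?_ _ (FI_le F fun k hk => List.mem_cons_of_mem _ hk)
      (FI_mem F (List.mem_cons_self ..))
    rintro Q hQ ⟨i, hi⟩ hFb
    have hQp : Q.IsPrime := hQ.1.1
    obtain ⟨y, hy, m, hm⟩ := exists_mul_pow_mem hQ hFb
    obtain ⟨x, hx, hxe⟩ := exists_point Q hQp (y * X i) (by
      intro h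
      rcases hQp.mem_or_mem h with h | h
      · exact hy h
      · exact hi h)
    rw [map_mul, eval_X] at hxe
    have hyx : eval x y ≠ 0 := fun h => hxe (by rw [h, zero_mul])
    have hxi : x i ≠ 0 := fun h => hxe (by rw [h, mul_zero])
    have hx0 : x ≠ 0 := by
      rintro rfl
      exact hxi rfl
    have hz : ∀ k ∈ (b :: l).toFinset, eval x (F k) = 0 := by
      intro k hk
      rw [List.mem_toFinset, List.mem_cons] at hk
      rcases hk with rfl | hk
      · exact hx _ hFb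
      · exact hx _ (hQ.1.2 (FI_mem F hk))
    obtain ⟨z, hz1, hz2, hz3⟩ := exists_near F (b :: l).toFinset b (by simp) x hz
      (hS _ x hx0 hz) y hyx
    have h1 : ∀ p ∈ FI F l, eval z p = 0 := by
      intro p hp
      have h2 : FI F l ≤ RingHom.ker (eval z) := by
        rw [FI, Ideal.span_le]
        rintro _ ⟨k, hk, rfl⟩
        refine hz1 k (by
          rw [List.mem_toFinset]
          exact List.mem_cons_of_mem _ hk) ?_
        rintro rfl
        exact hl'.1 hk
      exact h2 hp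
    have h2 := h1 _ hm
    rw [map_mul, map_pow] at h2
    exact mul_ne_zero hz3 (pow_ne_zero _ hz2) h2

theorem exists_linear (I : Ideal (MvPolynomial (Fin N) ℂ)) :
    ∃ g : MvPolynomial (Fin N) ℂ, g.IsHomogeneous 1 ∧ ∀ Q ∈ I.minimalPrimes,
      (∃ i, (X i : MvPolynomial (Fin N) ℂ) ∉ Q) → g ∉ Q := by
  classical
  set Λ : (Fin N → ℂ) →ₗ[ℂ] MvPolynomial (Fin N) ℂ :=
    Fintype.linearCombination ℂ (fun i => (X i : MvPolynomial (Fin N) ℂ)) with hΛ
  have hfin := Ideal.finite_minimalPrimes_of_isNoetherianRing (MvPolynomial (Fin N) ℂ) I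
  set W : Ideal (MvPolynomial (Fin N) ℂ) → Subspace ℂ (Fin N → ℂ) := fun Q =>
    (Q.restrictScalars ℂ).comap Λ with hW
  have htop : (⊤ : Subspace ℂ (Fin N → ℂ)) ∉
      (hfin.toFinset.filter fun Q => ∃ i, (X i : MvPolynomial (Fin N) ℂ) ∉ Q).image W := by
    intro h
    obtain ⟨Q, hQ, hQW⟩ := Finset.mem_image.1 h
    rw [Finset.mem_filter] at hQ
    obtain ⟨_, i, hi⟩ := hQ
    apply hi
    have h1 : (Pi.single i (1 : ℂ) : Fin N → ℂ) ∈ W Q := by
      rw [hQW]
      exact Submodule.mem_top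
    have h2 : Λ (Pi.single i (1 : ℂ)) ∈ Q := h1
    rwa [hΛ, Fintype.linearCombination_apply_single, one_smul] at h2
  have h1 := Subspace.biUnion_ne_univ_of_top_notMem htop
  obtain ⟨a, ha⟩ := (Set.ne_univ_iff_exists_notMem _).1 h1
  refine ⟨Λ a, ?_, fun Q hQ hi hg => ha ?_⟩
  · rw [hΛ, Fintype.linearCombination_apply]
    refine IsHomogeneous.sum _ _ _ fun i _ => ?_
    rw [smul_eq_C_mul]
    exact (isHomogeneous_X ℂ i).C_mul _
  · simp only [Set.mem_iUnion]
    exact ⟨W Q, Finset.mem_image_of_mem _ (Finset.mem_filter.2 ⟨hfin.mem_toFinset.2 hQ, hi⟩), hg⟩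

theorem exists_seq (I : Ideal (MvPolynomial (Fin N) ℂ)) (t : ℕ) (h : Big I t) (k : ℕ) :
    ∃ G : ℕ → MvPolynomial (Fin N) ℂ, (∀ i, (G i).IsHomogeneous 1) ∧
      Big (I ⊔ Ideal.span (G '' {i | i < k})) (t + k) := by
  classical
  induction k with
  | zero =>
    refine ⟨fun _ => 0, fun _ => isHomogeneous_zero _ _ _, ?_⟩
    rw [add_zero]
    exact h.mono le_sup_left
  | succ k ih =>
    obtain ⟨G, hG, hbig⟩ := ih
    obtain ⟨g, hg, hgQ⟩ := exists_linear (I ⊔ Ideal.span (G '' {i | i < k}))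
    refine ⟨Function.update G k g, fun i => ?_, ?_⟩
    · by_cases hi : i = k
      · subst hi
        rwa [Function.update_self]
      · rw [Function.update_of_ne hi]
        exact hG i
    · rw [← add_assoc]
      refine hbig.step g hgQ _ ?_ ?_
      · refine sup_le_sup_left (Ideal.span_mono ?_) _
        rintro _ ⟨i, hi, rfl⟩
        have hi' : i < k := hi
        exact ⟨i, Nat.lt_succ_of_lt hi', Function.update_of_ne hi'.ne _ _⟩
      · exact Submodule.mem_sup_right (Ideal.subset_span ⟨k, Nat.lt_succ_self k,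
          Function.update_self ..⟩)

/-- the vanishing ideal of the line through `x` -/
noncomputable def lineHom (x : Fin N → ℂ) : MvPolynomial (Fin N) ℂ →ₐ[ℂ] Polynomial ℂ :=
  aeval fun i => Polynomial.C (x i) * Polynomial.X

theorem eval_lineHom (x : Fin N → ℂ) (p : MvPolynomial (Fin N) ℂ) (t : ℂ) :
    Polynomial.eval t (lineHom x p) = eval (t • x) p := by
  induction p using MvPolynomial.induction_on with
  | C a => simp [lineHom]
  | add p q hp hq => rw [map_add, map_add, Polynomial.eval_add, hp, hq]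
  | mul_X p n hp =>
    rw [map_mul, map_mul, Polynomial.eval_mul, hp]
    congr 1
    rw [lineHom, aeval_X, eval_X, Polynomial.eval_mul, Polynomial.eval_C, Polynomial.eval_X,
      Pi.smul_apply, smul_eq_mul, mul_comm]

theorem eval_smul_hom (p : MvPolynomial (Fin N) ℂ) (k : ℕ) (hp : p.IsHomogeneous k)
    (x : Fin N → ℂ) (t : ℂ) : eval (t • x) p = t ^ k * eval x p := by
  rw [eval_eq, eval_eq, Finset.mul_sum]
  refine Finset.sum_congr rfl fun m hm => ?_
  have h1 := hp (mem_support_iff.1 hm)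
  have h2 : ∏ i ∈ m.support, (t • x) i ^ m i = t ^ k * ∏ i ∈ m.support, x i ^ m i := by
    rw [← h1]
    have h3 : t ^ (Finsupp.weight 1 m) = ∏ i ∈ m.support, t ^ m i := by
      rw [Finset.prod_pow_eq_pow_sum]
      congr 1
      rw [Finsupp.weight_apply, Finsupp.sum]
      exact Finset.sum_congr rfl fun i _ => by simp
    rw [h3, ← Finset.prod_mul_distrib]
    refine Finset.prod_congr rfl fun i _ => ?_
    rw [Pi.smul_apply, smul_eq_mul, mul_pow]
  rw [h2]
  ring

theorem Big.zero (I : Ideal (MvPolynomial (Fin N) ℂ)) (h : Big I N) (S : Set (MvPolynomial (Fin N) ℂ))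
    (hI : I = Ideal.span S) (hS : ∀ p ∈ S, ∃ k, p.IsHomogeneous k) (x : Fin N → ℂ)
    (hx : ∀ p ∈ S, eval x p = 0) : x = 0 := by
  classical
  by_contra hx0
  obtain ⟨i, hi⟩ : ∃ i, x i ≠ 0 := by
    by_contra hcon
    push Not at hcon
    exact hx0 (funext hcon)
  set P : Ideal (MvPolynomial (Fin N) ℂ) := RingHom.ker (lineHom x) with hP
  have hPp : P.IsPrime := RingHom.ker_isPrime _
  have hIP : I ≤ P := by
    rw [hI, Ideal.span_le]
    intro p hp
    obtain ⟨k, hk⟩ := hS p hp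
    rw [SetLike.mem_coe, hP, RingHom.mem_ker]
    refine Polynomial.funext fun t => ?_
    rw [eval_lineHom, eval_smul_hom p k hk, hx p hp, mul_zero, Polynomial.eval_zero]
  have hXP : (X i : MvPolynomial (Fin N) ℂ) ∉ P := by
    rw [hP, RingHom.mem_ker]
    intro h1
    have h2 := eval_lineHom x (X i) 1
    rw [h1, Polynomial.eval_zero, one_smul, eval_X] at h2
    exact hi h2.symm
  have h1 := h P hPp hIP ⟨i, hXP⟩
  set M : Ideal (MvPolynomial (Fin N) ℂ) := RingHom.ker (eval (0 : Fin N → ℂ)) with hM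
  have hMp : M.IsPrime := RingHom.ker_isPrime _
  have hPM : P < M := by
    refine lt_of_le_of_ne ?_ ?_
    · intro p hp
      rw [hP, RingHom.mem_ker] at hp
      have h2 := eval_lineHom x p 0
      rw [hp, Polynomial.eval_zero, zero_smul] at h2
      rw [hM, RingHom.mem_ker]
      exact h2.symm
    · intro h2
      apply hXP
      rw [h2, hM, RingHom.mem_ker, eval_X]
      rfl
  have h2 := Ideal.height_add_one_le_of_lt_of_isPrime hPM
  have h3 : M ∈ (Ideal.span ((Finset.univ.image fun i : Fin N =>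
      (X i : MvPolynomial (Fin N) ℂ) : Finset (MvPolynomial (Fin N) ℂ)) :
      Set (MvPolynomial (Fin N) ℂ))).minimalPrimes := by
    rw [Finset.coe_image, Finset.coe_univ]
    refine ⟨⟨hMp, ?_⟩, ?_⟩
    · rw [Ideal.span_le]
      rintro _ ⟨j, _, rfl⟩
      rw [SetLike.mem_coe, hM, RingHom.mem_ker, eval_X]
      rfl
    · rintro Q ⟨_, hQ⟩ _ p hp
      apply hQ
      rw [mem_ideal_span_X_image]
      intro m hm
      rw [hM, RingHom.mem_ker] at hp
      by_contra hcon
      push Not at hcon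
      have h4 : m = 0 := by
        ext j
        exact hcon j (Set.mem_univ j)
      rw [h4, mem_support_iff] at hm
      apply hm
      rw [← constantCoeff_eq, ← eval_zero]
      exact hp
  have h4 := Ideal.height_le_card_of_mem_minimalPrimes_span_finset h3
  have h5 : ((Finset.univ.image fun i : Fin N => (X i : MvPolynomial (Fin N) ℂ)).card : ℕ∞) ≤ N := by
    have h6 := Finset.card_image_le (s := (Finset.univ : Finset (Fin N)))
      (f := fun i : Fin N => (X i : MvPolynomial (Fin N) ℂ))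
    rw [Finset.card_univ, Fintype.card_fin] at h6
    exact_mod_cast h6
  have h6 : (N : ℕ∞) + 1 ≤ N := ((add_le_add_left h1 1).trans h2).trans (h4.trans h5)
  have h7 : N + 1 ≤ N := by exact_mod_cast h6
  omega

/-- **The completion by linear forms.** -/
theorem comp_of_snc (F : ι → MvPolynomial (Fin N) ℂ) (e : ι → ℕ)
    (hF : ∀ k, (F k).IsHomogeneous (e k)) (hS : SNC F) : Comp F := by
  intro l hl hlN
  obtain ⟨G, hG, hbig⟩ := exists_seq (FI F l) l.length (big_list F hS l hl) (N - l.length)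
  refine ⟨G, hG, fun x hx hGx => ?_⟩
  rw [Nat.add_sub_cancel' hlN] at hbig
  refine Big.zero _ hbig (F '' {k | k ∈ l} ∪ G '' {i | i < N - l.length}) ?_ ?_ x ?_
  · rw [FI, ← Ideal.span_union]
  · rintro p (⟨k, _, rfl⟩ | ⟨i, _, rfl⟩)
    · exact ⟨_, hF k⟩
    · exact ⟨_, hG i⟩
  · rintro p (⟨k, hk, rfl⟩ | ⟨i, hi, rfl⟩)
    · exact hx k hk
    · exact hGx i hi

end Pool.Agent.Helper48.SN
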