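import Pool.Agent.Helper48.SN.Koszul

set_option autoImplicit false
set_option linter.unusedSectionVars false

/-! # The division lemma for hypersurfaces with normal crossings -/

namespace Pool.Agent.Helper48.SN

open Finset MvPolynomial Pool.Agent.H119.LSS

variable {N : ℕ} {ι : Type} [DecidableEq ι]

/-- The hypersurfaces `F_i = 0` of the projective space are smooth and cross each other normally: the
gradients of the `F_i` which vanish at a point `x ≠ 0` are linearly independent. -/
def SNC (F : ι → MvPolynomial (Fin N) ℂ) : Prop :=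
  ∀ (I : Finset ι) (x : Fin N → ℂ), x ≠ 0 → (∀ i ∈ I, eval x (F i) = 0) →
    LinearIndependent ℂ fun (i : I) (j : Fin N) => eval x (pderiv j (F i))

/-- the forms in the list can be completed by linear forms to a system without zeros -/
def Comp (F : ι → MvPolynomial (Fin N) ℂ) : Prop :=
  ∀ l : List ι, l.Nodup → l.length ≤ N → ∃ G : ℕ → MvPolynomial (Fin N) ℂ,
    (∀ i, (G i).IsHomogeneous 1) ∧ ∀ x : Fin N → ℂ, (∀ k ∈ l, eval x (F k) = 0) →
      (∀ i < N - l.length, eval x (G i) = 0) → x = 0

/-- `dF_k ∧` -/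
noncomputable abbrev TT (F : ι → MvPolynomial (Fin N) ℂ) (k : ι) :
    Om (Fin N) (MvPolynomial (Fin N) ℂ) →ₗ[MvPolynomial (Fin N) ℂ]
      Om (Fin N) (MvPolynomial (Fin N) ℂ) := ee (grad (F k))

/-- the ideal generated by the forms in the list -/
noncomputable def FI (F : ι → MvPolynomial (Fin N) ℂ) (l : List ι) :
    Ideal (MvPolynomial (Fin N) ℂ) := Ideal.span (F '' {k | k ∈ l})

theorem FI_mem (F : ι → MvPolynomial (Fin N) ℂ) {l : List ι} {k : ι} (hk : k ∈ l) :
    F k ∈ FI F l := Ideal.subset_span ⟨k, hk, rfl⟩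

theorem FI_le (F : ι → MvPolynomial (Fin N) ℂ) {l l' : List ι} (h : ∀ k ∈ l, k ∈ l') :
    FI F l ≤ FI F l' := Ideal.span_mono (Set.image_mono h)

theorem TT_anti (F : ι → MvPolynomial (Fin N) ℂ) (k l : ι)
    (x : Om (Fin N) (MvPolynomial (Fin N) ℂ)) : TT F k (TT F l x) = - TT F l (TT F k x) :=
  ee_ee _ _ x

theorem TT_self (F : ι → MvPolynomial (Fin N) ℂ) (k : ι)
    (x : Om (Fin N) (MvPolynomial (Fin N) ℂ)) : TT F k (TT F k x) = 0 := ee_self _ x

/-- the contractions with dual vector fields -/
theorem good (F : ι → MvPolynomial (Fin N) ℂ) (v : ι → Fin N → MvPolynomial (Fin N) ℂ)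
    (c : MvPolynomial (Fin N) ℂ) (J : Ideal (MvPolynomial (Fin N) ℂ)) (l : List ι) (hl : l.Nodup)
    (hv : ∀ k ∈ l, ∀ m ∈ l, ∑ j, v k j * grad (F m) j = if k = m then c else 0) :
    ∀ ω : Om (Fin N) (MvPolynomial (Fin N) ℂ), WW (TT F) l ω ∈ cf J →
      c ^ l.length • ω ∈ IM (TT F) l ⊔ cf J := by
  induction l with
  | nil =>
    intro ω h
    rw [List.length_nil, pow_zero, one_smul]
    exact Submodule.mem_sup_right h
  | cons b l ih =>
    intro ω h
    rw [List.nodup_cons] at hl
    have h1 := ih hl.2 (fun k hk m hm => hv k (List.mem_cons_of_mem _ hk) m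
      (List.mem_cons_of_mem _ hm)) (TT F b ω) h
    obtain ⟨y, hy, z, hz, hyz⟩ := Submodule.mem_sup.1 h1
    have h2 : ∀ y ∈ IM (TT F) l, ii (v b) y ∈ IM (TT F) l := by
      have h3 : ∀ l', (∀ k ∈ l', k ∈ l) → ∀ y ∈ IM (TT F) l', ii (v b) y ∈ IM (TT F) l' := by
        intro l'
        induction l' with
        | nil =>
          intro _ y hy
          rw [IM, Submodule.mem_bot] at hy ⊢
          rw [hy, map_zero]
        | cons b' l' ih' =>
          intro hl' y hy
          rw [IM] at hy ⊢
          obtain ⟨_, ⟨α, rfl⟩, β, hβ, rfl⟩ := Submodule.mem_sup.1 hy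
          rw [map_add]
          refine Submodule.add_mem_sup ⟨- ii (v b) α, ?_⟩
            (ih' (fun k hk => hl' k (List.mem_cons_of_mem _ hk)) β hβ)
          have h4 := hv b (List.mem_cons_self ..) b' (List.mem_cons_of_mem _
            (hl' b' (List.mem_cons_self ..)))
          have hne : b ≠ b' := by
            rintro rfl
            exact hl.1 (hl' b (List.mem_cons_self ..))
          rw [if_neg hne] at h4
          rw [ii_ee, h4, zero_smul, zero_sub, map_neg]
      exact h3 l fun k hk => hk
    have h5 := congrArg (ii (v b)) hyz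
    rw [map_smul, ii_ee, hv b (List.mem_cons_self ..) b (List.mem_cons_self ..), if_pos rfl,
      map_add, smul_sub, smul_smul, ← pow_succ] at h5
    have h6 : c ^ (b :: l).length • ω =
        (TT F b (c ^ l.length • ii (v b) ω) + ii (v b) y) + ii (v b) z := by
      rw [List.length_cons, add_assoc, h5, map_smul]
      abel
    rw [h6, IM]
    exact Submodule.add_mem_sup (Submodule.add_mem_sup ⟨_, rfl⟩ (h2 y hy)) (ii_cf _ hz)

/-- the multipliers -/
def CC (F : ι → MvPolynomial (Fin N) ℂ) (l : List ι) : Ideal (MvPolynomial (Fin N) ℂ) where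
  carrier := {a | ∀ l', l' <:+ l → ∀ J : Ideal (MvPolynomial (Fin N) ℂ), FI F l ≤ J →
    ∀ ω, WW (TT F) l' ω ∈ cf J → a • ω ∈ IM (TT F) l' ⊔ cf J}
  add_mem' h1 h2 l' hl' J hJ ω hω := by
    rw [add_smul]
    exact Submodule.add_mem _ (h1 l' hl' J hJ ω hω) (h2 l' hl' J hJ ω hω)
  zero_mem' l' hl' J hJ ω hω := by
    rw [zero_smul]
    exact Submodule.zero_mem _
  smul_mem' c a h l' hl' J hJ ω hω := by
    rw [smul_eq_mul, mul_smul]
    exact Submodule.smul_mem _ c (h l' hl' J hJ ω hω)

theorem CC_zero (F : ι → MvPolynomial (Fin N) ℂ) (hF : SNC F) (l : List ι) (hl : l.Nodup)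
    (x : Fin N → ℂ) (hx : ∀ p ∈ CC F l, eval x p = 0) : x = 0 := by
  classical
  by_contra hx0
  by_cases h1 : ∃ k ∈ l, eval x (F k) ≠ 0
  · obtain ⟨k, hk, h2⟩ := h1
    apply h2
    apply hx
    intro l' _ J hJ ω _
    refine Submodule.mem_sup_right fun S => ?_
    rw [Pi.smul_apply, smul_eq_mul]
    exact Ideal.mul_mem_right _ _ (hJ (FI_mem F hk))
  push Not at h1
  have hli := hF l.toFinset x hx0 (fun i hi => h1 i (List.mem_toFinset.1 hi))
  -- dual vectors
  have hinj : LinearMap.ker (Fintype.linearCombination ℂ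
      fun (i : l.toFinset) (j : Fin N) => eval x (pderiv j (F i))) = ⊥ := by
    rw [LinearMap.ker_eq_bot]
    exact hli.fintypeLinearCombination_injective
  obtain ⟨g, hg⟩ := LinearMap.exists_leftInverse_of_injective _ hinj
  have hgu : ∀ m : l.toFinset, g (fun j => eval x (pderiv j (F m))) = Pi.single m 1 := by
    intro m
    have h3 := LinearMap.congr_fun hg (Pi.single m (1 : ℂ))
    rw [LinearMap.comp_apply, Fintype.linearCombination_apply_single, one_smul] at h3
    exact h3
  set V : l.toFinset → Fin N → ℂ := fun k j => g (Pi.single j 1) k with hV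
  have hVd : ∀ k m : l.toFinset, ∑ j, V k j * eval x (pderiv j (F m)) =
      if k = m then 1 else 0 := by
    intro k m
    have h4 : (fun j => eval x (pderiv j (F m))) =
        ∑ j, eval x (pderiv j (F m)) • (Pi.single j (1 : ℂ) : Fin N → ℂ) := by
      funext i
      rw [Finset.sum_apply, Finset.sum_eq_single i]
      · rw [Pi.smul_apply, Pi.single_eq_same, smul_eq_mul, mul_one]
      · intro j _ hj
        rw [Pi.smul_apply, Pi.single_eq_of_ne (Ne.symm hj), smul_zero]
      · intro h
        exact absurd (Finset.mem_univ i) h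
    have h5 := congrFun (hgu m) k
    rw [h4, map_sum, Finset.sum_apply] at h5
    simp only [map_smul, Pi.smul_apply, smul_eq_mul] at h5
    rw [Pi.single_apply] at h5
    rw [← h5]
    exact Finset.sum_congr rfl fun j _ => mul_comm _ _
  set M : Matrix l.toFinset l.toFinset (MvPolynomial (Fin N) ℂ) :=
    Matrix.of fun k m => ∑ j, C (V k j) * grad (F m) j with hM
  set c := M.det with hc
  have hcx : eval x c = 1 := by
    rw [hc, RingHom.map_det]
    have : (eval x).mapMatrix M = 1 := by
      ext k m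
      rw [RingHom.mapMatrix_apply, Matrix.map_apply, hM, Matrix.of_apply, map_sum,
        Matrix.one_apply, ← hVd k m]
      refine Finset.sum_congr rfl fun j _ => ?_
      rw [map_mul, eval_C, grad]
    rw [this, Matrix.det_one]
  set v : ι → Fin N → MvPolynomial (Fin N) ℂ := fun k j =>
    if h : k ∈ l.toFinset then ∑ k', M.adjugate ⟨k, h⟩ k' * C (V k' j) else 0 with hv
  have hvd : ∀ k ∈ l, ∀ m ∈ l, ∑ j, v k j * grad (F m) j = if k = m then c else 0 := by
    intro k hk m hm
    have hk' := List.mem_toFinset.2 hk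
    have hm' := List.mem_toFinset.2 hm
    have h6 := congrFun (congrFun (Matrix.adjugate_mul M) ⟨k, hk'⟩) ⟨m, hm'⟩
    rw [Matrix.mul_apply, Matrix.smul_apply, Matrix.one_apply] at h6
    have h7 : ∑ j, v k j * grad (F m) j =
        ∑ k', M.adjugate ⟨k, hk'⟩ k' * M k' ⟨m, hm'⟩ := by
      simp only [hv, dif_pos hk', hM, Matrix.of_apply, Finset.mul_sum, Finset.sum_mul]
      rw [Finset.sum_comm]
      refine Finset.sum_congr rfl fun k' _ => Finset.sum_congr rfl fun j _ => ?_
      ring
    rw [h7, h6, ← hc]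
    by_cases hkm : k = m
    · subst hkm
      simp
    · rw [if_neg hkm, if_neg (by simpa using hkm), smul_zero]
  have hmem : c ^ l.length ∈ CC F l := by
    intro l' hl' J hJ ω hω
    have h8 := good F v c J l' (hl.sublist hl'.sublist) (fun k hk m hm => hvd k (hl'.subset hk) m
      (hl'.subset hm)) ω hω
    have h9 : l'.length ≤ l.length := hl'.length_le
    obtain ⟨q, hq⟩ := Nat.exists_eq_add_of_le' h9
    rw [hq, pow_add, mul_smul]
    exact Submodule.smul_mem _ _ h8
  have h10 := hx _ hmem
  rw [map_pow, hcx, one_pow] at h10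
  exact one_ne_zero h10

/-- the completed sequence -/
noncomputable def seq (F : ι → MvPolynomial (Fin N) ℂ) (l : List ι)
    (G : ℕ → MvPolynomial (Fin N) ℂ) (M : ℕ) (i : ℕ) : MvPolynomial (Fin N) ℂ :=
  if h : i < l.length then F (l[i]) else G (i - l.length) ^ M

theorem seq_reg (F : ι → MvPolynomial (Fin N) ℂ) (e : ι → ℕ) (hF : ∀ k, (F k).IsHomogeneous (e k))
    (he : ∀ k, 0 < e k) (l : List ι) (hl : l.length ≤ N) (G : ℕ → MvPolynomial (Fin N) ℂ)
    (hG : ∀ i, (G i).IsHomogeneous 1) (hz : ∀ x : Fin N → ℂ, (∀ k ∈ l, eval x (F k) = 0) →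
      (∀ i < N - l.length, eval x (G i) = 0) → x = 0) (M : ℕ) (hM : 0 < M) :
    RegPart fun i : Fin N => seq F l G M i := by
  refine reg_of_zero _ (fun i => if h : i.val < l.length then e (l[i.val]) else 1 * M)
    (fun i => ?_) (fun i => ?_) (fun x hx => ?_)
  · rw [seq]
    split_ifs with h
    · exact hF _
    · exact (hG _).pow M
  · split_ifs with h
    · exact he _
    · rwa [one_mul]
  · refine hz x (fun k hk => ?_) (fun i hi => ?_)
    · obtain ⟨i, hi, rfl⟩ := List.getElem_of_mem hk
      have := hx ⟨i, by omega⟩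
      rwa [seq, dif_pos hi] at this
    · have := hx ⟨i + l.length, by omega⟩
      rw [seq, dif_neg (by simp), Nat.add_sub_cancel, map_pow] at this
      exact pow_eq_zero_iff (by omega) |>.1 this

/-- **The division lemma.** -/
theorem division (F : ι → MvPolynomial (Fin N) ℂ) (e : ι → ℕ) (hF : ∀ k, (F k).IsHomogeneous (e k))
    (he : ∀ k, 0 < e k) (hS : SNC F) (hC : Comp F) (l : List ι) (hl : l.Nodup)
    (hlN : l.length ≤ N) (p : ℤ) (hp : p < (N : ℤ) - l.length)
    (ω : Om (Fin N) (MvPolynomial (Fin N) ℂ)) (hω : pr p ω = ω)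
    (hW : WW (TT F) l ω ∈ cf (FI F l)) : ω ∈ IM (TT F) l ⊔ cf (FI F l) := by
  classical
  rcases lt_or_ge p 0 with hp0 | hp0
  · rw [← hω, pr_neg p hp0]
    exact Submodule.zero_mem _
  obtain ⟨G, hG, hz⟩ := hC l hl hlN
  have h1 : ∀ i, ∃ M, G i ^ M ∈ CC F l := by
    intro i
    refine pow_mem_of_zero (CC F l) (fun x hx => CC_zero F hS l hl x hx) (G i) ?_
    by_contra h0
    have h2 : coeff 0 (G i) ≠ 0 := by rwa [← constantCoeff_eq, ← eval_zero]
    have h3 := hG i h2
    rw [map_zero] at h3
    exact zero_ne_one h3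
  choose M hM using h1
  set MM := 1 + ∑ i ∈ Finset.range N, M i with hMM
  have hGM : ∀ i < N, G i ^ MM ∈ CC F l := by
    intro i hi
    have h2 : M i ≤ ∑ i ∈ Finset.range N, M i :=
      Finset.single_le_sum (fun _ _ => Nat.zero_le _) (Finset.mem_range.2 hi)
    obtain ⟨k, hk⟩ := Nat.exists_eq_add_of_le h2
    rw [hMM, hk, show 1 + (M i + k) = M i + (1 + k) by ring, pow_add]
    exact Ideal.mul_mem_right _ _ (hM i)
  have hreg := seq_reg F e hF he l hlN G hG hz MM (by omega)
  set J : ℕ → Ideal (MvPolynomial (Fin N) ℂ) := fun j =>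
    Ideal.span ((fun i : Fin N => seq F l G MM i) '' {i | i.val < l.length + j}) with hJ
  have hJ0 : J 0 = FI F l := by
    rw [hJ, FI]
    apply le_antisymm
    · rw [Ideal.span_le]
      rintro _ ⟨i, hi, rfl⟩
      have hi' : i.val < l.length := by simpa using hi
      simp only [seq, dif_pos hi']
      exact Ideal.subset_span ⟨_, List.getElem_mem hi', rfl⟩
    · rw [Ideal.span_le]
      rintro _ ⟨k, hk, rfl⟩
      obtain ⟨i, hi, rfl⟩ := List.getElem_of_mem hk
      refine Ideal.subset_span ⟨⟨i, by omega⟩, by simpa using hi, ?_⟩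
      simp only [seq, dif_pos hi]
  have hJle : ∀ j, J j ≤ J (j + 1) := by
    intro j
    refine Ideal.span_mono (Set.image_mono ?_)
    intro i hi
    have : i.val < l.length + j := hi
    show i.val < l.length + (j + 1)
    omega
  have hFJ : ∀ j, FI F l ≤ J j := by
    intro j
    induction j with
    | zero => exact hJ0.ge
    | succ j ih => exact ih.trans (hJle j)
  set a : ℕ → MvPolynomial (Fin N) ℂ := fun j =>
    if j < N - l.length then G j ^ MM else 0 with ha
  have haseq : ∀ j, ∀ h : j < N - l.length,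
      a j = (fun i : Fin N => seq F l G MM i) ⟨l.length + j, by omega⟩ := by
    intro j h
    simp only [ha, if_pos h, seq]
    rw [dif_neg (by omega), Nat.add_sub_cancel_left]
  have haJ : ∀ j, a j ∈ J (j + 1) := by
    intro j
    by_cases h : j < N - l.length
    · rw [haseq j h]
      exact Ideal.subset_span ⟨_, by show l.length + j < l.length + (j + 1); omega, rfl⟩
    · simp only [ha, if_neg h]
      exact Ideal.zero_mem _
  have hstep : ∀ j < N - l.length, J (j + 1) ≤ J j ⊔ Ideal.span {a j} := by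
    intro j hj
    rw [hJ]
    simp only
    rw [Ideal.span_le]
    rintro _ ⟨i, hi, rfl⟩
    have hi' : i.val < l.length + (j + 1) := hi
    rcases lt_or_ge i.val (l.length + j) with h | h
    · exact Submodule.mem_sup_left (Ideal.subset_span ⟨i, h, rfl⟩)
    · refine Submodule.mem_sup_right (Ideal.subset_span ?_)
      rw [Set.mem_singleton_iff, haseq j hj]
      congr 1
      exact Fin.ext (by simp only; omega)
  have key := saito (TT F) (TT_anti F) (TT_self F) (fun p => pr p)
    (fun p k x => pr_ee p _ x) (fun p x => pr_pr p x) (fun p hp x => pr_neg p hp x)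
    (N - l.length) (fun j => cf (J j)) a (fun j k x hx => ee_cf _ hx) (fun j p x hx => pr_cf p hx)
    (fun j x hx S => hJle j (hx S)) (fun j x S => by
      rw [Pi.smul_apply, smul_eq_mul]
      exact Ideal.mul_mem_right _ _ (haJ j))
    (fun j hj x hx => by
      have h4 : ∀ S, ∃ y, x S - a j * y ∈ J j := by
        intro S
        obtain ⟨u, hu, v, hv, huv⟩ := Submodule.mem_sup.1 (hstep j hj (hx S))
        obtain ⟨q, rfl⟩ := Ideal.mem_span_singleton'.1 hv
        exact ⟨q, by rw [← huv, mul_comm q, add_sub_cancel_right]; exact hu⟩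
      choose y hy using h4
      exact ⟨y, fun S => hy S⟩)
    (fun j hj x hx S => by
      have h5 := hx S
      rw [Pi.smul_apply, smul_eq_mul, haseq j hj, mul_comm] at h5
      exact hreg ⟨l.length + j, by omega⟩ (x S) h5)
    l (by
      intro l' hl' j hj x hx
      have h6 : a j ∈ CC F l := by
        simp only [ha, if_pos hj]
        exact hGM j (by omega)
      exact h6 l' hl' (J j) (hFJ j) x hx)
    (p.toNat + 1) p (by push_cast; omega) 0 (by push_cast; omega) ω hω (by
      simp only [hJ0]
      exact hW)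
  simp only [hJ0] at key
  exact key

/-- a form of the system is a nonzerodivisor modulo others -/
theorem nzd (F : ι → MvPolynomial (Fin N) ℂ) (e : ι → ℕ) (hF : ∀ k, (F k).IsHomogeneous (e k))
    (he : ∀ k, 0 < e k) (hC : Comp F) (l : List ι) (b : ι) (hl : (b :: l).Nodup)
    (hlN : l.length + 1 ≤ N) (p : MvPolynomial (Fin N) ℂ) (h : F b * p ∈ FI F l) :
    p ∈ FI F l := by
  have hl2 : (l ++ [b]).Nodup := by
    rw [List.nodup_cons] at hl
    rw [List.nodup_append]
    refine ⟨hl.2, List.nodup_singleton b, ?_⟩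
    intro x hx y hy hxy
    rw [List.mem_singleton] at hy
    subst hxy
    subst hy
    exact hl.1 hx
  obtain ⟨G, hG, hz⟩ := hC (l ++ [b]) hl2 (by simpa using hlN)
  have hreg := seq_reg F e hF he (l ++ [b]) (by simpa using hlN) G hG hz 1 one_pos
  have h1 : Ideal.span ((fun i : Fin N => seq F (l ++ [b]) G 1 i) ''
      {j | j < (⟨l.length, by omega⟩ : Fin N)}) = FI F l := by
    rw [FI]
    apply le_antisymm
    · rw [Ideal.span_le]
      rintro _ ⟨i, hi, rfl⟩
      have hi' : i.val < l.length := hi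
      simp only [seq]
      rw [dif_pos (by rw [List.length_append]; omega), List.getElem_append_left hi']
      exact Ideal.subset_span ⟨_, List.getElem_mem hi', rfl⟩
    · rw [Ideal.span_le]
      rintro _ ⟨k, hk, rfl⟩
      obtain ⟨i, hi, rfl⟩ := List.getElem_of_mem hk
      refine Ideal.subset_span ⟨⟨i, by omega⟩, hi, ?_⟩
      simp only [seq]
      rw [dif_pos (by rw [List.length_append]; omega), List.getElem_append_left hi]
  have h2 := hreg ⟨l.length, by omega⟩ p
  rw [h1] at h2
  apply h2
  simp only [seq]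
  rw [dif_pos (by rw [List.length_append]; simp), List.getElem_append_right (le_refl _)]
  simp only [Nat.sub_self, List.getElem_cons_zero]
  rwa [mul_comm]

end Pool.Agent.Helper48.SN
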