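import Mathlib

set_option autoImplicit false
set_option linter.unusedSectionVars false

/-! # Differential forms with polynomial coefficients

A form is given by its coefficients, `Finset σ → R`, where `R` is the ring of coefficients. -/

namespace Pool.Agent.Helper48.SN

open Finset

section CAR

variable {σ : Type} [Fintype σ] [LinearOrder σ] {R : Type} [CommRing R]

/-- the forms -/
abbrev Om (σ R : Type) : Type := Finset σ → R

/-- the sign of `i` in `S` -/
def sg (i : σ) (S : Finset σ) : ℤ := (-1) ^ (S.filter (· < i)).card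

omit [Fintype σ] in
theorem sg_sq (i : σ) (S : Finset σ) : sg i S * sg i S = 1 := by
  rw [sg, ← mul_pow]
  norm_num

omit [Fintype σ] in
theorem sg_insert (i j : σ) (S : Finset σ) (h : i ∉ S) :
    sg j (insert i S) = if i < j then - sg j S else sg j S := by
  unfold sg
  rw [Finset.filter_insert]
  split_ifs with h1
  · rw [Finset.card_insert_of_notMem (by simp [h]), pow_succ]
    ring
  · rfl

omit [Fintype σ] in
theorem sg_erase (i j : σ) (S : Finset σ) (h : i ∈ S) :
    sg j (S.erase i) = if i < j then - sg j S else sg j S := by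
  have h1 := sg_insert i j (S.erase i) (Finset.notMem_erase i S)
  rw [Finset.insert_erase h] at h1
  rw [h1]
  split_ifs
  · rw [neg_neg]
  · rfl

/-- `dx_i ∧ ω` -/
def ex (i : σ) : Om σ R →ₗ[R] Om σ R where
  toFun ω S := if i ∈ S then sg i S • ω (S.erase i) else 0
  map_add' ω η := by
    funext S
    simp only [Pi.add_apply]
    split_ifs
    · rw [smul_add]
    · rw [add_zero]
  map_smul' c ω := by
    funext S
    simp only [Pi.smul_apply, RingHom.id_apply]
    split_ifs
    · rw [smul_comm]
    · rw [smul_zero]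

/-- the contraction with `∂_i` -/
def ct (i : σ) : Om σ R →ₗ[R] Om σ R where
  toFun ω S := if i ∈ S then 0 else sg i S • ω (insert i S)
  map_add' ω η := by
    funext S
    simp only [Pi.add_apply]
    split_ifs
    · rw [add_zero]
    · rw [smul_add]
  map_smul' c ω := by
    funext S
    simp only [Pi.smul_apply, RingHom.id_apply]
    split_ifs
    · rw [smul_zero]
    · rw [smul_comm]

theorem ex_apply (i : σ) (ω : Om σ R) (S : Finset σ) :
    ex i ω S = if i ∈ S then sg i S • ω (S.erase i) else 0 := rfl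

theorem ct_apply (i : σ) (ω : Om σ R) (S : Finset σ) :
    ct i ω S = if i ∈ S then 0 else sg i S • ω (insert i S) := rfl

theorem ex_ex_self (i : σ) (ω : Om σ R) : ex i (ex i ω) = 0 := by
  funext S
  rw [ex_apply, ex_apply]
  simp

theorem ex_ex (i j : σ) (ω : Om σ R) : ex i (ex j ω) = - ex j (ex i ω) := by
  rcases eq_or_ne i j with rfl | hij
  · rw [ex_ex_self, neg_zero]
  funext S
  rw [Pi.neg_apply, ex_apply, ex_apply, ex_apply, ex_apply]
  by_cases hi : i ∈ S
  · by_cases hj : j ∈ S
    · rw [if_pos hi, if_pos hj, if_pos (Finset.mem_erase.2 ⟨hij.symm, hj⟩),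
        if_pos (Finset.mem_erase.2 ⟨hij, hi⟩), Finset.erase_right_comm, sg_erase i j S hi,
        sg_erase j i S hj]
      rcases lt_or_gt_of_ne hij with h | h
      · rw [if_pos h, if_neg (not_lt.2 h.le)]
        simp only [smul_smul, neg_smul, smul_neg]
        rw [mul_comm]
      · rw [if_neg (not_lt.2 h.le), if_pos h]
        simp only [smul_smul, neg_smul, smul_neg, neg_neg]
        rw [mul_comm]
    · rw [if_pos hi, if_neg hj, if_neg (fun h => hj (Finset.mem_of_mem_erase h)), smul_zero,
        neg_zero]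
  · rw [if_neg hi]
    by_cases hj : j ∈ S
    · rw [if_pos hj, if_neg (fun h => hi (Finset.mem_of_mem_erase h)), smul_zero, neg_zero]
    · rw [if_neg hj, neg_zero]

theorem ct_ct_self (i : σ) (ω : Om σ R) : ct i (ct i ω) = 0 := by
  funext S
  rw [ct_apply, ct_apply]
  simp

theorem ct_ct (i j : σ) (ω : Om σ R) : ct i (ct j ω) = - ct j (ct i ω) := by
  rcases eq_or_ne i j with rfl | hij
  · rw [ct_ct_self, neg_zero]
  funext S
  rw [Pi.neg_apply, ct_apply, ct_apply, ct_apply, ct_apply]
  by_cases hi : i ∈ S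
  · rw [if_pos hi]
    by_cases hj : j ∈ S
    · rw [if_pos hj, neg_zero]
    · rw [if_neg hj, if_pos (Finset.mem_insert_of_mem hi), smul_zero, neg_zero]
  · rw [if_neg hi]
    by_cases hj : j ∈ S
    · rw [if_pos hj, if_pos (Finset.mem_insert_of_mem hj), smul_zero, neg_zero]
    · rw [if_neg hj, if_neg (by simp [hij.symm, hj]), if_neg (by simp [hij, hi]),
        Finset.insert_comm, sg_insert i j S hi, sg_insert j i S hj]
      rcases lt_or_gt_of_ne hij with h | h
      · rw [if_pos h, if_neg (not_lt.2 h.le)]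
        simp only [smul_smul, neg_smul, smul_neg]
        rw [mul_comm]
      · rw [if_neg (not_lt.2 h.le), if_pos h]
        simp only [smul_smul, neg_smul, smul_neg, neg_neg]
        rw [mul_comm]

theorem ex_ct_self (i : σ) (ω : Om σ R) : ex i (ct i ω) + ct i (ex i ω) = ω := by
  funext S
  rw [Pi.add_apply, ex_apply, ct_apply, ct_apply, ex_apply]
  by_cases hi : i ∈ S
  · rw [if_pos hi, if_pos hi, if_neg (Finset.notMem_erase i S), add_zero, Finset.insert_erase hi,
      sg_erase i i S hi, if_neg (lt_irrefl i), smul_smul, sg_sq, one_smul]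
  · rw [if_neg hi, if_neg hi, if_pos (Finset.mem_insert_self i S), zero_add,
      Finset.erase_insert hi, sg_insert i i S hi, if_neg (lt_irrefl i), smul_smul, sg_sq, one_smul]

theorem ex_ct (i j : σ) (hij : i ≠ j) (ω : Om σ R) : ex i (ct j ω) = - ct j (ex i ω) := by
  funext S
  rw [Pi.neg_apply, ex_apply, ct_apply, ct_apply, ex_apply]
  by_cases hi : i ∈ S
  · rw [if_pos hi]
    by_cases hj : j ∈ S
    · rw [if_pos hj, if_pos (Finset.mem_erase.2 ⟨hij.symm, hj⟩), smul_zero, neg_zero]
    · rw [if_neg hj, if_neg (fun h => hj (Finset.mem_of_mem_erase h)),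
        if_pos (Finset.mem_insert_of_mem hi), sg_erase i j S hi, sg_insert j i S hj,
        Finset.erase_insert_of_ne hij.symm]
      rcases lt_or_gt_of_ne hij with h | h
      · rw [if_pos h, if_neg (not_lt.2 h.le)]
        simp only [smul_smul, neg_smul, smul_neg]
        rw [mul_comm]
      · rw [if_neg (not_lt.2 h.le), if_pos h]
        simp only [smul_smul, neg_smul, smul_neg, neg_neg]
        rw [mul_comm]
  · rw [if_neg hi]
    by_cases hj : j ∈ S
    · rw [if_pos hj, neg_zero]
    · rw [if_neg hj, if_neg (by simp [hij, hi]), smul_zero, neg_zero]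

/-- `w ∧ ω` for the one-form `w = ∑ w_i dx_i` -/
noncomputable def ee (w : σ → R) : Om σ R →ₗ[R] Om σ R := ∑ i, w i • ex i

/-- the contraction with the vector field `∑ v_i ∂_i` -/
noncomputable def ii (v : σ → R) : Om σ R →ₗ[R] Om σ R := ∑ i, v i • ct i

theorem ee_apply (w : σ → R) (ω : Om σ R) : ee w ω = ∑ i, w i • ex i ω := by
  simp [ee, LinearMap.sum_apply]

theorem ii_apply (v : σ → R) (ω : Om σ R) : ii v ω = ∑ i, v i • ct i ω := by
  simp [ii, LinearMap.sum_apply]

theorem ee_ee (w u : σ → R) (ω : Om σ R) : ee w (ee u ω) = - ee u (ee w ω) := by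
  simp only [ee_apply, map_sum, map_smul, Finset.smul_sum]
  rw [Finset.sum_comm, ← Finset.sum_neg_distrib]
  refine Finset.sum_congr rfl fun j _ => ?_
  rw [← Finset.sum_neg_distrib]
  refine Finset.sum_congr rfl fun i _ => ?_
  rw [ex_ex i j, smul_neg, smul_neg, smul_comm, neg_neg]

theorem ii_ii (w u : σ → R) (ω : Om σ R) : ii w (ii u ω) = - ii u (ii w ω) := by
  simp only [ii_apply, map_sum, map_smul, Finset.smul_sum]
  rw [Finset.sum_comm, ← Finset.sum_neg_distrib]
  refine Finset.sum_congr rfl fun j _ => ?_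
  rw [← Finset.sum_neg_distrib]
  refine Finset.sum_congr rfl fun i _ => ?_
  rw [ct_ct i j, smul_neg, smul_neg, smul_comm, neg_neg]

/-- an antisymmetric double sum -/
theorem anti_sum {M : Type} [AddCommGroup M] (g : σ → σ → M) (h0 : ∀ i, g i i = 0)
    (h : ∀ i j, g i j = - g j i) : ∑ i, ∑ j, g i j = 0 := by
  rw [← Finset.sum_product' Finset.univ Finset.univ (fun i j => g i j)]
  refine Finset.sum_involution (fun p _ => (p.2, p.1)) ?_ ?_ ?_ ?_
  · rintro ⟨i, j⟩ _
    simp only
    rw [h i j, neg_add_cancel]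
  · rintro ⟨i, j⟩ _ hne heq
    simp only [Prod.mk.injEq] at heq
    apply hne
    simp only
    rw [heq.1, h0]
  · intros; simp
  · rintro ⟨i, j⟩ _; rfl

theorem ee_self (w : σ → R) (ω : Om σ R) : ee w (ee w ω) = 0 := by
  simp only [ee_apply, map_sum, map_smul, Finset.smul_sum]
  refine anti_sum (fun i j => w i • w j • ex j (ex i ω)) (fun i => ?_) (fun i j => ?_)
  · simp only [ex_ex_self, smul_zero]
  · rw [ex_ex j i, smul_neg, smul_neg, smul_comm]

theorem ii_self (w : σ → R) (ω : Om σ R) : ii w (ii w ω) = 0 := by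
  simp only [ii_apply, map_sum, map_smul, Finset.smul_sum]
  refine anti_sum (fun i j => w i • w j • ct j (ct i ω)) (fun i => ?_) (fun i j => ?_)
  · simp only [ct_ct_self, smul_zero]
  · rw [ct_ct j i, smul_neg, smul_neg, smul_comm]

theorem ii_ee (v w : σ → R) (ω : Om σ R) :
    ii v (ee w ω) = (∑ i, v i * w i) • ω - ee w (ii v ω) := by
  have h : ∀ i j, v i • w j • ct i (ex j ω) + w j • v i • ex j (ct i ω) =
      if i = j then (v i * w i) • ω else 0 := by
    intro i j
    rw [smul_comm (w j), ← smul_add, ← smul_add]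
    split_ifs with hij
    · subst hij
      rw [add_comm, ex_ct_self, smul_smul]
    · rw [ex_ct j i (Ne.symm hij), add_neg_cancel, smul_zero, smul_zero]
  rw [eq_sub_iff_add_eq]
  simp only [ee_apply, ii_apply, map_sum, map_smul, Finset.smul_sum]
  rw [Finset.sum_comm (f := fun x y => w x • v y • ct y (ex x ω)), ← Finset.sum_add_distrib,
    Finset.sum_smul]
  refine Finset.sum_congr rfl fun i _ => ?_
  rw [← Finset.sum_add_distrib]
  have h' : ∀ j, w j • v i • ct i (ex j ω) + v i • w j • ex j (ct i ω) =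
      if i = j then (v i * w i) • ω else 0 := by
    intro j
    rw [← h i j, smul_comm (w j) (v i) (ct i (ex j ω)), smul_comm (v i) (w j) (ex j (ct i ω))]
  simp only [h']
  rw [Finset.sum_ite_eq, if_pos (Finset.mem_univ i)]

/-- the part of form degree `p` -/
def pr (p : ℤ) : Om σ R →ₗ[R] Om σ R where
  toFun ω S := if (S.card : ℤ) = p then ω S else 0
  map_add' ω η := by
    funext S
    simp only [Pi.add_apply]
    split_ifs
    · rfl
    · rw [add_zero]
  map_smul' c ω := by
    funext S
    simp only [Pi.smul_apply, RingHom.id_apply]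
    split_ifs
    · rfl
    · rw [smul_zero]

theorem pr_apply (p : ℤ) (ω : Om σ R) (S : Finset σ) :
    pr p ω S = if (S.card : ℤ) = p then ω S else 0 := rfl

theorem pr_pr (p : ℤ) (ω : Om σ R) : pr p (pr p ω) = pr p ω := by
  funext S
  simp only [pr_apply]
  split_ifs <;> rfl

theorem pr_neg (p : ℤ) (hp : p < 0) (ω : Om σ R) : pr p ω = 0 := by
  funext S
  rw [pr_apply, if_neg (by omega), Pi.zero_apply]

theorem pr_ex (p : ℤ) (i : σ) (ω : Om σ R) : pr (p + 1) (ex i ω) = ex i (pr p ω) := by
  funext S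
  rw [pr_apply, ex_apply, ex_apply, pr_apply]
  by_cases hi : i ∈ S
  · rw [if_pos hi, if_pos hi, Finset.card_erase_of_mem hi]
    have h1 : 0 < S.card := Finset.card_pos.2 ⟨i, hi⟩
    by_cases h : (S.card : ℤ) = p + 1
    · rw [if_pos h, if_pos (by omega)]
    · rw [if_neg h, if_neg (by omega), smul_zero]
  · rw [if_neg hi, if_neg hi, ite_self]

theorem pr_ct (p : ℤ) (i : σ) (ω : Om σ R) : pr p (ct i ω) = ct i (pr (p + 1) ω) := by
  funext S
  rw [pr_apply, ct_apply, ct_apply, pr_apply]
  by_cases hi : i ∈ S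
  · rw [if_pos hi, if_pos hi, ite_self]
  · rw [if_neg hi, if_neg hi, Finset.card_insert_of_notMem hi]
    by_cases h : (S.card : ℤ) = p
    · rw [if_pos h, if_pos (by push_cast; omega)]
    · rw [if_neg h, if_neg (by push_cast; omega), smul_zero]

theorem pr_ee (p : ℤ) (w : σ → R) (ω : Om σ R) : pr (p + 1) (ee w ω) = ee w (pr p ω) := by
  rw [ee_apply, ee_apply, map_sum]
  exact Finset.sum_congr rfl fun i _ => by rw [map_smul, pr_ex]

theorem pr_ii (p : ℤ) (w : σ → R) (ω : Om σ R) : pr p (ii w ω) = ii w (pr (p + 1) ω) := by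
  rw [ii_apply, ii_apply, map_sum]
  exact Finset.sum_congr rfl fun i _ => by rw [map_smul, pr_ct]

end CAR

end Pool.Agent.Helper48.SN
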