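import Pool.Agent.Helper48.SN.Pole

set_option autoImplicit false
set_option linter.unusedSectionVars false

/-! # The starting equation -/

namespace Pool.Agent.Helper48.SN

open Finset MvPolynomial Pool.Agent.H119.LSS

section

variable {σ : Type} [Fintype σ] [LinearOrder σ]

theorem cartan (ω : Om σ (MvPolynomial σ ℂ)) :
    dd (ii (fun i => X i) ω) + ii (fun i => X i) (dd ω) =
      ∑ i, ex i (ct i ω) + ∑ i, (X i : MvPolynomial σ ℂ) • pd i ω := by
  classical
  have h1 : dd (ii (fun i => X i) ω) =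
      ∑ i, (ex i (ct i ω) + ∑ j, (X j : MvPolynomial σ ℂ) • ex i (ct j (pd i ω))) := by
    rw [dd_apply]
    refine Finset.sum_congr rfl fun i _ => ?_
    rw [ii_apply, map_sum]
    have h2 : ∀ j, pd i ((X j : MvPolynomial σ ℂ) • ct j ω) =
        (if j = i then ct i ω else 0) + (X j : MvPolynomial σ ℂ) • ct j (pd i ω) := by
      intro j
      rw [pd_smul, pd_ct, pderiv_X]
      congr 1
      split_ifs with h
      · subst h
        rw [Pi.single_eq_same, one_smul]
      · rw [Pi.single_eq_of_ne h, zero_smul]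
    rw [Finset.sum_congr rfl fun j _ => h2 j, Finset.sum_add_distrib, Finset.sum_ite_eq' univ i,
      if_pos (Finset.mem_univ i), map_add, map_sum]
    congr 1
    exact Finset.sum_congr rfl fun j _ => by rw [map_smul]
  have h3 : ii (fun i => X i) (dd ω) =
      ∑ i, ∑ j, (X j : MvPolynomial σ ℂ) • ct j (ex i (pd i ω)) := by
    rw [dd_apply, map_sum]
    exact Finset.sum_congr rfl fun i _ => by rw [ii_apply]
  rw [h1, h3, Finset.sum_add_distrib, add_assoc, ← Finset.sum_add_distrib]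
  congr 1
  refine Finset.sum_congr rfl fun i _ => ?_
  rw [← Finset.sum_add_distrib, Finset.sum_eq_single i]
  · rw [← smul_add, ex_ct_self]
  · intro j _ hj
    rw [← smul_add, ex_ct i j (Ne.symm hj), neg_add_cancel, smul_zero]
  · intro h
    exact absurd (Finset.mem_univ i) h

theorem sum_ex_ct {R : Type} [CommRing R] (ω : Om σ R) (S : Finset σ) :
    (∑ i, ex i (ct i ω)) S = (S.card : R) * ω S := by
  rw [Finset.sum_apply]
  have h1 : ∀ i, ex i (ct i ω) S = if i ∈ S then ω S else 0 := by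
    intro i
    rw [ex_apply]
    split_ifs with h
    · rw [ct_apply, if_neg (Finset.notMem_erase i S), Finset.insert_erase h, sg_erase i i S h,
        if_neg (lt_irrefl i), smul_smul, sg_sq, one_smul]
    · rfl
  rw [Finset.sum_congr rfl fun i _ => h1 i, Finset.sum_ite_mem, Finset.univ_inter,
    Finset.sum_const, nsmul_eq_mul]

/-- the Lie derivative of a form of degree `p` with coefficients of degree `q` -/
theorem euler_form (ω : Om σ (MvPolynomial σ ℂ)) (p q : ℕ) (hp : pr (p : ℤ) ω = ω)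
    (hq : ∀ S, (ω S).IsHomogeneous q) :
    dd (ii (fun i => X i) ω) + ii (fun i => X i) (dd ω) = ((p + q : ℕ) : ℂ) • ω := by
  rw [cartan]
  funext S
  rw [Pi.add_apply, sum_ex_ct, Finset.sum_apply, Pi.smul_apply]
  have h1 : ∑ i, ((X i : MvPolynomial σ ℂ) • pd i ω) S = q • ω S := by
    rw [← (hq S).sum_X_mul_pderiv]
    rfl
  rw [h1]
  by_cases hS : (S.card : ℤ) = p
  · have h2 : S.card = p := by exact_mod_cast hS
    rw [h2, nsmul_eq_mul, ← add_mul, Algebra.smul_def, map_natCast]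
    push_cast
    rfl
  · have h2 : ω S = 0 := by rw [← hp, pr_apply, if_neg hS]
    rw [h2]
    simp

theorem ii_vol_hom (v : σ → MvPolynomial σ ℂ) (q : ℕ) (hv : ∀ i, (v i).IsHomogeneous q)
    (S : Finset σ) : (ii v (vol : Om σ (MvPolynomial σ ℂ)) S).IsHomogeneous q := by
  rw [ii_apply, Finset.sum_apply]
  refine IsHomogeneous.sum _ _ _ fun i _ => ?_
  rw [Pi.smul_apply, ct_apply, smul_eq_mul]
  split_ifs with h
  · rw [mul_zero]
    exact isHomogeneous_zero _ _ _
  · rw [vol]
    split_ifs with h2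
    · have h3 : (sg i S • (1 : MvPolynomial σ ℂ)) = C ((sg i S : ℤ) : ℂ) := by
        rw [zsmul_eq_mul, mul_one, map_intCast]
      rw [h3]
      have h4 := (hv i).mul (isHomogeneous_C σ ((sg i S : ℤ) : ℂ))
      rwa [add_zero] at h4
    · rw [smul_zero, mul_zero]
      exact isHomogeneous_zero _ _ _

end

variable {N : ℕ} {ι : Type} [DecidableEq ι] [Fintype ι]

theorem FI_single (F : ι → MvPolynomial (Fin N) ℂ) (i : ι) : FI F [i] = Ideal.span {F i} := by
  rw [FI]
  congr 1
  ext x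
  simp [eq_comm]

theorem copr (hN : 2 ≤ N) (F : ι → MvPolynomial (Fin N) ℂ) (e : ι → ℕ)
    (hF : ∀ k, (F k).IsHomogeneous (e k)) (he : ∀ k, 0 < e k) (hC : Comp F) (i l : ι)
    (hil : i ≠ l) (a : MvPolynomial (Fin N) ℂ) (h : F i ∣ F l * a) : F i ∣ a := by
  rw [← Ideal.mem_span_singleton, ← FI_single]
  refine nzd F e hF he hC [i] l (by
    rw [List.nodup_cons]
    exact ⟨by simpa using Ne.symm hil, List.nodup_singleton i⟩) (by simpa using hN) a ?_
  rw [FI_single, Ideal.mem_span_singleton]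
  exact h

theorem copr_prod (hN : 2 ≤ N) (F : ι → MvPolynomial (Fin N) ℂ) (e : ι → ℕ)
    (hF : ∀ k, (F k).IsHomogeneous (e k)) (he : ∀ k, 0 < e k) (hC : Comp F) (i : ι)
    (s : Finset ι) (hs : i ∉ s) (a : MvPolynomial (Fin N) ℂ) (h : F i ∣ (∏ l ∈ s, F l) * a) :
    F i ∣ a := by
  induction s using Finset.induction_on generalizing a with
  | empty => simpa using h
  | insert b s hb ih =>
    rw [Finset.prod_insert hb, mul_assoc] at h
    have h1 : i ≠ b := fun h2 => hs (h2 ▸ Finset.mem_insert_self b s)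
    exact ih (fun h2 => hs (Finset.mem_insert_of_mem h2)) a (copr hN F e hF he hC i b h1 _ h)

/-- the derivative of a product of powers along a vector field -/
theorem deriv_prod (D : Derivation ℂ (MvPolynomial (Fin N) ℂ) (MvPolynomial (Fin N) ℂ))
    (F : ι → MvPolynomial (Fin N) ℂ) (n : ι → ℕ) (hn : ∀ i, 1 ≤ n i) (s : Finset ι) :
    D (∏ i ∈ s, F i ^ n i) =
      (∏ i ∈ s, F i ^ (n i - 1)) * ∑ i ∈ s, (n i : MvPolynomial (Fin N) ℂ) * (D (F i) *
        ∏ l ∈ s.erase i, F l) := by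
  induction s using Finset.induction_on with
  | empty => simp
  | insert b s hb ih =>
    have h2 : ∀ i ∈ s, (insert b s).erase i = insert b (s.erase i) := by
      intro i hi
      ext x
      simp only [Finset.mem_erase, Finset.mem_insert]
      constructor
      · rintro ⟨h3, h4⟩
        rcases h4 with h4 | h4
        · exact Or.inl h4
        · exact Or.inr ⟨h3, h4⟩
      · rintro (h3 | ⟨h3, h4⟩)
        · subst h3
          refine ⟨?_, Or.inl rfl⟩
          rintro rfl
          exact hb hi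
        · exact ⟨h3, Or.inr h4⟩
    have h3 : ∀ i ∈ s, ∏ l ∈ (insert b s).erase i, F l = F b * ∏ l ∈ s.erase i, F l := by
      intro i hi
      rw [h2 i hi, Finset.prod_insert (fun h => hb (Finset.mem_of_mem_erase h))]
    obtain ⟨m, hm⟩ := Nat.exists_eq_add_of_le' (hn b)
    have h4 : (∏ i ∈ s, F i ^ n i) = (∏ i ∈ s, F i ^ (n i - 1)) * ∏ i ∈ s, F i := by
      rw [← Finset.prod_mul_distrib]
      refine Finset.prod_congr rfl fun i _ => ?_
      rw [← pow_succ, Nat.sub_add_cancel (hn i)]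
    have h5 : ∑ x ∈ s, ((n x : ℕ) : MvPolynomial (Fin N) ℂ) * (D (F x) *
        ∏ l ∈ (insert b s).erase x, F l)
        = F b * ∑ x ∈ s, ((n x : ℕ) : MvPolynomial (Fin N) ℂ) * (D (F x) * ∏ l ∈ s.erase x, F l) := by
      rw [Finset.mul_sum]
      refine Finset.sum_congr rfl fun x hx => ?_
      rw [h3 x hx]
      ring
    rw [Finset.prod_insert hb, Finset.prod_insert hb, Finset.sum_insert hb, D.leibniz,
      Finset.erase_insert hb, ih, h5, h4, Derivation.leibniz_pow, hm, Nat.add_sub_cancel]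
    simp only [smul_eq_mul, nsmul_eq_mul]
    ring

theorem init_PP (hN : 2 ≤ N) (F : ι → MvPolynomial (Fin N) ℂ) (e : ι → ℕ)
    (hF : ∀ k, (F k).IsHomogeneous (e k)) (he : ∀ k, 0 < e k) (hS : SNC F) (hC : Comp F)
    (n : ι → ℕ) (hn : ∀ i, 1 ≤ n i) (d : ℕ) (hd : d = ∑ i, n i * e i) (hd0 : 0 < d) (k : ℕ)
    (Θ : Fin N → MvPolynomial (Fin N) ℂ) (hΘ : ∀ i, (Θ i).IsHomogeneous (d * k + 1))
    (h1 : ∑ i, Θ i * pderiv i (∏ i, F i ^ n i) = 0)
    (h2 : ∑ i, pderiv i (Θ i) = (∏ i, F i ^ n i) ^ k) :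
    PP F (fun i => (N : ℂ) * n i / d) (fun i => n i * k) := by
  have hne : ∀ k, F k ≠ 0 := F_ne (by omega) F hS
  set D : Derivation ℂ (MvPolynomial (Fin N) ℂ) (MvPolynomial (Fin N) ℂ) :=
    ∑ i, Θ i • pderiv i with hD
  have hDa : ∀ p, D p = ∑ i, Θ i * pderiv i p := by
    intro p
    have h := map_sum (Derivation.coeFnAddMonoidHom (R := ℂ) (A := MvPolynomial (Fin N) ℂ)
      (M := MvPolynomial (Fin N) ℂ)) (fun i => Θ i • pderiv i) Finset.univ
    have h' := congrFun h p
    rw [Finset.sum_apply] at h'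
    exact h'
  have h3 := deriv_prod D F n hn Finset.univ
  rw [hDa, h1] at h3
  have h4 : ∑ i, ((n i : ℕ) : MvPolynomial (Fin N) ℂ) * (D (F i) * ∏ l ∈ Finset.univ.erase i, F l)
      = 0 := by
    rcases mul_eq_zero.1 h3.symm with h5 | h5
    · rw [Finset.prod_eq_zero_iff] at h5
      obtain ⟨i, _, hi⟩ := h5
      exact absurd (eq_zero_of_pow_eq_zero hi) (hne i)
    · exact h5
  -- divisibility
  have h5 : ∀ i, F i ∣ D (F i) := by
    intro i
    have h6 : F i ∣ (∏ l ∈ Finset.univ.erase i, F l) *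
        (((n i : ℕ) : MvPolynomial (Fin N) ℂ) * D (F i)) := by
      have h7 := h4
      rw [← Finset.add_sum_erase Finset.univ _ (Finset.mem_univ i)] at h7
      have h8 : F i ∣ ∑ x ∈ Finset.univ.erase i, ((n x : ℕ) : MvPolynomial (Fin N) ℂ) *
          (D (F x) * ∏ l ∈ Finset.univ.erase x, F l) := by
        refine Finset.dvd_sum fun x hx => ?_
        refine Dvd.dvd.mul_left (Dvd.dvd.mul_left (Finset.dvd_prod_of_mem _ ?_) _) _
        rw [Finset.mem_erase]
        exact ⟨Ne.symm (Finset.ne_of_mem_erase hx), Finset.mem_univ i⟩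
      have h9 := (Dvd.dvd.neg_right h8)
      rw [← eq_neg_iff_add_eq_zero.2 h7] at h9
      convert h9 using 1
      ring
    have h7 := copr_prod hN F e hF he hC i _ (Finset.notMem_erase i _) _ h6
    obtain ⟨c, hc⟩ := h7
    refine ⟨C ((n i : ℂ)⁻¹) * c, ?_⟩
    have h8 : (n i : ℂ) ≠ 0 := by
      have := hn i
      exact_mod_cast (by omega : n i ≠ 0)
    have h9 : (C ((n i : ℂ)⁻¹) : MvPolynomial (Fin N) ℂ) * ((n i : ℕ) : MvPolynomial (Fin N) ℂ) = 1 := by
      rw [← map_natCast (C : ℂ →+* MvPolynomial (Fin N) ℂ), ← map_mul, inv_mul_cancel₀ h8, map_one]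
    calc D (F i) = (C ((n i : ℂ)⁻¹) * ((n i : ℕ) : MvPolynomial (Fin N) ℂ)) * D (F i) := by
          rw [h9, one_mul]
      _ = C ((n i : ℂ)⁻¹) * (((n i : ℕ) : MvPolynomial (Fin N) ℂ) * D (F i)) := by ring
      _ = _ := by rw [hc]; ring
  choose θ hθ using h5
  have h6 : ∑ i, ((n i : ℕ) : MvPolynomial (Fin N) ℂ) * θ i = 0 := by
    have h7 : (∏ l, F l) * ∑ i, ((n i : ℕ) : MvPolynomial (Fin N) ℂ) * θ i = 0 := by
      rw [← h4, Finset.mul_sum]
      refine Finset.sum_congr rfl fun i _ => ?_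
      rw [hθ i, ← Finset.mul_prod_erase Finset.univ F (Finset.mem_univ i)]
      ring
    rcases mul_eq_zero.1 h7 with h8 | h8
    · rw [Finset.prod_eq_zero_iff] at h8
      obtain ⟨i, _, hi⟩ := h8
      exact absurd hi (hne i)
    · exact h8
  set η := ii Θ (vol : Om (Fin N) (MvPolynomial (Fin N) ℂ)) with hη
  have hηp : pr ((N - 1 : ℕ) : ℤ) η = η := by
    have h7 := pr_ii ((N : ℤ) - 1) Θ (vol : Om (Fin N) (MvPolynomial (Fin N) ℂ))
    have h8 := pr_vol (σ := Fin N)
    rw [Fintype.card_fin] at h8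
    rw [sub_add_cancel, h8] at h7
    rw [Nat.cast_sub (by omega), Nat.cast_one]
    exact h7
  have hηq : ∀ S, (η S).IsHomogeneous (d * k + 1) := ii_vol_hom Θ _ hΘ
  have hdη : dd η = (∏ i, F i ^ n i) ^ k • vol := by
    rw [hη, dd_ii_vol, h2]
  have h7 := euler_form η (N - 1) (d * k + 1) hηp hηq
  rw [hdη, map_smul] at h7
  refine PP_of F _ _ (ii (fun i => X i) η) (fun i => ((e i : ℕ) : ℂ) • η - θ i • Om0 N)
    (fun i => ?_) ?_
  · change ee (grad (F i)) _ = _
    have h8 := ii_ee (fun i => X i) (grad (F i)) η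
    rw [hη, ee_ii_vol, ← hη] at h8
    have h9 : ∑ j, Θ j * grad (F i) j = F i * θ i := by
      rw [← hθ i, hDa]
      rfl
    have h10 : ∑ j, (X j : MvPolynomial (Fin N) ℂ) * grad (F i) j = e i • F i :=
      (hF i).sum_X_mul_pderiv
    rw [h9, h10, map_smul] at h8
    have h11 : ee (grad (F i)) (ii (fun i => X i) η) =
        (e i • F i) • η - (F i * θ i) • ii (fun i => X i) vol := by
      rw [h8]
      abel
    rw [h11, smul_sub, mul_smul]
    congr 1
    rw [smul_assoc, Nat.cast_smul_eq_nsmul, smul_comm]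
  · have h8 : ∑ i, ((N : ℂ) * n i / d + ((n i * k : ℕ) : ℂ)) • (((e i : ℕ) : ℂ) • η - θ i • Om0 N) =
        ((N : ℂ) + d * k) • η := by
      have hd1 : (d : ℂ) ≠ 0 := by exact_mod_cast hd0.ne'
      have h9 : ∀ i, ((N : ℂ) * n i / d + ((n i * k : ℕ) : ℂ)) •
          (((e i : ℕ) : ℂ) • η - θ i • Om0 N) =
          (((N : ℂ) / d + k) * (n i * e i)) • η - ((N : ℂ) / d + k) • ((n i : ℂ) • θ i • Om0 N) := by
        intro i
        rw [smul_sub, smul_smul, smul_smul]
        congr 2
        · push_cast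
          ring
        · push_cast
          ring
      rw [Finset.sum_congr rfl fun i _ => h9 i, Finset.sum_sub_distrib, ← Finset.sum_smul,
        ← Finset.mul_sum, ← Finset.smul_sum]
      have h10 : ∑ i, (n i : ℂ) • θ i • Om0 N = 0 := by
        have h11 : ∑ i, (n i : ℂ) • θ i • Om0 N =
            (∑ i, ((n i : ℕ) : MvPolynomial (Fin N) ℂ) * θ i) • Om0 N := by
          rw [Finset.sum_smul]
          refine Finset.sum_congr rfl fun i _ => ?_
          rw [mul_smul, Nat.cast_smul_eq_nsmul, Nat.cast_smul_eq_nsmul]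
        rw [h11, h6, zero_smul]
      rw [h10, smul_zero, sub_zero]
      congr 1
      have h12 : ∑ i, (n i : ℂ) * (e i : ℂ) = d := by
        rw [hd]
        push_cast
        rfl
      rw [h12, add_mul, div_mul_cancel₀ _ hd1]
      ring
    rw [h8]
    have h9 : ((N - 1 + (d * k + 1) : ℕ) : ℂ) = (N : ℂ) + d * k := by
      rw [show N - 1 + (d * k + 1) = N + d * k by omega]
      push_cast
      rfl
    rw [h9] at h7
    rw [← h7]
    have h10 : ∏ i, F i ^ (n i * k) = (∏ i, F i ^ n i) ^ k := by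
      rw [← Finset.prod_pow]
      exact Finset.prod_congr rfl fun i _ => by rw [pow_mul]
    rw [h10, Om0]
    abel

end Pool.Agent.Helper48.SN
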