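import Mathlib

set_option autoImplicit false

/-! # The division lemma of de Rham and Saito, abstract form -/

namespace Pool.Agent.Helper48.SN

section

variable {R M κ : Type} [CommRing R] [AddCommGroup M] [Module R M]

/-- the composition of the operators in the list, the head is applied first -/
def WW (T : κ → M →ₗ[R] M) : List κ → (M →ₗ[R] M)
  | [] => LinearMap.id
  | b :: l => (WW T l).comp (T b)

/-- the sum of the images -/
def IM (T : κ → M →ₗ[R] M) : List κ → Submodule R M
  | [] => ⊥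
  | b :: l => LinearMap.range (T b) ⊔ IM T l

variable (T : κ → M →ₗ[R] M) (hT : ∀ k l x, T k (T l x) = - T l (T k x))
  (hT2 : ∀ k x, T k (T k x) = 0)

include hT hT2

theorem WW_kill (l : List κ) : ∀ k ∈ l, ∀ x, WW T l (T k x) = 0 := by
  induction l with
  | nil => intro k hk; simp at hk
  | cons b l ih =>
    intro k hk x
    change WW T l (T b (T k x)) = 0
    rcases List.mem_cons.1 hk with rfl | hk
    · rw [hT2, map_zero]
    · rw [hT, map_neg, ih k hk, neg_zero]

theorem WW_IM (l l' : List κ) (h : ∀ k ∈ l', k ∈ l) : ∀ x ∈ IM T l', WW T l x = 0 := by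
  induction l' with
  | nil =>
    intro x hx
    rw [IM, Submodule.mem_bot] at hx
    rw [hx, map_zero]
  | cons b l' ih =>
    intro x hx
    rw [IM] at hx
    obtain ⟨y, ⟨z, rfl⟩, w, hw, rfl⟩ := Submodule.mem_sup.1 hx
    rw [map_add, WW_kill T hT hT2 l b (h b (List.mem_cons_self ..)),
      ih (fun k hk => h k (List.mem_cons_of_mem _ hk)) w hw, add_zero]

omit hT2 in
theorem T_IM (l : List κ) (k : κ) : ∀ x ∈ IM T l, T k x ∈ IM T l := by
  induction l with
  | nil =>
    intro x hx
    rw [IM, Submodule.mem_bot] at hx ⊢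
    rw [hx, map_zero]
  | cons b l ih =>
    intro x hx
    rw [IM] at hx ⊢
    obtain ⟨y, ⟨z, rfl⟩, w, hw, rfl⟩ := Submodule.mem_sup.1 hx
    rw [map_add]
    refine Submodule.add_mem_sup ⟨- T k z, ?_⟩ (ih w hw)
    rw [map_neg, ← hT]

omit hT hT2 in
theorem pr_IM (pr : ℤ → M →ₗ[R] M) (hpr : ∀ p k x, pr (p + 1) (T k x) = T k (pr p x))
    (l : List κ) (p : ℤ) : ∀ x ∈ IM T l, pr p x ∈ IM T l := by
  induction l with
  | nil =>
    intro x hx
    rw [IM, Submodule.mem_bot] at hx ⊢
    rw [hx, map_zero]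
  | cons b l ih =>
    intro x hx
    rw [IM] at hx ⊢
    obtain ⟨y, ⟨z, rfl⟩, w, hw, rfl⟩ := Submodule.mem_sup.1 hx
    rw [map_add]
    refine Submodule.add_mem_sup ⟨pr (p - 1) z, ?_⟩ (ih w hw)
    rw [← hpr, sub_add_cancel]

omit hT hT2 in
theorem pr_WW (pr : ℤ → M →ₗ[R] M) (hpr : ∀ p k x, pr (p + 1) (T k x) = T k (pr p x))
    (l : List κ) : ∀ (p : ℤ) (x : M), pr (p + l.length) (WW T l x) = WW T l (pr p x) := by
  induction l with
  | nil => intro p x; simp [WW]
  | cons b l ih =>
    intro p x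
    change pr (p + (b :: l).length) (WW T l (T b x)) = WW T l (T b (pr p x))
    rw [← hpr, ← ih]
    congr 2
    rw [List.length_cons]
    push_cast
    ring

/-- **The division lemma.** -/
theorem saito (pr : ℤ → M →ₗ[R] M) (hpr : ∀ p k x, pr (p + 1) (T k x) = T k (pr p x))
    (hpp : ∀ p x, pr p (pr p x) = pr p x) (hneg : ∀ p < 0, ∀ x, pr p x = 0)
    (t : ℕ) (J : ℕ → Submodule R M) (a : ℕ → R)
    (hJT : ∀ j k, ∀ x ∈ J j, T k x ∈ J j) (hJp : ∀ j p, ∀ x ∈ J j, pr p x ∈ J j)
    (hJle : ∀ j, J j ≤ J (j + 1)) (haJ : ∀ j x, a j • x ∈ J (j + 1))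
    (hstep : ∀ j < t, ∀ x ∈ J (j + 1), ∃ y, x - a j • y ∈ J j)
    (hnzd : ∀ j < t, ∀ x, a j • x ∈ J j → x ∈ J j)
    (l : List κ)
    (hC : ∀ l', l' <:+ l → ∀ j < t, ∀ x, WW T l' x ∈ J j → a j • x ∈ IM T l' ⊔ J j) :
    ∀ (n : ℕ) (p : ℤ), p < n → ∀ j : ℕ, p + j < t → ∀ x, pr p x = x → WW T l x ∈ J j →
      x ∈ IM T l ⊔ J j := by
  have hJW : ∀ (l : List κ) j, ∀ x ∈ J j, WW T l x ∈ J j := by
    intro l
    induction l with
    | nil => intro j x hx; exact hx
    | cons b l ih => intro j x hx; exact ih j _ (hJT j b x hx)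
  induction l with
  | nil =>
    intro n p _ j _ x _ hx
    exact Submodule.mem_sup_right hx
  | cons b l ihl =>
    have ihl' := ihl (fun l' hl' => hC l' (hl'.trans (List.suffix_cons b l)))
    intro n
    induction n with
    | zero =>
      intro p hp j _ x hx _
      rw [← hx, hneg p (by simpa using hp)]
      exact Submodule.zero_mem _
    | succ n ihn =>
      intro p hp j hpj x hx hWx
      rcases lt_or_ge p 0 with hp0 | hp0
      · rw [← hx, hneg p hp0]
        exact Submodule.zero_mem _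
      have hjt : j < t := by omega
      have h1 := hC (b :: l) List.suffix_rfl j hjt x hWx
      obtain ⟨u, hu, z, hz, hsum⟩ := Submodule.mem_sup.1 h1
      rw [IM] at hu
      obtain ⟨_, ⟨ξ, rfl⟩, y, hy, rfl⟩ := Submodule.mem_sup.1 hu
      -- the part of degree `p`
      have h2 : a j • x = T b (pr (p - 1) ξ) + pr p y + pr p z := by
        rw [← hpr, sub_add_cancel, ← map_add, ← map_add, hsum, map_smul, hx]
      have hy' := pr_IM T pr hpr l p y hy
      have hz' := hJp j p z hz
      -- `W (b :: l) ξ' ∈ J (j + 1)`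
      have h3 : WW T (b :: l) (pr (p - 1) ξ) ∈ J (j + 1) := by
        have h4 : WW T (b :: l) (pr (p - 1) ξ) = a j • WW T l x - WW T l (pr p z) := by
          change WW T l (T b (pr (p - 1) ξ)) = _
          rw [← map_smul, h2, map_add, map_add, WW_IM T hT hT2 l l (fun k hk => hk) _ hy']
          abel
        rw [h4]
        exact Submodule.sub_mem _ (haJ j _) (hJle j (hJW l j _ hz'))
      have h5 := ihn (p - 1) (by push_cast at hp; omega) (j + 1) (by push_cast; omega)
        (pr (p - 1) ξ) (hpp _ _) h3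
      obtain ⟨u, hu, γ, hγ, hsum2⟩ := Submodule.mem_sup.1 h5
      rw [IM] at hu
      obtain ⟨_, ⟨α, rfl⟩, β, hβ, rfl⟩ := Submodule.mem_sup.1 hu
      obtain ⟨γ', hγ'⟩ := hstep j hjt γ hγ
      set y1 := pr (p - 1) γ' with hy1
      set x1 := x - T b y1 with hx1
      have hx1p : x1 = pr p (x - T b γ') := by
        rw [hx1, map_sub, hx, hy1, ← hpr, sub_add_cancel]
      have h6 : a j • (x - T b γ') ∈ IM T l ⊔ J j := by
        have h7 : a j • (x - T b γ') = (T b β + pr p y) + (T b (γ - a j • γ') + pr p z) := by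
          rw [smul_sub, h2, ← hsum2, map_add, map_add, hT2, map_sub, map_smul]
          abel
        rw [h7]
        exact Submodule.add_mem_sup (Submodule.add_mem _ (T_IM T hT l b β hβ) hy')
          (Submodule.add_mem _ (hJT j b _ hγ') hz')
      have h8 : WW T l (x - T b γ') ∈ J j := by
        refine hnzd j hjt _ ?_
        rw [← map_smul]
        obtain ⟨u, hu, v, hv, huv⟩ := Submodule.mem_sup.1 h6
        rw [← huv, map_add, WW_IM T hT hT2 l l (fun k hk => hk) u hu, zero_add]
        exact hJW l j v hv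
      have h9 : WW T l x1 ∈ J j := by
        rw [hx1p, ← pr_WW T pr hpr]
        exact hJp j _ _ h8
      have h10 := ihl' (n + 1) p hp j hpj x1 (by rw [hx1p, hpp]) h9
      have h11 : x = T b y1 + x1 := by rw [hx1]; abel
      rw [h11, IM]
      refine Submodule.add_mem _ (Submodule.mem_sup_left (Submodule.mem_sup_left ⟨y1, rfl⟩)) ?_
      exact (sup_le_sup_right (le_sup_right) _ : IM T l ⊔ J j ≤ _) h10

end

end Pool.Agent.Helper48.SN
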