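import Pool.Agent.Helper48.SN.Diff
import Pool.Agent.Helper48.SN.Saito
import Pool.Graph.R_pool_sql_team_seeded_2aa45f1a.H119.LssKoszul

set_option autoImplicit false
set_option linter.unusedSectionVars false

/-! # Forms without common zeros are regular sequences -/

namespace Pool.Agent.Helper48.SN

open Finset MvPolynomial

/-- the ideal generated by `X_i ^ M`, `i < j` -/
noncomputable def XI (N M j : ℕ) : Ideal (MvPolynomial (Fin N) ℂ) :=
  Ideal.span ((fun s => monomial s (1 : ℂ)) '' {s | ∃ i : Fin N, i.val < j ∧ s = Finsupp.single i M})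

theorem mem_XI {N M j : ℕ} {p : MvPolynomial (Fin N) ℂ} :
    p ∈ XI N M j ↔ ∀ m ∈ p.support, ∃ i : Fin N, i.val < j ∧ M ≤ m i := by
  rw [XI, mem_ideal_span_monomial_image]
  refine forall_congr' fun m => imp_congr_right fun _ => ?_
  constructor
  · rintro ⟨s, ⟨i, hi, rfl⟩, hs⟩
    refine ⟨i, hi, ?_⟩
    have := hs i
    rwa [Finsupp.single_eq_same] at this
  · rintro ⟨i, hi, hM⟩
    exact ⟨_, ⟨i, hi, rfl⟩, Finsupp.single_le_iff.2 hM⟩

theorem XI_zero (N M : ℕ) {p : MvPolynomial (Fin N) ℂ} (h : p ∈ XI N M 0) : p = 0 := by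
  rw [mem_XI] at h
  by_contra hp
  obtain ⟨m, hm⟩ := Finset.nonempty_iff_ne_empty.2 (mt support_eq_empty.1 hp)
  obtain ⟨i, hi, _⟩ := h m hm
  omega

theorem XI_le (N M j : ℕ) : XI N M j ≤ XI N M (j + 1) := by
  intro p hp
  rw [mem_XI] at hp ⊢
  intro m hm
  obtain ⟨i, hi, h⟩ := hp m hm
  exact ⟨i, by omega, h⟩

theorem XI_nzd (N M j : ℕ) (hj : j < N) (p : MvPolynomial (Fin N) ℂ)
    (h : X (⟨j, hj⟩ : Fin N) ^ M * p ∈ XI N M j) : p ∈ XI N M j := by
  rw [mem_XI] at h ⊢
  intro m hm
  obtain ⟨i, hi, h1⟩ := h (Finsupp.single ⟨j, hj⟩ M + m) (by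
    rw [mem_support_iff, X_pow_eq_monomial, coeff_monomial_mul, one_mul]
    exact mem_support_iff.1 hm)
  refine ⟨i, hi, ?_⟩
  have h2 : (⟨j, hj⟩ : Fin N) ≠ i := by
    intro h3
    rw [← h3] at hi
    exact lt_irrefl _ hi
  rw [Finsupp.add_apply, Finsupp.single_eq_of_ne (Ne.symm h2), zero_add] at h1
  exact h1

theorem XI_step (N M j : ℕ) (hj : j < N) (p : MvPolynomial (Fin N) ℂ) (h : p ∈ XI N M (j + 1)) :
    ∃ q, p - X (⟨j, hj⟩ : Fin N) ^ M * q ∈ XI N M j := by
  have h1 : XI N M (j + 1) ≤ XI N M j ⊔ Ideal.span {X (⟨j, hj⟩ : Fin N) ^ M} := by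
    rw [XI, Ideal.span_le]
    rintro _ ⟨_, ⟨i, hi, rfl⟩, rfl⟩
    rcases Nat.lt_succ_iff_lt_or_eq.1 hi with h2 | h2
    · exact Submodule.mem_sup_left (Ideal.subset_span ⟨_, ⟨i, h2, rfl⟩, rfl⟩)
    · refine Submodule.mem_sup_right (Ideal.subset_span ?_)
      rw [Set.mem_singleton_iff, X_pow_eq_monomial]
      congr
      exact Fin.ext h2
  obtain ⟨u, hu, v, hv, rfl⟩ := Submodule.mem_sup.1 (h1 h)
  obtain ⟨q, rfl⟩ := Ideal.mem_span_singleton'.1 hv
  exact ⟨q, by rw [mul_comm q, add_sub_cancel_right]; exact hu⟩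

section

variable {σ : Type} [Fintype σ] [LinearOrder σ]

/-- the forms with coefficients in an ideal -/
def cf {R : Type} [CommRing R] (I : Ideal R) : Submodule R (Om σ R) where
  carrier := {ω | ∀ S, ω S ∈ I}
  add_mem' h1 h2 S := I.add_mem (h1 S) (h2 S)
  zero_mem' _ := I.zero_mem
  smul_mem' c _ h S := I.mul_mem_left c (h S)

theorem mem_cf {R : Type} [CommRing R] {I : Ideal R} {ω : Om σ R} : ω ∈ cf I ↔ ∀ S, ω S ∈ I :=
  Iff.rfl

variable {R : Type} [CommRing R]

theorem ex_cf {I : Ideal R} (i : σ) {ω : Om σ R} (h : ω ∈ cf I) : ex i ω ∈ cf I := by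
  intro S
  rw [ex_apply]
  split_ifs
  · exact zsmul_mem (h _) _
  · exact I.zero_mem

theorem ct_cf {I : Ideal R} (i : σ) {ω : Om σ R} (h : ω ∈ cf I) : ct i ω ∈ cf I := by
  intro S
  rw [ct_apply]
  split_ifs
  · exact I.zero_mem
  · exact zsmul_mem (h _) _

theorem ee_cf {I : Ideal R} (w : σ → R) {ω : Om σ R} (h : ω ∈ cf I) : ee w ω ∈ cf I := by
  rw [ee_apply]
  exact Submodule.sum_mem _ fun i _ => Submodule.smul_mem _ _ (ex_cf i h)

theorem ii_cf {I : Ideal R} (w : σ → R) {ω : Om σ R} (h : ω ∈ cf I) : ii w ω ∈ cf I := by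
  rw [ii_apply]
  exact Submodule.sum_mem _ fun i _ => Submodule.smul_mem _ _ (ct_cf i h)

theorem pr_cf {I : Ideal R} (p : ℤ) {ω : Om σ R} (h : ω ∈ cf I) : pr p ω ∈ cf I := by
  intro S
  rw [pr_apply]
  split_ifs
  · exact h _
  · exact I.zero_mem

theorem pr_big (p : ℤ) (hp : (Fintype.card σ : ℤ) < p) (ω : Om σ R) : pr p ω = 0 := by
  funext S
  rw [pr_apply, if_neg, Pi.zero_apply]
  intro h
  have := Finset.card_le_univ S
  omega

/-- the constant `1` -/
def one0 : Om σ R := fun S => if S = ∅ then 1 else 0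

theorem ct_one0 (i : σ) : ct i (one0 : Om σ R) = 0 := by
  funext S
  rw [ct_apply, Pi.zero_apply, one0, if_neg (Finset.insert_ne_empty _ _), smul_zero, ite_self]

theorem ii_one0 (w : σ → R) : ii w (one0 : Om σ R) = 0 := by
  rw [ii_apply]
  exact Finset.sum_eq_zero fun i _ => by rw [ct_one0, smul_zero]

theorem pr_one0 : pr 0 (one0 : Om σ R) = one0 := by
  funext S
  rw [pr_apply, one0]
  split_ifs with h1 h2 h2
  · rfl
  · rfl
  · rw [h2, Finset.card_empty] at h1
    exact absurd rfl h1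
  · rfl

theorem sg_single (i j : σ) : sg j {i} = if i < j then -1 else 1 := by
  rw [sg, Finset.filter_singleton]
  split_ifs
  · simp
  · simp

end

open Pool.Agent.H119.LSS in
/-- Koszul relations of elements whose ideal contains powers of the variables -/
theorem h1_of_pow {N : ℕ} (f : Fin N → MvPolynomial (Fin N) ℂ) (M : ℕ)
    (hM : ∀ i, (X i : MvPolynomial (Fin N) ℂ) ^ M ∈ Ideal.span (Set.range f)) : H1 f := by
  classical
  intro a ha
  have key := saito (κ := Unit) (M := Om (Fin N) (MvPolynomial (Fin N) ℂ)) (fun _ => ii f)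
    (fun _ _ x => ii_ii f f x) (fun _ x => ii_self f x) (fun p => pr ((N : ℤ) - p))
    (fun p _ x => by
      rw [pr_ii, show (N : ℤ) - (p + 1) + 1 = (N : ℤ) - p by ring])
    (fun p x => pr_pr _ x) (fun p hp x => pr_big _ (by rw [Fintype.card_fin]; omega) x) N
    (fun j => cf (XI N M j)) (fun j => if h : j < N then X (⟨j, h⟩ : Fin N) ^ M else 0)
    (fun j _ x hx => ii_cf f hx) (fun j p x hx => pr_cf _ hx) (fun j x hx S => XI_le N M j (hx S))
    (fun j x => by
      split_ifs with h
      · intro S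
        rw [Pi.smul_apply, smul_eq_mul]
        refine Ideal.mul_mem_right _ _ ?_
        rw [mem_XI]
        intro m hm
        rw [X_pow_eq_monomial, support_monomial, if_neg one_ne_zero, Finset.mem_singleton] at hm
        exact ⟨⟨j, h⟩, Nat.lt_succ_self j, by rw [hm, Finsupp.single_eq_same]⟩
      · rw [zero_smul]
        exact Submodule.zero_mem _)
    (fun j hj x hx => by
      rw [dif_pos hj]
      choose q hq using fun S => XI_step N M j hj (x S) (hx S)
      exact ⟨q, fun S => hq S⟩)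
    (fun j hj x hx => by
      rw [dif_pos hj] at hx
      intro S
      exact XI_nzd N M j hj (x S) (hx S))
    [()] (by
      intro l' hl' j hj x hx
      rw [dif_pos hj]
      rcases List.suffix_cons_iff.1 hl' with h | h
      · subst h
        change ii f x ∈ cf (XI N M j) at hx
        obtain ⟨c, hc⟩ := Ideal.mem_span_range_iff_exists_fun.1 (hM ⟨j, hj⟩)
        have h2 : ∀ i, f i • x = ii f (ex i x) + ex i (ii f x) := by
          intro i
          have h3 := ii_ee f (Pi.single i (1 : MvPolynomial (Fin N) ℂ)) x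
          have h4 : ∀ y : Om (Fin N) (MvPolynomial (Fin N) ℂ),
              ee (Pi.single i (1 : MvPolynomial (Fin N) ℂ)) y = ex i y := by
            intro y
            rw [ee_apply, Finset.sum_eq_single i (fun j _ hj => by
              rw [Pi.single_eq_of_ne hj, zero_smul]) (fun h => absurd (Finset.mem_univ i) h),
              Pi.single_eq_same, one_smul]
          rw [h4, h4, Finset.sum_eq_single i (fun j _ hj => by
              rw [Pi.single_eq_of_ne hj, mul_zero]) (fun h => absurd (Finset.mem_univ i) h),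
              Pi.single_eq_same, mul_one] at h3
          rw [h3, sub_add_cancel]
        rw [← hc, Finset.sum_smul]
        refine Submodule.sum_mem _ fun i _ => ?_
        rw [mul_smul, h2, smul_add]
        refine Submodule.add_mem _ (Submodule.smul_mem _ _ ?_) (Submodule.smul_mem _ _ ?_)
        · exact Submodule.mem_sup_left (Submodule.mem_sup_left ⟨_, rfl⟩)
        · exact Submodule.mem_sup_right (ex_cf i hx)
      · rw [List.suffix_nil] at h
        subst h
        exact Submodule.mem_sup_right (Submodule.smul_mem _ _ hx))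
    (N + 1) ((N : ℤ) - 1) (by push_cast; omega) 0 (by push_cast; omega) (ee a one0) (by
      rw [show (N : ℤ) - ((N : ℤ) - 1) = 0 + 1 by ring, pr_ee, pr_one0]) (by
      change ii f (ee a one0) ∈ _
      rw [ii_ee, ii_one0, map_zero, sub_zero]
      have : ∑ i, f i * a i = 0 := by
        rw [← ha, dotProduct]
        exact Finset.sum_congr rfl fun i _ => mul_comm _ _
      rw [this, zero_smul]
      exact Submodule.zero_mem _)
  obtain ⟨u, hu, v, hv, huv⟩ := Submodule.mem_sup.1 key
  have hv0 : v = 0 := by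
    funext S
    exact XI_zero N M (hv S)
  rw [hv0, add_zero] at huv
  have hu2 : ∃ y, ii f y = ee a one0 := by
    rw [IM, IM, sup_bot_eq] at hu
    obtain ⟨y, hy⟩ := hu
    exact ⟨y, by rw [← huv]; exact hy⟩
  obtain ⟨y, hy⟩ := hu2
  refine ⟨Matrix.of fun i j => if i = j then 0 else sg j {i} • y {j, i}, ⟨fun i => ?_, fun i j => ?_⟩, ?_⟩
  · simp
  · simp only [Matrix.of_apply]
    rcases eq_or_ne i j with h | h
    · subst h
      simp
    · rw [if_neg h, if_neg h.symm, sg_single, sg_single, Finset.pair_comm]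
      rcases lt_or_gt_of_ne h with h1 | h1
      · rw [if_pos h1, if_neg (not_lt.2 h1.le), neg_smul, one_smul]
      · rw [if_neg (not_lt.2 h1.le), if_pos h1, neg_smul, one_smul, neg_neg]
  · funext i
    have h1 := congrFun hy {i}
    rw [ii_apply, ee_apply, Finset.sum_apply, Finset.sum_apply] at h1
    have h2 : ∑ c, (a c • ex c (one0 : Om (Fin N) (MvPolynomial (Fin N) ℂ))) {i} = a i := by
      rw [Finset.sum_eq_single i]
      · rw [Pi.smul_apply, ex_apply, if_pos (Finset.mem_singleton_self i), sg_single,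
          if_neg (lt_irrefl i), one_smul, one0, if_pos (by simp), smul_eq_mul, mul_one]
      · intro j _ hj
        rw [Pi.smul_apply, ex_apply, if_neg (by simp [hj]), smul_zero]
      · intro h
        exact absurd (Finset.mem_univ i) h
    rw [h2] at h1
    rw [← h1, Matrix.mulVec, dotProduct]
    refine Finset.sum_congr rfl fun j _ => ?_
    rw [Pi.smul_apply, ct_apply, Matrix.of_apply]
    by_cases hji : i = j
    · subst hji
      simp
    · rw [if_neg (by simp [Ne.symm hji]), if_neg hji, smul_eq_mul, mul_comm]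

/-- an ideal whose only zero is the origin contains a power of every polynomial without constant
term -/
theorem pow_mem_of_zero {N : ℕ} (I : Ideal (MvPolynomial (Fin N) ℂ))
    (h : ∀ x : Fin N → ℂ, (∀ p ∈ I, eval x p = 0) → x = 0) (g : MvPolynomial (Fin N) ℂ)
    (hg : eval 0 g = 0) : ∃ M, g ^ M ∈ I := by
  have h1 : g ∈ vanishingIdeal ℂ (zeroLocus ℂ I) := by
    rw [mem_vanishingIdeal_iff]
    intro x hx
    rw [mem_zeroLocus_iff] at hx
    rw [h x fun p hp => hx p hp]
    exact hg
  rw [vanishingIdeal_zeroLocus_eq_radical] at h1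
  exact h1

open Pool.Agent.H119.LSS in
/-- **`N` forms in `N` variables without common zeros.** -/
theorem h1_of_zero {N : ℕ} (f : Fin N → MvPolynomial (Fin N) ℂ)
    (h : ∀ x : Fin N → ℂ, (∀ i, eval x (f i) = 0) → x = 0) : H1 f := by
  have h1 : ∀ i : Fin N, ∃ M, (X i : MvPolynomial (Fin N) ℂ) ^ M ∈ Ideal.span (Set.range f) := by
    intro i
    refine pow_mem_of_zero (Ideal.span (Set.range f)) (fun x hx => h x fun i => ?_) _ (by simp)
    exact hx _ (Ideal.subset_span (Set.mem_range_self i))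
  choose M hM using h1
  refine h1_of_pow f (∑ i, M i) fun i => ?_
  have h2 : M i ≤ ∑ i, M i := Finset.single_le_sum (fun _ _ => Nat.zero_le _) (Finset.mem_univ i)
  obtain ⟨k, hk⟩ := Nat.exists_eq_add_of_le h2
  rw [hk, pow_add]
  exact Ideal.mul_mem_right _ _ (hM i)

open Pool.Agent.H119.LSS in
theorem reg_of_zero {N : ℕ} (f : Fin N → MvPolynomial (Fin N) ℂ) (w : Fin N → ℕ)
    (hf : ∀ i, (f i).IsHomogeneous (w i)) (hw : ∀ i, 0 < w i)
    (h : ∀ x : Fin N → ℂ, (∀ i, eval x (f i) = 0) → x = 0) : RegPart f := by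
  refine H1.regPart hf (fun i => ?_) (h1_of_zero f h)
  rw [constantCoeff_eq]
  by_contra h0
  have h1 := hf i h0
  rw [map_zero] at h1
  exact (hw i).ne h1

end Pool.Agent.Helper48.SN
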