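import Pool.Agent.Helper48.SN.Init
import Pool.Graph.R_pool_sql_team_seeded_5cf16337.K3h38.SM.StepK

set_option autoImplicit false
set_option linter.unusedSectionVars false

/-! # The linear vector field -/

namespace Pool.Agent.Helper48.SN

open Finset MvPolynomial Pool.Agent.H119.LSS

section

variable {σ : Type} [Fintype σ] [LinearOrder σ]

/-- the homogeneous components of the coefficients -/
noncomputable def hcm (j : ℕ) : Om σ (MvPolynomial σ ℂ) →ₗ[ℂ] Om σ (MvPolynomial σ ℂ) where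
  toFun ω S := homogeneousComponent j (ω S)
  map_add' ω η := by
    funext S
    simp only [Pi.add_apply, map_add]
  map_smul' c ω := by
    funext S
    simp only [Pi.smul_apply, map_smul, RingHom.id_apply]

theorem hcm_apply (j : ℕ) (ω : Om σ (MvPolynomial σ ℂ)) (S : Finset σ) :
    hcm j ω S = homogeneousComponent j (ω S) := rfl

theorem hcm_ex (j : ℕ) (i : σ) (ω : Om σ (MvPolynomial σ ℂ)) :
    hcm j (ex i ω) = ex i (hcm j ω) := by
  funext S
  rw [hcm_apply, ex_apply, ex_apply, hcm_apply]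
  split_ifs
  · rw [map_zsmul]
  · rw [map_zero]

theorem hcm_pd (j : ℕ) (i : σ) (ω : Om σ (MvPolynomial σ ℂ)) :
    hcm j (pd i ω) = pd i (hcm (j + 1) ω) := by
  funext S
  exact Pool.Agent.K3h38.SM.comp_pderiv (ω S) i j

theorem hcm_dd (j : ℕ) (ω : Om σ (MvPolynomial σ ℂ)) : hcm j (dd ω) = dd (hcm (j + 1) ω) := by
  rw [dd_apply, dd_apply, map_sum]
  exact Finset.sum_congr rfl fun i _ => by rw [hcm_ex, hcm_pd]

theorem hcm_smul (a j : ℕ) (p : MvPolynomial σ ℂ) (hp : p.IsHomogeneous a)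
    (ω : Om σ (MvPolynomial σ ℂ)) : hcm (a + j) (p • ω) = p • hcm j ω := by
  funext S
  exact Pool.Agent.K3h38.SM.comp_mul_left p (ω S) a j hp

theorem hcm_ee (a j : ℕ) (w : σ → MvPolynomial σ ℂ) (hw : ∀ i, (w i).IsHomogeneous a)
    (ω : Om σ (MvPolynomial σ ℂ)) : hcm (a + j) (ee w ω) = ee w (hcm j ω) := by
  rw [ee_apply, ee_apply, map_sum]
  exact Finset.sum_congr rfl fun i _ => by rw [hcm_smul a j _ (hw i), hcm_ex]

theorem pr_hcm (p : ℤ) (j : ℕ) (ω : Om σ (MvPolynomial σ ℂ)) :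
    pr p (hcm j ω) = hcm j (pr p ω) := by
  funext S
  rw [pr_apply, hcm_apply, hcm_apply, pr_apply]
  split_ifs
  · rfl
  · rw [map_zero]

theorem hcm_self (j : ℕ) (ω : Om σ (MvPolynomial σ ℂ)) (h : ∀ S, (ω S).IsHomogeneous j) :
    hcm j ω = ω := by
  funext S
  exact homogeneousComponent_eq_self (h S)

end

variable {N : ℕ} {ι : Type} [DecidableEq ι] [Fintype ι]

theorem PP_linear (hN : 2 ≤ N) (F : ι → MvPolynomial (Fin N) ℂ) (e : ι → ℕ)
    (hF : ∀ k, (F k).IsHomogeneous (e k)) (he : ∀ k, 0 < e k) (hS : SNC F)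
    (lam : ι → ℂ) (h : PP F lam 0) :
    ∃ (A : Fin N → MvPolynomial (Fin N) ℂ) (μ : ι → ℂ), (∀ j, (A j).IsHomogeneous 1) ∧
      ∑ j, pderiv j (A j) = 0 ∧ (∀ i, ∑ j, A j * pderiv j (F i) = C (μ i) * F i) ∧
      ∑ i, lam i * μ i = - N := by
  have hne : ∀ k, F k ≠ 0 := F_ne (by omega) F hS
  obtain ⟨ζ', τ', hζ', hτ', heq'⟩ := h
  set ζ := hcm 2 ζ' with hζ
  set τ : ι → Om (Fin N) (MvPolynomial (Fin N) ℂ) := fun i => hcm 1 (τ' i) with hτ
  have h1 : ∀ i, TT F i ζ = F i • τ i := by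
    intro i
    have h2 : ∀ j, (grad (F i) j).IsHomogeneous (e i - 1) := fun j => (hF i).pderiv
    have h3 := hcm_ee (e i - 1) 2 (grad (F i)) h2 ζ'
    have h4 := hcm_smul (e i) 1 (F i) (hF i) (τ' i)
    have h5 : e i - 1 + 2 = e i + 1 := by
      have := he i
      omega
    rw [h5] at h3
    rw [hζ, hτ]
    change ee (grad (F i)) _ = _
    rw [← h3]
    change hcm (e i + 1) (TT F i ζ') = _
    rw [hτ' i, h4]
  have hOm : hcm 1 (Om0 N) = Om0 N := hcm_self 1 _ (ii_vol_hom _ 1 fun i => isHomogeneous_X ℂ i)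
  have heq : dd ζ - ∑ i, lam i • τ i = - Om0 N := by
    have h2 := congrArg (hcm 1) heq'
    rw [map_sub, hcm_dd, map_sum, map_neg] at h2
    simp only [Pi.zero_apply, Nat.cast_zero, add_zero, pow_zero, Finset.prod_const_one, one_smul,
      map_smul] at h2
    rw [hOm] at h2
    exact h2
  have hpr : pr ((Fintype.card (Fin N) : ℤ) - 1) (dd ζ) = dd ζ := by
    rw [Fintype.card_fin]
    have h2 := pr_dd ((N : ℤ) - 2) ζ
    rw [show (N : ℤ) - 2 + 1 = N - 1 by ring] at h2
    rw [h2, hζ, pr_hcm, hζ']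
  have hA := exists_ii (dd ζ) hpr
  set A : Fin N → MvPolynomial (Fin N) ℂ := fun i =>
    sg i (Finset.univ.erase i) • dd ζ (Finset.univ.erase i) with hAdef
  have hdd : dd ζ = hcm 1 (dd ζ') := by rw [hζ, hcm_dd]
  have hA1 : ∀ j, (A j).IsHomogeneous 1 := by
    intro j
    rw [hAdef]
    simp only
    rw [zsmul_eq_mul, ← map_intCast (C : ℂ →+* MvPolynomial (Fin N) ℂ)]
    refine IsHomogeneous.C_mul ?_ _
    rw [hdd, hcm_apply]
    exact homogeneousComponent_isHomogeneous 1 _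
  have hvu : (vol : Om (Fin N) (MvPolynomial (Fin N) ℂ)) Finset.univ = 1 := if_pos rfl
  have hdiv : ∑ j, pderiv j (A j) = 0 := by
    have h2 := dd_ii_vol A
    rw [← hA, dd_dd] at h2
    have h3 := congrFun h2 Finset.univ
    rw [Pi.zero_apply, Pi.smul_apply, hvu, smul_eq_mul, mul_one] at h3
    exact h3.symm
  set μ : ι → ℂ := fun i => - coeff 0 (dd (τ' i) Finset.univ) with hμ
  have hdτ : ∀ i, dd (τ i) Finset.univ = - C (μ i) := by
    intro i
    rw [hτ, hμ]
    simp only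
    rw [map_neg, neg_neg]
    have h2 := hcm_dd 0 (τ' i)
    rw [zero_add] at h2
    rw [← h2, hcm_apply, homogeneousComponent_zero]
  refine ⟨A, μ, hA1, hdiv, fun i => ?_, ?_⟩
  · have h2 : TT F i (τ i) = 0 := by
      refine smul_cancel (hne i) ?_
      rw [← map_smul, ← h1, TT_self, smul_zero]
    have h3 := dd_ee (F i) ζ
    change dd (TT F i ζ) = - ee (grad (F i)) (dd ζ) at h3
    rw [h1 i, dd_smul] at h3
    change TT F i (τ i) + _ = _ at h3
    rw [h2, zero_add, hA, ee_ii_vol] at h3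
    have h4 := congrFun h3 Finset.univ
    rw [Pi.smul_apply, Pi.neg_apply, Pi.smul_apply, hvu, hdτ, smul_eq_mul, smul_eq_mul,
      mul_one] at h4
    have h5 : ∑ j, A j * pderiv j (F i) = ∑ j, A j * grad (F i) j := rfl
    rw [h5]
    linear_combination h4
  · have h2 := congrArg dd heq
    rw [map_sub, dd_dd, map_sum, map_neg, Om0, dd_ii_vol] at h2
    have h3 := congrFun h2 Finset.univ
    rw [Pi.sub_apply, Pi.zero_apply, Finset.sum_apply, Pi.neg_apply, Pi.smul_apply, hvu,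
      smul_eq_mul, mul_one] at h3
    have h4 : ∀ i, dd (lam i • τ i) Finset.univ = - C (lam i * μ i) := by
      intro i
      rw [map_smul, Pi.smul_apply, hdτ, smul_neg, map_mul, C_mul']
    rw [Finset.sum_congr rfl fun i _ => h4 i] at h3
    have h5 : ∑ i : Fin N, pderiv i (X i : MvPolynomial (Fin N) ℂ) = C (N : ℂ) := by
      rw [Finset.sum_congr rfl fun i _ => pderiv_X_self i, Finset.sum_const, Finset.card_univ,
        Fintype.card_fin, nsmul_eq_mul, mul_one, map_natCast]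
    rw [h5, Finset.sum_neg_distrib, zero_sub, neg_neg, ← map_sum, ← map_neg] at h3
    exact C_injective _ _ h3

end Pool.Agent.Helper48.SN
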