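import Pool.Agent.Helper48.SN.Divi

set_option autoImplicit false
set_option linter.unusedSectionVars false

/-! # Logarithmic forms along hypersurfaces with normal crossings -/

namespace Pool.Agent.Helper48.SN

open Finset MvPolynomial Pool.Agent.H119.LSS

variable {N : ℕ} {ι : Type} [DecidableEq ι]

/-- the sums of the forms `F_(B ∖ K) dF_K ∧ ω`, `K ⊆ B` -/
noncomputable def LL (F : ι → MvPolynomial (Fin N) ℂ) :
    List ι → Submodule (MvPolynomial (Fin N) ℂ) (Om (Fin N) (MvPolynomial (Fin N) ℂ))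
  | [] => ⊤
  | b :: l => (LL F l).map (TT F b) ⊔ (LL F l).map (LinearMap.lsmul _ _ (F b))

theorem mem_LL_cons (F : ι → MvPolynomial (Fin N) ℂ) (b : ι) (l : List ι)
    (x : Om (Fin N) (MvPolynomial (Fin N) ℂ)) :
    x ∈ LL F (b :: l) ↔ ∃ α ∈ LL F l, ∃ β ∈ LL F l, x = TT F b α + F b • β := by
  rw [LL, Submodule.mem_sup]
  constructor
  · rintro ⟨_, ⟨α, hα, rfl⟩, _, ⟨β, hβ, rfl⟩, rfl⟩
    exact ⟨α, hα, β, hβ, rfl⟩
  · rintro ⟨α, hα, β, hβ, rfl⟩
    exact ⟨_, ⟨α, hα, rfl⟩, _, ⟨β, hβ, rfl⟩, rfl⟩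

theorem pr_LL (F : ι → MvPolynomial (Fin N) ℂ) (l : List ι) :
    ∀ (p : ℤ), ∀ x ∈ LL F l, pr p x ∈ LL F l := by
  induction l with
  | nil => intro p x _; exact Submodule.mem_top
  | cons b l ih =>
    intro p x hx
    rw [mem_LL_cons] at hx ⊢
    obtain ⟨α, hα, β, hβ, rfl⟩ := hx
    refine ⟨pr (p - 1) α, ih _ α hα, pr p β, ih _ β hβ, ?_⟩
    rw [map_add, map_smul, ← pr_ee, sub_add_cancel]

theorem LL_log (F : ι → MvPolynomial (Fin N) ℂ) (l : List ι) :
    ∀ j ∈ l, ∀ x ∈ LL F l, ∃ y, TT F j x = F j • y := by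
  induction l with
  | nil => intro j hj; simp at hj
  | cons b l ih =>
    intro j hj x hx
    rw [mem_LL_cons] at hx
    obtain ⟨α, hα, β, hβ, rfl⟩ := hx
    rcases List.mem_cons.1 hj with rfl | hj
    · exact ⟨TT F j β, by rw [map_add, TT_self, zero_add, map_smul]⟩
    · obtain ⟨y, hy⟩ := ih j hj α hα
      obtain ⟨z, hz⟩ := ih j hj β hβ
      refine ⟨- TT F b y + F b • z, ?_⟩
      rw [map_add, TT_anti, hy, map_smul, map_smul, hz, smul_add, smul_neg, smul_comm (F b)]

theorem mem_cf_cons (F : ι → MvPolynomial (Fin N) ℂ) (b : ι) (l : List ι)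
    (z : Om (Fin N) (MvPolynomial (Fin N) ℂ)) (hz : z ∈ cf (FI F (b :: l))) :
    ∃ u, ∃ v ∈ cf (FI F l), z = F b • u + v := by
  have h1 : FI F (b :: l) ≤ Ideal.span {F b} ⊔ FI F l := by
    rw [FI, Ideal.span_le]
    rintro _ ⟨k, hk, rfl⟩
    rcases List.mem_cons.1 hk with rfl | hk
    · exact Submodule.mem_sup_left (Ideal.subset_span rfl)
    · exact Submodule.mem_sup_right (FI_mem F hk)
  have h2 : ∀ S, ∃ c, z S - F b * c ∈ FI F l := by
    intro S
    obtain ⟨u, hu, v, hv, huv⟩ := Submodule.mem_sup.1 (h1 (hz S))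
    obtain ⟨q, rfl⟩ := Ideal.mem_span_singleton'.1 hu
    exact ⟨q, by rw [← huv, mul_comm q, add_sub_cancel_left]; exact hv⟩
  choose u hu using h2
  exact ⟨u, z - F b • u, fun S => hu S, by abel⟩

theorem WW_cf (F : ι → MvPolynomial (Fin N) ℂ) (I : Ideal (MvPolynomial (Fin N) ℂ)) (l : List ι) :
    ∀ x ∈ (cf I : Submodule _ (Om (Fin N) (MvPolynomial (Fin N) ℂ))), WW (TT F) l x ∈ cf I := by
  induction l with
  | nil => intro x hx; exact hx
  | cons b l ih => intro x hx; exact ih _ (ee_cf _ hx)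

theorem cf_le {I J : Ideal (MvPolynomial (Fin N) ℂ)} (h : I ≤ J) :
    (cf I : Submodule _ (Om (Fin N) (MvPolynomial (Fin N) ℂ))) ≤ cf J := fun _ hx S => h (hx S)

theorem WW_stuff (F : ι → MvPolynomial (Fin N) ℂ) (l : List ι) (j : ι)
    (w : Om (Fin N) (MvPolynomial (Fin N) ℂ)) (hw : w ∈ IM (TT F) l ⊔ cf (FI F l)) :
    WW (TT F) (j :: l) w ∈ cf (FI F l) := by
  obtain ⟨y, hy, z, hz, rfl⟩ := Submodule.mem_sup.1 hw
  rw [map_add]
  refine Submodule.add_mem _ ?_ (WW_cf F _ _ z hz)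
  change WW (TT F) l (TT F j y) ∈ _
  rw [WW_IM (TT F) (TT_anti F) (TT_self F) l l (fun k hk => hk) _
    (T_IM (TT F) (TT_anti F) l j y hy)]
  exact Submodule.zero_mem _

/-- **Logarithmic forms.** -/
theorem glemma (F : ι → MvPolynomial (Fin N) ℂ) (e : ι → ℕ) (hF : ∀ k, (F k).IsHomogeneous (e k))
    (he : ∀ k, 0 < e k) (hS : SNC F) (hC : Comp F) (B : List ι) :
    ∀ (l : List ι) (p : ℤ), (B ++ l).Nodup → p + 2 + l.length ≤ N →
      ∀ ζ : Om (Fin N) (MvPolynomial (Fin N) ℂ), pr p ζ = ζ →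
      (∀ j ∈ B, WW (TT F) (j :: l) ζ ∈ cf (FI F (j :: l))) →
      ζ ∈ LL F B ⊔ (IM (TT F) l ⊔ cf (FI F l)) := by
  induction B with
  | nil =>
    intro l p _ _ ζ _ _
    exact Submodule.mem_sup_left Submodule.mem_top
  | cons b B ih =>
    intro l p hnd hpN ζ hζ hcond
    rcases lt_or_ge p 0 with hp0 | hp0
    · rw [← hζ, pr_neg p hp0]
      exact Submodule.zero_mem _
    have hnd' : b ∉ B ++ l ∧ (B ++ l).Nodup := by
      rw [List.cons_append, List.nodup_cons] at hnd
      exact hnd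
    have hbB : b ∉ B := fun h => hnd'.1 (List.mem_append_left _ h)
    have hbl : b ∉ l := fun h => hnd'.1 (List.mem_append_right _ h)
    have hlnd : l.Nodup := (List.nodup_append.1 hnd'.2).2.1
    have hBl : ∀ j ∈ B, j ∉ l := fun j hj hjl => (List.nodup_append.1 hnd'.2).2.2 j hj j hjl rfl
    -- step 1
    have h1 := division F e hF he hS hC (b :: l) (List.nodup_cons.2 ⟨hbl, hlnd⟩)
      (by rw [List.length_cons]; omega) p (by rw [List.length_cons]; push_cast; omega) ζ hζ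
      (hcond b (List.mem_cons_self ..))
    obtain ⟨u, hu, z, hz, hsum⟩ := Submodule.mem_sup.1 h1
    rw [IM] at hu
    obtain ⟨_, ⟨ρ0, rfl⟩, y0, hy0, rfl⟩ := Submodule.mem_sup.1 hu
    obtain ⟨ζ0, z0, hz0, rfl⟩ := mem_cf_cons F b l z hz
    set ρ := pr (p - 1) ρ0 with hρ
    set w0 := pr p y0 + pr p z0 with hw0
    have hw0m : w0 ∈ IM (TT F) l ⊔ cf (FI F l) :=
      Submodule.add_mem_sup (pr_IM (TT F) (fun p => pr p) (fun p k x => pr_ee p _ x) l p y0 hy0)
        (pr_cf p hz0)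
    have h2 : ζ = TT F b ρ + F b • pr p ζ0 + w0 := by
      rw [hρ, hw0, ← pr_ee, sub_add_cancel, ← hζ, ← hsum]
      simp only [map_add, map_smul, pr_pr]
      abel
    -- step 2
    have h3 : ∀ j ∈ B, WW (TT F) (j :: b :: l) ρ ∈ cf (FI F (j :: b :: l)) := by
      intro j hj
      have h4 : WW (TT F) (j :: b :: l) ρ =
          - (WW (TT F) (j :: l) ζ - F b • WW (TT F) (j :: l) (pr p ζ0) -
            WW (TT F) (j :: l) w0) := by
        rw [h2, map_add, map_add, map_smul]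
        change WW (TT F) l (TT F b (TT F j ρ)) = - (WW (TT F) l (TT F j (TT F b ρ)) + _ + _ - _ - _)
        rw [TT_anti F b j, map_neg]
        abel
      rw [h4]
      refine Submodule.neg_mem _ (Submodule.sub_mem _ (Submodule.sub_mem _ ?_ ?_) ?_)
      · exact cf_le (FI_le F fun k hk => by
          rcases List.mem_cons.1 hk with rfl | hk
          · exact List.mem_cons_self ..
          · exact List.mem_cons_of_mem _ (List.mem_cons_of_mem _ hk))
          (hcond j (List.mem_cons_of_mem _ hj))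
      · intro S
        rw [Pi.smul_apply, smul_eq_mul]
        exact Ideal.mul_mem_right _ _ (FI_mem F (List.mem_cons_of_mem _ (List.mem_cons_self ..)))
      · exact cf_le (FI_le F fun k hk => List.mem_cons_of_mem _ (List.mem_cons_of_mem _ hk))
          (WW_stuff F l j w0 hw0m)
    have h5 := ih (b :: l) (p - 1) (by
        rw [List.nodup_append]
        refine ⟨(List.nodup_append.1 hnd'.2).1, List.nodup_cons.2 ⟨hbl, hlnd⟩, ?_⟩
        intro x hx y hy hxy
        subst hxy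
        rcases List.mem_cons.1 hy with rfl | hy
        · exact hbB hx
        · exact hBl x hx hy) (by rw [List.length_cons]; push_cast; omega) ρ (pr_pr _ _) h3
    obtain ⟨ρ1, hρ1, u, hu, hsum2⟩ := Submodule.mem_sup.1 h5
    obtain ⟨u', hu', z1, hz1, rfl⟩ := Submodule.mem_sup.1 hu
    rw [IM] at hu'
    obtain ⟨_, ⟨α, rfl⟩, y1, hy1, rfl⟩ := Submodule.mem_sup.1 hu'
    obtain ⟨ρ', z1', hz1', rfl⟩ := mem_cf_cons F b l z1 hz1
    -- step 3
    set ζ2 := pr p (pr p ζ0 + TT F b ρ') with hζ2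
    set ρ2 := pr (p - 1) ρ1 with hρ2
    have hρ2m : ρ2 ∈ LL F B := pr_LL F B _ ρ1 hρ1
    set w := w0 + (pr p (TT F b y1) + pr p (TT F b z1')) with hw
    have hwm : w ∈ IM (TT F) l ⊔ cf (FI F l) :=
      Submodule.add_mem _ hw0m (Submodule.add_mem_sup
        (pr_IM (TT F) (fun p => pr p) (fun p k x => pr_ee p _ x) l p _
          (T_IM (TT F) (TT_anti F) l b y1 hy1)) (pr_cf p (ee_cf _ hz1')))
    have h6 : ζ = TT F b ρ2 + F b • ζ2 + w := by
      have h7 : TT F b ρ = pr p (TT F b ρ) := by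
        rw [show pr p (TT F b ρ) = pr ((p - 1) + 1) (TT F b ρ) by rw [sub_add_cancel], pr_ee, hρ,
          pr_pr]
      have h8 : pr p (TT F b ρ) = TT F b ρ2 + pr p (TT F b y1) + F b • pr p (TT F b ρ') +
          pr p (TT F b z1') := by
        have h9 : TT F b ρ = TT F b ρ1 + (TT F b y1 + (F b • TT F b ρ' + TT F b z1')) := by
          rw [← hsum2, map_add, map_add, map_add, map_add, TT_self, zero_add, map_smul]
        have h10 : pr p (TT F b ρ1) = TT F b ρ2 := by
          rw [hρ2, ← pr_ee, sub_add_cancel]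
        rw [h9, map_add, map_add, map_add, map_smul, h10]
        abel
      conv_lhs => rw [h2, h7, h8]
      rw [hw, hζ2, map_add, pr_pr, smul_add]
      abel
    have h11 : ∀ j ∈ B, WW (TT F) (j :: l) ζ2 ∈ cf (FI F (j :: l)) := by
      intro j hj
      have h12 : F b • WW (TT F) (j :: l) ζ2 = WW (TT F) (j :: l) ζ -
          WW (TT F) (j :: l) (TT F b ρ2) - WW (TT F) (j :: l) w := by
        rw [h6, map_add, map_add, map_smul]
        abel
      have h13 : F b • WW (TT F) (j :: l) ζ2 ∈ cf (FI F (j :: l)) := by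
        rw [h12]
        refine Submodule.sub_mem _ (Submodule.sub_mem _ (hcond j (List.mem_cons_of_mem _ hj)) ?_)
          (cf_le (FI_le F fun k hk => List.mem_cons_of_mem _ hk) (WW_stuff F l j w hwm))
        change WW (TT F) l (TT F j (TT F b ρ2)) ∈ _
        rw [TT_anti]
        obtain ⟨y, hy⟩ := LL_log F B j hj ρ2 hρ2m
        rw [hy, map_neg, map_smul, map_smul]
        refine Submodule.neg_mem _ fun S => ?_
        rw [Pi.smul_apply, smul_eq_mul]
        exact Ideal.mul_mem_right _ _ (FI_mem F (List.mem_cons_self ..))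
      intro S
      have h14 := h13 S
      rw [Pi.smul_apply, smul_eq_mul] at h14
      refine nzd F e hF he hC (j :: l) b ?_ (by rw [List.length_cons]; omega) _ h14
      rw [List.nodup_cons, List.nodup_cons]
      refine ⟨?_, hBl j hj, hlnd⟩
      rw [List.mem_cons]
      rintro (rfl | h)
      · exact hbB hj
      · exact hbl h
    have h15 := ih l p hnd'.2 hpN ζ2 (pr_pr _ _) h11
    obtain ⟨ζ3, hζ3, w3, hw3, h16⟩ := Submodule.mem_sup.1 h15
    rw [h6, ← h16, smul_add]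
    have h17 : TT F b ρ2 + (F b • ζ3 + F b • w3) + w = (TT F b ρ2 + F b • ζ3) + (F b • w3 + w) := by
      abel
    rw [h17]
    refine Submodule.add_mem_sup ?_ (Submodule.add_mem _ (Submodule.smul_mem _ _ hw3) hwm)
    rw [mem_LL_cons]
    exact ⟨ρ2, hρ2m, ζ3, hζ3, rfl⟩

/-- the case without restriction -/
theorem glemma0 (F : ι → MvPolynomial (Fin N) ℂ) (e : ι → ℕ) (hF : ∀ k, (F k).IsHomogeneous (e k))
    (he : ∀ k, 0 < e k) (hS : SNC F) (hC : Comp F) (B : List ι) (hB : B.Nodup)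
    (ζ : Om (Fin N) (MvPolynomial (Fin N) ℂ)) (hζ : pr ((N : ℤ) - 2) ζ = ζ)
    (hcond : ∀ j ∈ B, ∃ y, TT F j ζ = F j • y) : ζ ∈ LL F B := by
  have h1 := glemma F e hF he hS hC B [] ((N : ℤ) - 2) (by simpa using hB) (by simp) ζ hζ
    (fun j hj => by
      obtain ⟨y, hy⟩ := hcond j hj
      change TT F j ζ ∈ _
      rw [hy]
      intro S
      rw [Pi.smul_apply, smul_eq_mul]
      exact Ideal.mul_mem_right _ _ (FI_mem F (List.mem_singleton_self j)))
  obtain ⟨u, hu, v, hv, rfl⟩ := Submodule.mem_sup.1 h1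
  obtain ⟨y, hy, z, hz, rfl⟩ := Submodule.mem_sup.1 hv
  rw [IM, Submodule.mem_bot] at hy
  have hz0 : z = 0 := by
    funext S
    have := hz S
    rw [FI] at this
    simpa using this
  rw [hy, hz0, add_zero, add_zero]
  exact hu

end Pool.Agent.Helper48.SN
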