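import Pool.Agent.Helper48.SN.Divi

set_option autoImplicit false
set_option linter.unusedSectionVars false

/-! # Points of a smooth complete intersection outside a transversal hypersurface -/

namespace Pool.Agent.Helper48.SN

open Finset MvPolynomial Filter Topology

variable {N : ℕ} {ι : Type} [DecidableEq ι]

theorem dual_vectors {κ : Type} [Fintype κ] [DecidableEq κ] (u : κ → Fin N → ℂ)
    (h : LinearIndependent ℂ u) :
    ∃ V : κ → Fin N → ℂ, ∀ k m, ∑ j, V k j * u m j = if k = m then 1 else 0 := by
  classical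
  have hinj : LinearMap.ker (Fintype.linearCombination ℂ u) = ⊥ := by
    rw [LinearMap.ker_eq_bot]
    exact h.fintypeLinearCombination_injective
  obtain ⟨g, hg⟩ := LinearMap.exists_leftInverse_of_injective _ hinj
  have hgu : ∀ m : κ, g (u m) = Pi.single m 1 := by
    intro m
    have h3 := LinearMap.congr_fun hg (Pi.single m (1 : ℂ))
    rw [LinearMap.comp_apply, Fintype.linearCombination_apply_single, one_smul] at h3
    exact h3
  refine ⟨fun k j => g (Pi.single j 1) k, fun k m => ?_⟩
  have h4 : u m = ∑ j, u m j • (Pi.single j (1 : ℂ) : Fin N → ℂ) := by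
    funext i
    rw [Finset.sum_apply, Finset.sum_eq_single i]
    · rw [Pi.smul_apply, Pi.single_eq_same, smul_eq_mul, mul_one]
    · intro j _ hj
      rw [Pi.smul_apply, Pi.single_eq_of_ne (Ne.symm hj), smul_zero]
    · intro h
      exact absurd (Finset.mem_univ i) h
  have h5 := congrFun (hgu m) k
  rw [h4, map_sum, Finset.sum_apply] at h5
  simp only [map_smul, Pi.smul_apply, smul_eq_mul] at h5
  rw [Pi.single_apply] at h5
  rw [← h5]
  exact Finset.sum_congr rfl fun j _ => mul_comm _ _

/-- the differential of a polynomial at a point -/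
noncomputable def dif (p : MvPolynomial (Fin N) ℂ) (x : Fin N → ℂ) : (Fin N → ℂ) →L[ℂ] ℂ :=
  ∑ j, eval x (pderiv j p) • ContinuousLinearMap.proj j

theorem dif_apply (p : MvPolynomial (Fin N) ℂ) (x v : Fin N → ℂ) :
    dif p x v = ∑ j, eval x (pderiv j p) * v j := by
  rw [dif, ContinuousLinearMap.sum_apply]
  rfl

theorem strict (p : MvPolynomial (Fin N) ℂ) (x : Fin N → ℂ) :
    HasStrictFDerivAt (fun x => eval x p) (dif p x) x := by
  induction p using MvPolynomial.induction_on with
  | C a =>
    have h : dif (C a : MvPolynomial (Fin N) ℂ) x = 0 := by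
      ext v
      simp [dif_apply]
    rw [h]
    simp only [eval_C]
    exact hasStrictFDerivAt_const a x
  | add p q hp hq =>
    have h : dif (p + q) x = dif p x + dif q x := by
      ext v
      simp [dif_apply, add_mul, Finset.sum_add_distrib]
    rw [h]
    simp only [map_add]
    exact hp.add hq
  | mul_X p n hp =>
    have h : dif (p * X n) x = eval x p • (ContinuousLinearMap.proj n : (Fin N → ℂ) →L[ℂ] ℂ) +
        x n • dif p x := by
      refine ContinuousLinearMap.ext fun v => ?_
      rw [dif_apply, ContinuousLinearMap.add_apply, ContinuousLinearMap.smul_apply,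
        ContinuousLinearMap.smul_apply, dif_apply, smul_eq_mul, smul_eq_mul, Finset.mul_sum]
      have h1 : ∀ j, eval x (pderiv j (p * X n)) * v j =
          x n * (eval x (pderiv j p) * v j) + (if j = n then eval x p * v n else 0) := by
        intro j
        rw [pderiv_mul, map_add, map_mul, map_mul, eval_X, pderiv_X]
        split_ifs with h2
        · subst h2
          rw [Pi.single_eq_same, map_one]
          ring
        · rw [Pi.single_eq_of_ne (Ne.symm h2), map_zero]
          ring
      rw [Finset.sum_congr rfl fun j _ => h1 j, Finset.sum_add_distrib, Finset.sum_ite_eq',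
        if_pos (Finset.mem_univ n), add_comm]
      rfl
    rw [h]
    simp only [map_mul, eval_X]
    exact hp.mul (hasStrictFDerivAt_apply n x)

/-- Near a point where the hypersurfaces cross normally there is a point of all but one of them. -/
theorem exists_near (F : ι → MvPolynomial (Fin N) ℂ) (I : Finset ι) (b : ι)
    (hb : b ∈ I) (x : Fin N → ℂ) (h0 : ∀ i ∈ I, eval x (F i) = 0)
    (hli : LinearIndependent ℂ fun (i : I) (j : Fin N) => eval x (pderiv j (F i)))
    (h : MvPolynomial (Fin N) ℂ) (hh : eval x h ≠ 0) :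
    ∃ y : Fin N → ℂ, (∀ i ∈ I, i ≠ b → eval y (F i) = 0) ∧ eval y (F b) ≠ 0 ∧ eval y h ≠ 0 := by
  obtain ⟨V, hV⟩ := dual_vectors _ hli
  set Φ : (Fin N → ℂ) → (I → ℂ) := fun y i => eval y (F i) with hΦ
  have h1 : HasStrictFDerivAt Φ (ContinuousLinearMap.pi fun i : I => dif (F i) x) x := by
    rw [hasStrictFDerivAt_pi]
    exact fun i => strict (F i) x
  have h2 : (ContinuousLinearMap.pi fun i : I => dif (F i) x).range = ⊤ := by
    rw [LinearMap.range_eq_top]
    intro c
    refine ⟨∑ k, c k • V k, ?_⟩
    funext m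
    change dif (F m) x (∑ k, c k • V k) = c m
    rw [map_sum, Finset.sum_eq_single m]
    · rw [map_smul, dif_apply]
      have h3 := hV m m
      rw [if_pos rfl] at h3
      rw [Finset.sum_congr rfl fun j _ => mul_comm _ (V m j), h3, smul_eq_mul, mul_one]
    · intro k _ hk
      rw [map_smul, dif_apply]
      have h3 := hV k m
      rw [if_neg hk] at h3
      rw [Finset.sum_congr rfl fun j _ => mul_comm _ (V k j), h3, smul_zero]
    · intro h
      exact absurd (Finset.mem_univ m) h
  have h3 := h1.map_nhds_eq_of_surj h2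
  have h4 : Φ x = 0 := by
    funext i
    exact h0 i i.2
  rw [h4] at h3
  have h5 : {y : Fin N → ℂ | eval y h ≠ 0} ∈ 𝓝 x := by
    refine IsOpen.mem_nhds ?_ hh
    exact isOpen_ne_fun (MvPolynomial.continuous_eval h) continuous_const
  have h6 : Φ '' {y : Fin N → ℂ | eval y h ≠ 0} ∈ 𝓝 (0 : I → ℂ) := by
    rw [← h3]
    exact image_mem_map h5
  have h7 : Tendsto (fun t : ℂ => (t • (Pi.single (⟨b, hb⟩ : I) (1 : ℂ) : I → ℂ))) (𝓝 0) (𝓝 0) := by
    have h8 : Continuous (fun t : ℂ => (t • (Pi.single (⟨b, hb⟩ : I) (1 : ℂ) : I → ℂ))) :=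
      continuous_id.smul continuous_const
    have h9 := h8.tendsto 0
    rwa [zero_smul] at h9
  have h8 := h7.eventually h6
  have h9 : ∀ᶠ t in 𝓝[≠] (0 : ℂ), (t • (Pi.single (⟨b, hb⟩ : I) (1 : ℂ) : I → ℂ)) ∈
      Φ '' {y : Fin N → ℂ | eval y h ≠ 0} := h8.filter_mono nhdsWithin_le_nhds
  obtain ⟨t, ⟨y, hy, hyt⟩, ht⟩ := (h9.and self_mem_nhdsWithin).exists
  refine ⟨y, fun i hi hib => ?_, ?_, hy⟩
  · have h10 := congrFun hyt ⟨i, hi⟩
    rw [Pi.smul_apply, Pi.single_eq_of_ne (by
      intro h
      exact hib (congrArg Subtype.val h)), smul_zero] at h10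
    exact h10
  · have h10 := congrFun hyt ⟨b, hb⟩
    rw [Pi.smul_apply, Pi.single_eq_same, smul_eq_mul, mul_one] at h10
    change eval y (F b) = t at h10
    rw [h10]
    exact ht

end Pool.Agent.Helper48.SN
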