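import Pool.Agent.Helper48.SN.Log

set_option autoImplicit false
set_option linter.unusedSectionVars false

/-! # The reduction of the poles -/

namespace Pool.Agent.Helper48.SN

open Finset MvPolynomial Pool.Agent.H119.LSS

theorem anti_sum' {ι M : Type} [DecidableEq ι] [AddCommGroup M] (s : Finset ι) (g : ι → ι → M)
    (h0 : ∀ i, g i i = 0) (h : ∀ i j, g i j = - g j i) : ∑ i ∈ s, ∑ j ∈ s, g i j = 0 := by
  rw [← Finset.sum_product' s s (fun i j => g i j)]
  refine Finset.sum_involution (fun p _ => (p.2, p.1)) ?_ ?_ ?_ ?_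
  · rintro ⟨i, j⟩ _
    simp only
    rw [h i j, neg_add_cancel]
  · rintro ⟨i, j⟩ _ hne heq
    simp only [Prod.mk.injEq] at heq
    apply hne
    simp only
    rw [heq.1, h0]
  · rintro ⟨i, j⟩ hm
    rw [Finset.mem_product] at hm ⊢
    exact ⟨hm.2, hm.1⟩
  · rintro ⟨i, j⟩ _; rfl

variable {N : ℕ} {ι : Type} [DecidableEq ι] [Fintype ι]

theorem F_ne (hN : 0 < N) (F : ι → MvPolynomial (Fin N) ℂ) (hS : SNC F) (k : ι) : F k ≠ 0 := by
  intro h
  have h1 := hS {k} (fun _ => 1) (fun h2 => one_ne_zero (congrFun h2 ⟨0, hN⟩)) (by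
    intro i hi
    rw [Finset.mem_singleton] at hi
    rw [hi, h, map_zero])
  have h2 := h1.ne_zero (⟨k, Finset.mem_singleton_self k⟩ : ({k} : Finset ι))
  apply h2
  funext j
  simp only [h, map_zero]
  rfl

theorem smul_cancel {a : MvPolynomial (Fin N) ℂ} (ha : a ≠ 0)
    {x y : Om (Fin N) (MvPolynomial (Fin N) ℂ)} (h : a • x = a • y) : x = y := by
  funext S
  have h1 := congrFun h S
  exact mul_left_cancel₀ ha h1

/-- the contraction of the volume form with the Euler vector field -/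
noncomputable def Om0 (N : ℕ) : Om (Fin N) (MvPolynomial (Fin N) ℂ) := ii (fun i => X i) vol

theorem pr_Om0 : pr ((N : ℤ) - 1) (Om0 N) = Om0 N := by
  have h := pr_ii ((N : ℤ) - 1) (fun i : Fin N => (X i : MvPolynomial (Fin N) ℂ)) vol
  rw [sub_add_cancel] at h
  have h2 := pr_vol (σ := Fin N)
  rw [Fintype.card_fin] at h2
  rw [Om0, h, h2]

/-- the equation -/
def PP (F : ι → MvPolynomial (Fin N) ℂ) (lam : ι → ℂ) (κ : ι → ℕ) : Prop :=
  ∃ (ζ : Om (Fin N) (MvPolynomial (Fin N) ℂ)) (τ : ι → Om (Fin N) (MvPolynomial (Fin N) ℂ)),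
    pr ((N : ℤ) - 2) ζ = ζ ∧ (∀ i, TT F i ζ = F i • τ i) ∧
    dd ζ - ∑ i, (lam i + κ i) • τ i = - ((∏ i, F i ^ κ i) • Om0 N)

theorem PP_of (F : ι → MvPolynomial (Fin N) ℂ) (lam : ι → ℂ) (κ : ι → ℕ)
    (ζ : Om (Fin N) (MvPolynomial (Fin N) ℂ)) (τ : ι → Om (Fin N) (MvPolynomial (Fin N) ℂ))
    (h1 : ∀ i, TT F i ζ = F i • τ i)
    (h2 : dd ζ - ∑ i, (lam i + κ i) • τ i = - ((∏ i, F i ^ κ i) • Om0 N)) : PP F lam κ := by
  refine ⟨pr ((N : ℤ) - 2) ζ, fun i => pr ((N : ℤ) - 1) (τ i), pr_pr _ _, fun i => ?_, ?_⟩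
  · have h3 := pr_ee ((N : ℤ) - 2) (grad (F i)) ζ
    rw [show (N : ℤ) - 2 + 1 = N - 1 by ring] at h3
    rw [← h3]
    change pr ((N : ℤ) - 1) (TT F i ζ) = _
    rw [h1, map_smul]
  · have h3 := pr_dd ((N : ℤ) - 2) ζ
    rw [show (N : ℤ) - 2 + 1 = N - 1 by ring] at h3
    rw [← h3]
    have h4 := congrArg (pr ((N : ℤ) - 1)) h2
    rw [map_neg, map_smul, pr_Om0, map_sub, map_sum] at h4
    rw [← h4]
    congr 1
    refine Finset.sum_congr rfl fun i _ => ?_
    rw [LinearMap.map_smul_of_tower]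

theorem reduce (hN : 2 ≤ N) (F : ι → MvPolynomial (Fin N) ℂ) (e : ι → ℕ)
    (hF : ∀ k, (F k).IsHomogeneous (e k)) (he : ∀ k, 0 < e k) (hS : SNC F) (hC : Comp F)
    (lam : ι → ℂ) (hlam : ∀ (i : ι) (m : ℕ), lam i + m ≠ 0) (κ : ι → ℕ) (b : ι) (m : ℕ)
    (hb : κ b = m + 1) (h : PP F lam κ) : PP F lam (Function.update κ b m) := by
  classical
  obtain ⟨ζ, τ, hζ, hτ, heq⟩ := h
  have hne : ∀ k, F k ≠ 0 := F_ne (by omega) F hS
  set B := (Finset.univ.erase b).toList with hB
  have hBm : ∀ i, i ∈ B ↔ i ≠ b := by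
    intro i
    rw [hB, Finset.mem_toList, Finset.mem_erase]
    simp
  have hbB : (b :: B).Nodup := by
    rw [List.nodup_cons]
    exact ⟨fun h => (hBm b).1 h rfl, Finset.nodup_toList _⟩
  have h1 := glemma0 F e hF he hS hC (b :: B) hbB ζ hζ (fun j _ => ⟨τ j, hτ j⟩)
  rw [mem_LL_cons] at h1
  obtain ⟨ρ, hρ, ζ0, hζ0, hζe⟩ := h1
  have h2 : ∀ i, ∃ y, i ≠ b → TT F i ρ = F i • y := by
    intro i
    by_cases hi : i = b
    · exact ⟨0, fun h => absurd hi h⟩
    · obtain ⟨y, hy⟩ := LL_log F B i ((hBm i).2 hi) ρ hρ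
      exact ⟨y, fun _ => hy⟩
  choose τρ hτρ using h2
  have h3 : ∀ i, ∃ y, i ≠ b → TT F i ζ0 = F i • y := by
    intro i
    by_cases hi : i = b
    · exact ⟨0, fun h => absurd hi h⟩
    · obtain ⟨y, hy⟩ := LL_log F B i ((hBm i).2 hi) ζ0 hζ0
      exact ⟨y, fun _ => hy⟩
  choose τ0 hτ0 using h3
  -- the double quotients
  have h4 : ∀ i l, ∃ y, i ≠ b → l ≠ b → TT F i (τρ l) = F i • y := by
    intro i l
    by_cases hi : i = b
    · exact ⟨0, fun h => absurd hi h⟩
    by_cases hl : l = b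
    · exact ⟨0, fun _ h => absurd hl h⟩
    rcases eq_or_ne i l with rfl | hil
    · refine ⟨0, fun _ _ => ?_⟩
      have h5 : F i • TT F i (τρ i) = F i • (0 : Om (Fin N) (MvPolynomial (Fin N) ℂ)) := by
        rw [← map_smul, ← hτρ i hi, TT_self, smul_zero]
      rw [smul_cancel (hne i) h5, smul_zero]
    · have h6 : F l • TT F i (τρ l) = F i • (- TT F l (τρ i)) := by
        rw [← map_smul, ← hτρ l hl, TT_anti, hτρ i hi, map_smul, smul_neg]
      have h7 : ∀ S, ∃ c, TT F i (τρ l) S = F i * c := by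
        intro S
        have h8 := congrFun h6 S
        rw [Pi.smul_apply, Pi.smul_apply, smul_eq_mul, smul_eq_mul] at h8
        have h9 := nzd F e hF he hC [i] l (by
          rw [List.nodup_cons]
          exact ⟨by simpa using Ne.symm hil, List.nodup_singleton i⟩) (by simpa using hN)
          (TT F i (τρ l) S) (by
            rw [h8]
            exact Ideal.mul_mem_right _ _ (FI_mem F (List.mem_singleton_self i)))
        have h10 : FI F [i] = Ideal.span {F i} := by
          rw [FI]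
          congr 1
          ext x
          simp [eq_comm]
        rw [h10] at h9
        obtain ⟨c, hc⟩ := Ideal.mem_span_singleton'.1 h9
        exact ⟨c, by rw [← hc, mul_comm]⟩
      choose c hc using h7
      exact ⟨c, fun _ _ => funext hc⟩
  choose τ2 hτ2 using h4
  -- antisymmetry
  set g : ι → ι → Om (Fin N) (MvPolynomial (Fin N) ℂ) := fun i l =>
    if i = b ∨ l = b then 0 else (lam i + κ i) • (lam l + κ l) • τ2 i l with hg
  have hg0 : ∀ i, g i i = 0 := by
    intro i
    rw [hg]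
    simp only [or_self]
    split_ifs with hi
    · rfl
    · have h5 : F i • F i • τ2 i i = F i • F i • (0 : Om (Fin N) (MvPolynomial (Fin N) ℂ)) := by
        rw [← hτ2 i i hi hi, ← map_smul, ← hτρ i hi, TT_self, smul_zero, smul_zero]
      rw [smul_cancel (hne i) (smul_cancel (hne i) h5), smul_zero, smul_zero]
  have hg1 : ∀ i l, g i l = - g l i := by
    intro i l
    rw [hg]
    simp only
    by_cases hi : i = b
    · rw [if_pos (Or.inl hi), if_pos (Or.inr hi), neg_zero]
    by_cases hl : l = b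
    · rw [if_pos (Or.inr hl), if_pos (Or.inl hl), neg_zero]
    rw [if_neg (by simp [hi, hl]), if_neg (by simp [hi, hl])]
    have h5 : F l • F i • τ2 i l = F l • F i • (- τ2 l i) := by
      rw [← hτ2 i l hi hl, ← map_smul, ← hτρ l hl, smul_comm (F l) (F i), smul_neg,
        ← hτ2 l i hl hi, smul_neg, ← map_smul, ← hτρ i hi, TT_anti]
    rw [smul_cancel (hne i) (smul_cancel (hne l) h5), smul_neg, smul_neg, smul_comm]
  have hgs : ∑ i ∈ Finset.univ.erase b, ∑ l ∈ Finset.univ.erase b,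
      (lam i + κ i) • (lam l + κ l) • τ2 i l = 0 := by
    rw [← anti_sum' (Finset.univ.erase b) g hg0 hg1]
    refine Finset.sum_congr rfl fun i hi => Finset.sum_congr rfl fun l hl => ?_
    rw [hg]
    simp only
    rw [if_neg (by simp [Finset.ne_of_mem_erase hi, Finset.ne_of_mem_erase hl])]
  set Xx := dd ρ - ∑ i ∈ Finset.univ.erase b, (lam i + κ i) • τρ i with hXx
  set Yy := dd ζ0 - ∑ i ∈ Finset.univ.erase b, (lam i + κ i) • τ0 i with hYy
  set c : ℂ := (lam b + m)⁻¹ with hc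
  have hc1 : c * (lam b + m) = 1 := inv_mul_cancel₀ (hlam b m)
  set ζ1 := ζ0 + c • Xx with hζ1
  set κ' := Function.update κ b m with hκ'
  have hprod : ∏ i, F i ^ κ i = F b * ∏ i, F i ^ κ' i := by
    rw [← Finset.mul_prod_erase Finset.univ (fun i => F i ^ κ i) (Finset.mem_univ b),
      ← Finset.mul_prod_erase Finset.univ (fun i => F i ^ κ' i) (Finset.mem_univ b)]
    have h5 : ∏ x ∈ Finset.univ.erase b, F x ^ κ x = ∏ x ∈ Finset.univ.erase b, F x ^ κ' x := by
      refine Finset.prod_congr rfl fun i hi => ?_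
      rw [hκ', Function.update_of_ne (Finset.ne_of_mem_erase hi)]
    rw [h5, hb, hκ', Function.update_self, pow_succ]
    ring
  -- the values of `τ`
  have hτb : τ b = TT F b ζ0 := by
    refine smul_cancel (hne b) ?_
    rw [← hτ b, hζe, map_add, TT_self, zero_add, map_smul]
  have hτi : ∀ i, i ≠ b → τ i = - TT F b (τρ i) + F b • τ0 i := by
    intro i hi
    refine smul_cancel (hne i) ?_
    rw [← hτ i, hζe, map_add, TT_anti, hτρ i hi, map_smul, map_smul, hτ0 i hi, smul_add, smul_neg,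
      smul_comm (F b)]
  have hsm : ∀ (z : ℂ) (i : ι) (x : Om (Fin N) (MvPolynomial (Fin N) ℂ)),
      TT F i (z • x) = z • TT F i x := fun z i x => LinearMap.map_smul_of_tower _ z x
  have hsmF : ∀ (z : ℂ) (p : MvPolynomial (Fin N) ℂ) (x : Om (Fin N) (MvPolynomial (Fin N) ℂ)),
      p • z • x = z • p • x := fun z p x => smul_comm p z x
  -- the main equation
  have hdζ : dd (TT F b ρ + F b • ζ0) = - TT F b (dd ρ) + (TT F b ζ0 + F b • dd ζ0) := by
    have h5 := dd_ee (F b) ρ
    have h6 := dd_smul (F b) ζ0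
    change dd (TT F b ρ) = - TT F b (dd ρ) at h5
    change dd (F b • ζ0) = TT F b ζ0 + F b • dd ζ0 at h6
    rw [map_add, h5, h6]
  have hmain : - ((lam b + m) • TT F b ζ1) + F b • Yy = - (F b • (∏ i, F i ^ κ' i) • Om0 N) := by
    rw [← mul_smul, ← hprod, ← heq, ← Finset.add_sum_erase Finset.univ _ (Finset.mem_univ b), hτb,
      Finset.sum_congr rfl fun i hi => by rw [hτi i (Finset.ne_of_mem_erase hi)], hζe, hdζ,
      hb, hζ1, map_add, hsm, smul_add, smul_smul, mul_comm (lam b + ↑m) c, hc1,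
      one_smul, hXx, hYy, map_sub, map_sum, smul_sub, Finset.smul_sum]
    simp only [hsm, smul_add, smul_neg, Finset.sum_add_distrib, Finset.sum_neg_distrib, hsmF]
    push_cast
    rw [show lam b + ((m : ℂ) + 1) = (lam b + m) + 1 by ring, add_smul _ (1 : ℂ), one_smul]
    abel
  set τ1 : ι → Om (Fin N) (MvPolynomial (Fin N) ℂ) := fun i =>
    if i = b then c • (Yy + (∏ i, F i ^ κ' i) • Om0 N) else
      τ0 i + c • (- dd (τρ i) - ∑ l ∈ Finset.univ.erase b, (lam l + κ l) • τ2 i l) with hτ1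
  have hdρ : ∀ i, i ≠ b → TT F i (dd ρ) = F i • (- dd (τρ i)) := by
    intro i hi
    have h5 : TT F i (τρ i) = 0 := by
      have h6 : F i • TT F i (τρ i) = F i • (0 : Om (Fin N) (MvPolynomial (Fin N) ℂ)) := by
        rw [← map_smul, ← hτρ i hi, TT_self, smul_zero]
      exact smul_cancel (hne i) h6
    have h7 := dd_ee (F i) ρ
    change dd (TT F i ρ) = - TT F i (dd ρ) at h7
    rw [hτρ i hi, dd_smul] at h7
    change TT F i (τρ i) + _ = _ at h7
    rw [h5, zero_add] at h7
    rw [smul_neg, h7, neg_neg]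
  refine PP_of F lam κ' ζ1 τ1 (fun i => ?_) ?_
  · rw [hτ1]
    simp only
    split_ifs with hi
    · subst hi
      have h5 : (lam i + m) • TT F i ζ1 = F i • (Yy + (∏ i, F i ^ κ' i) • Om0 N) := by
        rw [smul_add, ← sub_eq_zero]
        have h6 := hmain
        rw [← sub_eq_zero] at h6
        rw [← neg_eq_zero, ← h6]
        abel
      rw [hsmF, ← h5, smul_smul, hc1, one_smul]
    · rw [hζ1, map_add, hτ0 i hi, smul_add, hsm, hXx, map_sub, hdρ i hi, map_sum, hsmF, smul_sub (F i),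
        Finset.smul_sum]
      congr 3
      refine Finset.sum_congr rfl fun l hl => ?_
      rw [hsm, hτ2 i l hi (Finset.ne_of_mem_erase hl), hsmF]
  · rw [← Finset.add_sum_erase Finset.univ _ (Finset.mem_univ b)]
    have h5 : ∑ i ∈ Finset.univ.erase b, (lam i + κ' i) • τ1 i =
        ∑ i ∈ Finset.univ.erase b, (lam i + κ i) • τ0 i -
          c • ∑ i ∈ Finset.univ.erase b, (lam i + κ i) • dd (τρ i) := by
      have h6 : ∑ i ∈ Finset.univ.erase b, (lam i + κ' i) • τ1 i =
          ∑ i ∈ Finset.univ.erase b, ((lam i + κ i) • τ0 i - c • (lam i + κ i) • dd (τρ i) -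
            c • ∑ l ∈ Finset.univ.erase b, (lam i + κ i) • (lam l + κ l) • τ2 i l) := by
        refine Finset.sum_congr rfl fun i hi => ?_
        have hi' := Finset.ne_of_mem_erase hi
        rw [hτ1, hκ', Function.update_of_ne hi']
        simp only
        rw [if_neg hi', smul_add, smul_comm _ c, smul_sub, smul_neg, smul_sub, smul_neg,
          Finset.smul_sum (r := lam i + κ i)]
        abel
      rw [h6, Finset.sum_sub_distrib, Finset.sum_sub_distrib, ← Finset.smul_sum, ← Finset.smul_sum,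
        hgs, smul_zero, sub_zero]
    have h7 : dd ζ1 = dd ζ0 - c • ∑ i ∈ Finset.univ.erase b, (lam i + κ i) • dd (τρ i) := by
      rw [hζ1, map_add, map_smul, hXx, map_sub, dd_dd, zero_sub, map_sum, smul_neg,
        ← sub_eq_add_neg]
      congr 2
      exact Finset.sum_congr rfl fun i _ => by rw [map_smul]
    have h8 : (lam b + κ' b) • τ1 b = Yy + (∏ i, F i ^ κ' i) • Om0 N := by
      rw [hτ1, hκ', Function.update_self]
      simp only [if_true]
      rw [smul_smul, mul_comm, hc1, one_smul]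
    rw [h5, h7, h8, hYy]
    abel

/-- all the poles can be removed -/
theorem reduce_all (hN : 2 ≤ N) (F : ι → MvPolynomial (Fin N) ℂ) (e : ι → ℕ)
    (hF : ∀ k, (F k).IsHomogeneous (e k)) (he : ∀ k, 0 < e k) (hS : SNC F) (hC : Comp F)
    (lam : ι → ℂ) (hlam : ∀ (i : ι) (m : ℕ), lam i + m ≠ 0) :
    ∀ (n : ℕ) (κ : ι → ℕ), ∑ i, κ i = n → PP F lam κ → PP F lam 0 := by
  intro n
  induction n with
  | zero =>
    intro κ hκ h
    have h1 : κ = 0 := by
      funext i
      exact Finset.sum_eq_zero_iff.1 hκ i (Finset.mem_univ i)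
    rwa [h1] at h
  | succ n ih =>
    intro κ hκ h
    obtain ⟨b, hb⟩ : ∃ b, κ b ≠ 0 := by
      by_contra hcon
      push Not at hcon
      rw [Finset.sum_eq_zero fun i _ => hcon i] at hκ
      omega
    obtain ⟨m, hm⟩ := Nat.exists_eq_succ_of_ne_zero hb
    refine ih (Function.update κ b m) ?_ (reduce hN F e hF he hS hC lam hlam κ b m hm h)
    rw [← Finset.add_sum_erase Finset.univ _ (Finset.mem_univ b), Function.update_self]
    rw [← Finset.add_sum_erase Finset.univ _ (Finset.mem_univ b)] at hκ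
    have h2 : ∑ i ∈ Finset.univ.erase b, Function.update κ b m i =
        ∑ i ∈ Finset.univ.erase b, κ i :=
      Finset.sum_congr rfl fun i hi => by rw [Function.update_of_ne (Finset.ne_of_mem_erase hi)]
    rw [h2]
    omega

end Pool.Agent.Helper48.SN
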