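import Pool.Agent.Helper48.SN.Slice

set_option autoImplicit false
set_option linter.unusedSectionVars false

/-! # The functional equation and the initial form along a smooth centre -/

namespace Pool.Agent.Helper48.SN

open Finset MvPolynomial Pool.Agent.K3h38.SM

variable {σ τ : Type} [Fintype σ] [Fintype τ]

theorem exact_of_identity (f : MvPolynomial σ ℂ) (d : ℕ) (hd : 0 < d)
    (hf : f.IsHomogeneous d) (s0 : ℂ) (hs0 : s0 = -(Fintype.card σ : ℂ) / d) (c : ℂ) (hc : c ≠ 0)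
    (R : ℕ) (V : σ → MvPolynomial σ ℂ)
    (h : C c * f ^ (R + 1) = ∑ i, (C (s0 - R) * pderiv i f * V i + f * pderiv i (V i))) :
    ∃ (k : ℕ) (Θ : σ → MvPolynomial σ ℂ), (∀ i, (Θ i).IsHomogeneous (d * k + 1)) ∧
      ∑ i, Θ i * pderiv i f = 0 ∧ ∑ i, pderiv i (Θ i) = f ^ k := by
  classical
  have hdC : (d : ℂ) ≠ 0 := by exact_mod_cast hd.ne'
  set W : σ → MvPolynomial σ ℂ := fun i => homogeneousComponent (d * R + 1) (V i) with hW
  have hWh : ∀ i, (W i).IsHomogeneous (d * R + 1) := fun i =>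
    homogeneousComponent_isHomogeneous _ _
  -- the homogeneous identity
  have h1 : C c * f ^ (R + 1) = ∑ i, (C (s0 - R) * pderiv i f * W i + f * pderiv i (W i)) := by
    have h2 := congrArg (homogeneousComponent (d * (R + 1))) h
    have h3 : (C c * f ^ (R + 1)).IsHomogeneous (d * (R + 1)) := by
      have := (isHomogeneous_C σ c).mul (hf.pow (R + 1))
      rwa [zero_add] at this
    rw [homogeneousComponent_eq_self h3, map_sum] at h2
    rw [h2]
    refine Finset.sum_congr rfl fun i _ => ?_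
    rw [map_add]
    congr 1
    · have h4 : (C (s0 - R) * pderiv i f).IsHomogeneous (d - 1) := by
        have := (isHomogeneous_C σ (s0 - R)).mul (hf.pderiv (i := i))
        rwa [zero_add] at this
      have h5 : d * (R + 1) = (d - 1) + (d * R + 1) := by
        have : d * (R + 1) = d * R + d := by ring
        omega
      rw [h5, comp_mul_left _ _ _ _ h4]
    · have h5 : d * (R + 1) = d + d * R := by ring
      rw [h5, comp_mul_left _ _ _ _ hf, comp_pderiv]
  set u : MvPolynomial σ ℂ := ∑ i, pderiv i f * W i with hu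
  have huh : u.IsHomogeneous (d * (R + 1)) := by
    refine IsHomogeneous.sum _ _ _ fun i _ => ?_
    have h5 : d * (R + 1) = (d - 1) + (d * R + 1) := by
      have : d * (R + 1) = d * R + d := by ring
      omega
    rw [h5]
    exact hf.pderiv.mul (hWh i)
  have hEf := hf.sum_X_mul_pderiv
  have hEu := huh.sum_X_mul_pderiv
  set Θ0 : σ → MvPolynomial σ ℂ := fun i => f * W i - C ((d : ℂ)⁻¹) * u * X i with hΘ0
  have hcne : c ≠ 0 := hc
  have hΘh : ∀ i, (Θ0 i).IsHomogeneous (d * (R + 1) + 1) := by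
    intro i
    refine IsHomogeneous.sub ?_ ?_
    · have h5 : d * (R + 1) + 1 = d + (d * R + 1) := by ring
      rw [h5]
      exact hf.mul (hWh i)
    · have h6 : (C ((d : ℂ)⁻¹) * u).IsHomogeneous (d * (R + 1)) := by
        have := (isHomogeneous_C σ ((d : ℂ)⁻¹)).mul huh
        rwa [zero_add] at this
      exact h6.mul (isHomogeneous_X ℂ i)
  have hΘf : ∑ i, Θ0 i * pderiv i f = 0 := by
    have h7 : ∑ i, Θ0 i * pderiv i f = f * u - C ((d : ℂ)⁻¹) * u * (∑ i, X i * pderiv i f) := by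
      rw [hu, Finset.mul_sum, Finset.mul_sum, ← Finset.sum_sub_distrib]
      refine Finset.sum_congr rfl fun i _ => ?_
      rw [hΘ0, hu]
      ring
    rw [h7, hEf, nsmul_eq_mul, ← C_eq_coe_nat]
    have h8 : (C ((d : ℂ)⁻¹) : MvPolynomial σ ℂ) * C ((d : ℕ) : ℂ) = 1 := by
      rw [← map_mul, inv_mul_cancel₀ hdC, map_one]
    linear_combination - f * u * h8
  have hdiv : ∑ i, pderiv i (Θ0 i) = C c * f ^ (R + 1) := by
    have h7 : ∀ i, pderiv i (Θ0 i) = pderiv i f * W i + f * pderiv i (W i)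
        - C ((d : ℂ)⁻¹) * (X i * pderiv i u) - C ((d : ℂ)⁻¹) * u := by
      intro i
      rw [hΘ0]
      simp only [map_sub, pderiv_mul, pderiv_C, pderiv_X_self]
      ring
    rw [Finset.sum_congr rfl fun i _ => h7 i, Finset.sum_sub_distrib, Finset.sum_sub_distrib,
      ← Finset.mul_sum, hEu, nsmul_eq_mul, ← C_eq_coe_nat, h1, Finset.sum_const, nsmul_eq_mul,
      ← C_eq_coe_nat, Finset.card_univ]
    have h8 : ∑ i, (C (s0 - R) * pderiv i f * W i + f * pderiv i (W i))
        = C (s0 - R) * u + ∑ i, f * pderiv i (W i) := by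
      rw [hu, Finset.mul_sum, ← Finset.sum_add_distrib]
      refine Finset.sum_congr rfl fun i _ => ?_
      ring
    rw [h8, Finset.sum_add_distrib, ← hu]
    have h9 : (C (s0 - R) : MvPolynomial σ ℂ) = 1 - C ((d : ℂ)⁻¹) * C ((d * (R + 1) : ℕ) : ℂ)
        - C ((Fintype.card σ : ℕ) : ℂ) * C ((d : ℂ)⁻¹) := by
      rw [← map_mul, ← map_mul, ← C_1, ← map_sub, ← map_sub]
      congr 1
      rw [hs0]
      field_simp
      push_cast
      ring
    rw [h9]
    ring
  refine ⟨R + 1, fun i => C c⁻¹ * Θ0 i, fun i => ?_, ?_, ?_⟩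
  · have := (isHomogeneous_C σ c⁻¹).mul (hΘh i)
    rwa [zero_add] at this
  · simp only [mul_assoc]
    rw [← Finset.mul_sum, hΘf, mul_zero]
  · have h7 : ∀ i, pderiv i (C c⁻¹ * Θ0 i) = C c⁻¹ * pderiv i (Θ0 i) := by
      intro i
      rw [pderiv_mul, pderiv_C, zero_mul, zero_add]
    rw [Finset.sum_congr rfl fun i _ => h7 i, ← Finset.mul_sum, hdiv, ← mul_assoc, ← map_mul,
      inv_mul_cancel₀ hcne, map_one, one_mul]

theorem tameF (f : PS (σ ⊕ τ)) (d : ℕ) (φ : MvPolynomial σ ℂ) (h : IsCone f d φ) :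
    ∀ F ∈ Fset σ τ, Tame φ d fun s => F (f ^ (s + 1)) := by
  intro F hF
  rw [Fset] at hF
  induction hF using Submodule.span_induction with
  | mem F hF =>
    obtain ⟨q, hq, γ, rfl⟩ := hF
    exact Tame.op hq _ (tame_slice f d φ h γ)
  | zero => exact Tame.zero φ d
  | add F G _ _ ihF ihG => exact ihF.add ihG
  | smul c F _ ihF => exact ihF.smul c

theorem splitF (f : PS (σ ⊕ τ)) (d : ℕ) (hd : 0 < d) (φ : MvPolynomial σ ℂ) (h : IsCone f d φ) :
    ∀ F ∈ Fset σ τ, ∃ Fi : σ → (PS (σ ⊕ τ) →ₗ[ℂ] PS σ), (∀ i, Fi i ∈ Fset σ τ) ∧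
      ∀ s : ℕ, hcz (d * s) (F (f ^ (s + 1))) =
        ∑ i, pderiv i (hcz (d * s + 1) (Fi i (f ^ (s + 1)))) := by
  intro F hF
  rw [Fset] at hF
  induction hF using Submodule.span_induction with
  | mem F hF =>
    obtain ⟨q, hq, γ, rfl⟩ := hF
    obtain ⟨Qi, p, h1, h2⟩ := splitS_of_mem hq
    refine ⟨fun i => Qi i ∘ₗ slice γ, fun i => Submodule.subset_span ⟨Qi i, h1 i, γ, rfl⟩,
      fun s => ?_⟩
    rw [LinearMap.comp_apply, h2, hcz_add, hcz_sum, hcz_mul p _ (d * s) 0 (fun j hj =>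
      slice_vanish f d φ h γ s j (by
        push_cast at hj
        have : (0 : ℤ) < d := by exact_mod_cast hd
        linarith)), Finset.sum_range_zero, add_zero]
    refine Finset.sum_congr rfl fun i _ => ?_
    rw [hcz_pp]
    rfl
  | zero =>
    refine ⟨fun _ => 0, fun _ => Submodule.zero_mem _, fun s => ?_⟩
    simp [hcz_zero]
  | add F G _ _ ihF ihG =>
    obtain ⟨Fi, h1, h2⟩ := ihF
    obtain ⟨Gi, h3, h4⟩ := ihG
    refine ⟨fun i => Fi i + Gi i, fun i => Submodule.add_mem _ (h1 i) (h3 i), fun s => ?_⟩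
    rw [LinearMap.add_apply, hcz_add, h2, h4, ← Finset.sum_add_distrib]
    refine Finset.sum_congr rfl fun i _ => ?_
    rw [LinearMap.add_apply, hcz_add, map_add]
  | smul c F _ ihF =>
    obtain ⟨Fi, h1, h2⟩ := ihF
    refine ⟨fun i => c • Fi i, fun i => Submodule.smul_mem _ c (h1 i), fun s => ?_⟩
    rw [LinearMap.smul_apply, hcz_smul, h2, Finset.smul_sum]
    refine Finset.sum_congr rfl fun i _ => ?_
    rw [LinearMap.smul_apply, hcz_smul]
    exact ((pderiv i).map_smul c _).symm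

/-- **If `-c/d` is not a root of a functional equation of a power series `f` of order `d` along a
smooth centre of codimension `c`, then the form `φ ^ (-c/d) Ω` is exact, where `φ` is the initial form
of `f` on the normal space.** -/
theorem stepL (f : PS (σ ⊕ τ)) (d : ℕ) (hd : 0 < d) (φ : MvPolynomial σ ℂ) (h : IsCone f d φ)
    (hφ : φ ≠ 0) (b : Polynomial ℂ) (hb : IsFormalB f b)
    (hne : b.eval (-(Fintype.card σ : ℂ) / d) ≠ 0) :
    ∃ (k : ℕ) (Θ : σ → MvPolynomial σ ℂ), (∀ i, (Θ i).IsHomogeneous (d * k + 1)) ∧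
      ∑ i, Θ i * pderiv i φ = 0 ∧ ∑ i, pderiv i (Θ i) = φ ^ k := by
  classical
  obtain ⟨P, hP⟩ := hb
  choose Fi hFi1 hFi2 using fun m : ℕ => splitF f d hd φ h _ (slice_op (P m).2 0)
  set T : σ → ℕ → MvPolynomial σ ℂ := fun i s => ∑ m ∈ P.support,
    C (s : ℂ) ^ m * hcz (d * s + 1) (Fi m i (f ^ (s + 1))) with hT
  have hTr : ∀ i, Rat φ (T i) := by
    intro i
    refine Rat.sum _ _ fun m _ => ?_
    exact ((tameF f d φ h _ (hFi1 m i)).2 1).mulPS (fun s => C s ^ m) (IsPS.id.pow m)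
  choose R0 V0 hV0 h0 using hTr
  set R := ∑ i, R0 i with hR
  have hRi : ∀ i, R0 i ≤ R := fun i => Finset.single_le_sum (fun _ _ => Nat.zero_le _)
    (Finset.mem_univ i)
  set V : σ → ℂ → MvPolynomial σ ℂ := fun i s => φ ^ (R - R0 i) * V0 i s with hVd
  have hV : ∀ i, IsPS (V i) := fun i => (IsPS.const _).mul (hV0 i)
  have h1 : ∀ i (s : ℕ), φ ^ R * T i s = φ ^ s * V i s := by
    intro i s
    have h2 : φ ^ R = φ ^ (R - R0 i) * φ ^ R0 i := by
      rw [← pow_add, Nat.sub_add_cancel (hRi i)]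
    rw [h2, hVd]
    linear_combination φ ^ (R - R0 i) * h0 i s
  have h2 : ∀ s : ℕ, C (b.eval (s : ℂ)) * φ ^ s = ∑ i, pderiv i (T i s) := by
    intro s
    have h3 : hcz (d * s) (slice (0 : τ →₀ ℕ) ((b.eval (s : ℂ)) • f ^ s)) = _ :=
      congrArg (fun g => hcz (d * s) (slice (0 : τ →₀ ℕ) g)) (hP s)
    beta_reduce at h3
    rw [map_smul, hcz_smul, lowest f d φ h s, Finsupp.sum, map_sum, hcz_sum, ← C_mul'] at h3
    rw [h3, hT]
    simp only [map_sum]
    rw [Finset.sum_comm]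
    refine Finset.sum_congr rfl fun m _ => ?_
    rw [map_smul, hcz_smul]
    change ((s : ℂ) ^ m) • hcz (d * s) ((slice 0 ∘ₗ (P m : Module.End ℂ (PS (σ ⊕ τ))))
      (f ^ (s + 1))) = _
    rw [hFi2 m s, Finset.smul_sum]
    refine Finset.sum_congr rfl fun i _ => ?_
    rw [← map_pow, pderiv_C_mul, C_mul']
  set s0 : ℂ := -(Fintype.card σ : ℂ) / d with hs0
  have key := IsPS.eq_of_nat (g := fun s => C (b.eval s) * φ ^ (R + 1))
    (h := fun s => ∑ i, (C (s - R) * pderiv i φ * V i s + φ * pderiv i (V i s)))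
    ((isPS_eval b).mul (IsPS.const _)) ?_ ?_ s0
  · exact exact_of_identity φ d hd h.1 s0 hs0 _ hne R (fun i => V i s0) key
  · refine IsPS.sum _ fun i _ => ?_
    refine IsPS.add ((IsPS.mul ?_ (IsPS.const _)).mul (hV i)) ((IsPS.const _).mul ((hV i).pderiv i))
    simp only [map_sub]
    exact IsPS.id.sub (IsPS.const _)
  · intro s
    beta_reduce
    apply mul_left_cancel₀ (pow_ne_zero s hφ)
    have h4 : φ ^ s * (C (b.eval (s : ℂ)) * φ ^ (R + 1)) = φ ^ (R + 1) * ∑ i, pderiv i (T i s) := by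
      rw [← h2 s]
      ring
    rw [h4, Finset.mul_sum, Finset.mul_sum]
    exact Finset.sum_congr rfl fun i _ => deriv_aux φ (T i s) (V i s) i R s (h1 i s)

end Pool.Agent.Helper48.SN
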