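import Pool.Agent.Helper48.SN.Aut
import Pool.Agent.Helper48.SN.StepL
import Pool.Graph.R_seed8.W574.HS.Flat
import Pool.Graph.R_pool_sql_team_seeded_5cf16337.K3h38.SM.Mult

set_option autoImplicit false
set_option linter.unusedSectionVars false

/-! # Functional equations of polynomials at the points of the affine space -/

namespace Pool.Agent.Helper48.SN

open Finset MvPolynomial Pool.Agent.H628R4.TP Pool.Agent.K3h38.SM

variable {σ : Type} [Fintype σ]

/-- a functional equation with a polynomial factor `H` -/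
def FEq (f H : MvPolynomial σ ℂ) (b : Polynomial ℂ) : Prop :=
  ∃ P : ℕ →₀ weylS σ, ∀ s : ℕ, H * (C (b.eval (s : ℂ)) * f ^ s) =
    P.sum fun m Q => ((s : ℂ) ^ m) • (Q : Module.End ℂ (MvPolynomial σ ℂ)) (f ^ (s + 1))

theorem feq_one (f : MvPolynomial σ ℂ) (b : Polynomial ℂ) (hb : IsBFunction f b) : FEq f 1 b := by
  obtain ⟨P, hP⟩ := hb
  exact ⟨P, fun s => by rw [one_mul, hP s]⟩

theorem feq_local (f : MvPolynomial σ ℂ) (hf : f ≠ 0) (b : Polynomial ℂ)
    (hb : IsLocalBFunction f b) : ∃ H : MvPolynomial σ ℂ, eval 0 H ≠ 0 ∧ FEq f H b := by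
  obtain ⟨H, P, hH, hP⟩ := Pool.Agent.W574.HS.algebraic_of_local f hf b hb
  exact ⟨H, by rwa [eval_zero], P, hP⟩

/-- the polynomial in the coordinates centred at `p` -/
noncomputable def tr (p : σ → ℂ) : MvPolynomial σ ℂ →ₐ[ℂ] MvPolynomial σ ℂ :=
  aeval fun i => X i + C (p i)

theorem tr_pderiv (p : σ → ℂ) (i : σ) (g : MvPolynomial σ ℂ) :
    pderiv i (tr p g) = tr p (pderiv i g) := by
  classical
  induction g using MvPolynomial.induction_on with
  | C a =>
    have h : tr p (C a) = C a := aeval_C _ _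
    rw [h, pderiv_C, map_zero]
  | add g h hg hh => rw [map_add, map_add, map_add, map_add, hg, hh]
  | mul_X g n hg =>
    have h : tr p (X n) = X n + C (p n) := aeval_X _ _
    rw [map_mul, pderiv_mul, pderiv_mul, map_add, map_mul, map_mul, hg, h, map_add, pderiv_C,
      add_zero, pderiv_X]
    by_cases hn : n = i
    · subst hn
      rw [Pi.single_eq_same, map_one]
    · rw [Pi.single_eq_of_ne hn, map_zero]

theorem eval_tr (p x : σ → ℂ) (g : MvPolynomial σ ℂ) : eval x (tr p g) = eval (x + p) g := by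
  induction g using MvPolynomial.induction_on with
  | C a =>
    have h : tr p (C a) = C a := aeval_C _ _
    rw [h, eval_C, eval_C]
  | add g h hg hh => rw [map_add, map_add, map_add, hg, hh]
  | mul_X g n hg =>
    have h : tr p (X n) = X n + C (p n) := aeval_X _ _
    rw [map_mul, map_mul, map_mul, hg, h, map_add, eval_X, eval_X, eval_C, Pi.add_apply]

theorem tr_op (p : σ → ℂ) {Q : Module.End ℂ (MvPolynomial σ ℂ)} (hQ : Q ∈ weylS σ) :
    ∃ Q' ∈ dS σ, ∀ g : MvPolynomial σ ℂ, Q' ((tr p g : MvPolynomial σ ℂ) : PS σ) =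
      ((tr p (Q g) : MvPolynomial σ ℂ) : PS σ) := by
  induction hQ using Algebra.adjoin_induction with
  | mem Q hQ =>
    rcases hQ with ⟨i, rfl⟩ | ⟨i, rfl⟩
    · refine ⟨ml ((X i + C (p i) : MvPolynomial σ ℂ) : PS σ), ml_mem _, fun g => ?_⟩
      have h : tr p (X i) = X i + C (p i) := aeval_X _ _
      rw [ml_apply, LinearMap.mulLeft_apply, map_mul, h, MvPolynomial.coe_mul]
    · refine ⟨pp i, pp_mem i, fun g => ?_⟩
      rw [pp_apply, MvPowerSeries.pderiv_coe, tr_pderiv]
      rfl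
  | algebraMap a =>
    refine ⟨algebraMap ℂ _ a, Subalgebra.algebraMap_mem _ _, fun g => ?_⟩
    rw [Module.algebraMap_end_apply, Module.algebraMap_end_apply, map_smul, MvPolynomial.coe_smul]
  | add Q Q' _ _ ih ih' =>
    obtain ⟨R, hR, h1⟩ := ih
    obtain ⟨R', hR', h2⟩ := ih'
    refine ⟨R + R', Subalgebra.add_mem _ hR hR', fun g => ?_⟩
    rw [LinearMap.add_apply, LinearMap.add_apply, map_add, MvPolynomial.coe_add, h1, h2]
  | mul Q Q' _ _ ih ih' =>
    obtain ⟨R, hR, h1⟩ := ih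
    obtain ⟨R', hR', h2⟩ := ih'
    refine ⟨R * R', Subalgebra.mul_mem _ hR hR', fun g => ?_⟩
    rw [Module.End.mul_apply, Module.End.mul_apply, h2, h1]

/-- **The functional equation at a point.** -/
theorem formal_of_feq (f H : MvPolynomial σ ℂ) (b : Polynomial ℂ) (h : FEq f H b) (p : σ → ℂ)
    (hp : eval p H ≠ 0) : IsFormalB ((tr p f : MvPolynomial σ ℂ) : PS σ) b := by
  classical
  obtain ⟨P, hP⟩ := h
  choose Q hQ1 hQ2 using fun m : ℕ => tr_op p (P m).2
  set G : PS σ := ((tr p H : MvPolynomial σ ℂ) : PS σ) with hG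
  have hG0 : MvPowerSeries.constantCoeff G ≠ 0 := by
    rw [hG]
    have h1 : MvPowerSeries.constantCoeff ((tr p H : MvPolynomial σ ℂ) : PS σ) = eval p H := by
      rw [← MvPowerSeries.coeff_zero_eq_constantCoeff_apply, MvPolynomial.coeff_coe,
        ← constantCoeff_eq, ← eval_zero, eval_tr, zero_add]
    rw [h1]
    exact hp
  have hGi : G⁻¹ * G = 1 := MvPowerSeries.inv_mul_cancel G hG0
  refine ⟨Finsupp.onFinset P.support (fun m => if m ∈ P.support then
    (⟨ml G⁻¹ * Q m, Subalgebra.mul_mem _ (ml_mem _) (hQ1 m)⟩ : dS σ) else 0) (fun m hm => by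
      by_contra h
      exact hm (if_neg h)), fun s => ?_⟩
  rw [Finsupp.onFinset_sum]
  · have h1 := congrArg (fun g => ((tr p g : MvPolynomial σ ℂ) : PS σ)) (hP s)
    simp only [map_mul, MvPolynomial.coe_mul] at h1
    rw [Finsupp.sum, map_sum] at h1
    have h2 : ((tr p (C (b.eval (s : ℂ))) : MvPolynomial σ ℂ) : PS σ) =
        MvPowerSeries.C (b.eval (s : ℂ)) := by
      have h3 : tr p (C (b.eval (s : ℂ))) = C (b.eval (s : ℂ)) := aeval_C _ _
      rw [h3, MvPolynomial.coe_C]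
    rw [h2, map_pow, MvPolynomial.coe_pow] at h1
    have h3 : (b.eval (s : ℂ)) • ((tr p f : MvPolynomial σ ℂ) : PS σ) ^ s =
        G⁻¹ * (G * (MvPowerSeries.C (b.eval (s : ℂ)) *
          ((tr p f : MvPolynomial σ ℂ) : PS σ) ^ s)) := by
      rw [← mul_assoc, hGi, one_mul, MvPowerSeries.smul_eq_C_mul]
    rw [h3, h1]
    have h4 : ((∑ x ∈ P.support, (tr p) (((s : ℂ) ^ x) •
        (P x : Module.End ℂ (MvPolynomial σ ℂ)) (f ^ (s + 1))) : MvPolynomial σ ℂ) : PS σ) =
        ∑ x ∈ P.support, ((s : ℂ) ^ x) • Q x (((tr p f : MvPolynomial σ ℂ) : PS σ) ^ (s + 1)) := by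
      rw [← MvPolynomial.coeToMvPowerSeries.ringHom_apply, map_sum]
      refine Finset.sum_congr rfl fun m _ => ?_
      rw [MvPolynomial.coeToMvPowerSeries.ringHom_apply, map_smul, MvPolynomial.coe_smul, ← hQ2,
        map_pow, MvPolynomial.coe_pow]
    rw [h4, Finset.mul_sum]
    refine Finset.sum_congr rfl fun m hm => ?_
    rw [if_pos hm]
    change _ = ((s : ℂ) ^ m) • (G⁻¹ * Q m _)
    rw [mul_smul_comm]
  · intro m
    simp

/-- the roots of a prime factor of multiplicity `n` -/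
theorem root_of_mult_feq (f p q H : MvPolynomial σ ℂ) (n : ℕ) (hn : 1 ≤ n)
    (hf : f = p ^ n * q) (hp : Prime p) (hpq : ¬ p ∣ q) (hpH : ¬ p ∣ H) (b : Polynomial ℂ)
    (hb : FEq f H b) : b.eval (-(1 : ℂ) / n) = 0 := by
  classical
  have hnC : (n : ℂ) ≠ 0 := by
    have : n ≠ 0 := by omega
    exact_mod_cast this
  set s0 : ℂ := -(1 : ℂ) / n with hs0
  obtain ⟨P, hP⟩ := hb
  obtain ⟨R, V, hV, hd, h⟩ := actD_sum f p q n 1 hn le_rfl hn s0 (by rw [hs0]; field_simp; simp) hf
    P.support (fun m => (P m : Module.End ℂ (MvPolynomial σ ℂ))) (fun m _ => (P m).2)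
  have hq0 : q ≠ 0 := fun h0 => hpq (h0 ▸ dvd_zero p)
  have hf0 : f ≠ 0 := by rw [hf]; exact mul_ne_zero (pow_ne_zero _ hp.ne_zero) hq0
  have key := IsPS.eq_of_nat (g := fun s => H * (C (b.eval s) * f ^ R)) (h := V)
    ((IsPS.const _).mul ((isPS_eval b).mul (IsPS.const _))) hV (fun s => by
      apply mul_left_cancel₀ (pow_ne_zero s hf0)
      rw [← h s]
      have h1 := hP s
      rw [Finsupp.sum] at h1
      rw [← h1]
      ring) s0
  rw [← key, hf] at hd
  have h2 : p ^ (1 + n * R) = p ^ (n * R) * p := by rw [add_comm, pow_succ]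
  rw [h2, mul_pow, ← pow_mul, show H * (C (b.eval s0) * (p ^ (n * R) * q ^ R)) =
    p ^ (n * R) * (H * C (b.eval s0) * q ^ R) by ring] at hd
  have h4 := (mul_dvd_mul_iff_left (pow_ne_zero (n * R) hp.ne_zero)).1 hd
  rcases hp.dvd_or_dvd h4 with h5 | h5
  · rcases hp.dvd_or_dvd h5 with h6 | h6
    · exact absurd h6 hpH
    · by_contra hne
      apply hp.not_isUnit
      exact isUnit_of_dvd_unit h6 ((isUnit_iff_ne_zero.2 hne).map C)
  · exact absurd (hp.dvd_of_dvd_pow h5) hpq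

end Pool.Agent.Helper48.SN
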