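import Pool.Graph.R_pool_sql_team_seeded_5cf16337.K3h38.SM.StepK

set_option autoImplicit false
set_option linter.unusedSectionVars false

/-! # Functional equations in formal power series -/

namespace Pool.Agent.Helper48.SN

open Finset

/-- formal power series -/
abbrev PS (σ : Type) : Type := MvPowerSeries σ ℂ

section

variable {σ : Type}

/-- the multiplication by a power series -/
noncomputable def ml (a : PS σ) : Module.End ℂ (PS σ) := LinearMap.mulLeft ℂ a

/-- the partial derivative -/
noncomputable def pp (i : σ) : Module.End ℂ (PS σ) :=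
  ((MvPowerSeries.pderiv ℂ i : Derivation ℂ (PS σ) (PS σ)) : PS σ →ₗ[ℂ] PS σ)

theorem ml_apply (a g : PS σ) : ml a g = a * g := rfl

theorem pp_apply (i : σ) (g : PS σ) : pp i g = MvPowerSeries.pderiv ℂ i g := rfl

theorem pp_mul (i : σ) (g h : PS σ) : pp i (g * h) = g * pp i h + h * pp i g :=
  (MvPowerSeries.pderiv ℂ i).leibniz g h

/-- The differential operators with formal power series coefficients: the algebra generated by the
multiplications by the formal power series and by the partial derivatives. -/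
noncomputable def dS (σ : Type) : Subalgebra ℂ (Module.End ℂ (PS σ)) :=
  Algebra.adjoin ℂ (Set.range ml ∪ Set.range pp)

theorem ml_mem (a : PS σ) : ml a ∈ dS σ := Algebra.subset_adjoin (Or.inl ⟨a, rfl⟩)

theorem pp_mem (i : σ) : pp i ∈ dS σ := Algebra.subset_adjoin (Or.inr ⟨i, rfl⟩)

/-- `b(s) f ^ s = P(s) f ^ (s + 1)` for some `P(s) = ∑_m s ^ m P_m`, where the `P_m` are differential
operators with formal power series coefficients. The equation is stated for all `s ∈ ℕ`; this is
equivalent to the formal equation. -/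
def IsFormalB (f : PS σ) (b : Polynomial ℂ) : Prop :=
  ∃ P : ℕ →₀ dS σ, ∀ s : ℕ, (b.eval (s : ℂ)) • f ^ s =
    P.sum fun m Q => ((s : ℂ) ^ m) • (Q : Module.End ℂ (PS σ)) (f ^ (s + 1))

end

section Split

variable {σ : Type} [Fintype σ]

/-- the operators which are sums of `∂_i Q_i` and of a multiplication -/
def SplitS (Q : Module.End ℂ (PS σ)) : Prop :=
  ∃ (Qi : σ → Module.End ℂ (PS σ)) (p : PS σ),
    (∀ i, Qi i ∈ dS σ) ∧ ∀ g, Q g = (∑ i, pp i (Qi i g)) + p * g

theorem SplitS.mul_ml {Q : Module.End ℂ (PS σ)} (h : SplitS Q) (a : PS σ) :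
    SplitS (Q * ml a) := by
  obtain ⟨Qi, p, h1, h2⟩ := h
  refine ⟨fun i => Qi i * ml a, p * a, fun i => Subalgebra.mul_mem _ (h1 i) (ml_mem a), fun g => ?_⟩
  rw [Module.End.mul_apply, h2, ml_apply, mul_assoc]
  rfl

theorem SplitS.mul_pp {Q : Module.End ℂ (PS σ)} (h : SplitS Q) (j : σ) :
    SplitS (Q * pp j) := by
  classical
  obtain ⟨Qi, p, h1, h2⟩ := h
  refine ⟨fun i => Qi i * pp j + if i = j then ml p else 0, - pp j p, fun i => ?_, fun g => ?_⟩
  · refine Subalgebra.add_mem _ (Subalgebra.mul_mem _ (h1 i) (pp_mem j)) ?_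
    split_ifs
    · exact ml_mem p
    · exact Subalgebra.zero_mem _
  · rw [Module.End.mul_apply, h2]
    have h3 : ∀ i, pp i ((Qi i * pp j + if i = j then ml p else 0) g) =
        pp i (Qi i (pp j g)) + if i = j then p * pp j g + g * pp j p else 0 := by
      intro i
      rw [LinearMap.add_apply, map_add, Module.End.mul_apply]
      congr 1
      split_ifs with h4
      · subst h4
        rw [ml_apply, pp_mul]
      · rw [LinearMap.zero_apply, map_zero]
    rw [Finset.sum_congr rfl fun i _ => h3 i, Finset.sum_add_distrib, Finset.sum_ite_eq',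
      if_pos (Finset.mem_univ j)]
    ring

theorem splitS_of_mem {Q : Module.End ℂ (PS σ)} (hQ : Q ∈ dS σ) : SplitS Q := by
  have hQ' := hQ
  rw [dS, ← Subalgebra.mem_toSubmodule, Algebra.adjoin_eq_span] at hQ'
  induction hQ' using Submodule.span_induction with
  | mem w hw =>
    induction hw using Submonoid.closure_induction_right with
    | one => exact ⟨fun _ => 0, 1, fun _ => Subalgebra.zero_mem _, fun g => by simp⟩
    | mul_right x hx y hy ih =>
      have h1 : x ∈ dS σ := by
        rw [dS, ← Subalgebra.mem_toSubmodule, Algebra.adjoin_eq_span]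
        exact Submodule.subset_span hx
      rcases hy with ⟨a, rfl⟩ | ⟨i, rfl⟩
      · exact (ih h1).mul_ml a
      · exact (ih h1).mul_pp i
  | zero => exact ⟨fun _ => 0, 0, fun _ => Subalgebra.zero_mem _, fun g => by simp⟩
  | add x y hx hy ihx ihy =>
    have hx' : x ∈ dS σ := by
      rw [dS, ← Subalgebra.mem_toSubmodule, Algebra.adjoin_eq_span]
      exact hx
    have hy' : y ∈ dS σ := by
      rw [dS, ← Subalgebra.mem_toSubmodule, Algebra.adjoin_eq_span]
      exact hy
    obtain ⟨Qi, p, h1, h2⟩ := ihx hx'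
    obtain ⟨Qi', p', h1', h2'⟩ := ihy hy'
    refine ⟨fun i => Qi i + Qi' i, p + p', fun i => Subalgebra.add_mem _ (h1 i) (h1' i),
      fun g => ?_⟩
    rw [LinearMap.add_apply, h2, h2']
    simp only [LinearMap.add_apply, map_add, Finset.sum_add_distrib]
    ring
  | smul a x hx ihx =>
    have hx' : x ∈ dS σ := by
      rw [dS, ← Subalgebra.mem_toSubmodule, Algebra.adjoin_eq_span]
      exact hx
    obtain ⟨Qi, p, h1, h2⟩ := ihx hx'
    refine ⟨fun i => a • Qi i, a • p, fun i => Subalgebra.smul_mem _ (h1 i) a, fun g => ?_⟩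
    rw [LinearMap.smul_apply, h2, smul_add, Finset.smul_sum, smul_mul_assoc]
    congr 1
    exact Finset.sum_congr rfl fun i _ => by rw [LinearMap.smul_apply, map_smul]

end Split

section Comp

variable {σ : Type} [Fintype σ]

open MvPolynomial

/-- the homogeneous component of degree `n` -/
noncomputable def hcp (n : ℕ) : PS σ →ₗ[ℂ] MvPolynomial σ ℂ :=
  (homogeneousComponent n).comp (MvPowerSeries.truncTotal (n + 1))

theorem coeff_hcp (n : ℕ) (g : PS σ) (m : σ →₀ ℕ) :
    coeff m (hcp n g) = if m.degree = n then MvPowerSeries.coeff m g else 0 := by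
  rw [hcp, LinearMap.comp_apply, coeff_homogeneousComponent]
  split_ifs with h
  · rw [MvPowerSeries.coeff_truncTotal _ (by omega)]
  · rfl

theorem hcp_hom (n : ℕ) (g : PS σ) : (hcp n g).IsHomogeneous n := by
  rw [hcp, LinearMap.comp_apply]
  exact homogeneousComponent_isHomogeneous n _

theorem hcp_pp (n : ℕ) (i : σ) (g : PS σ) : hcp n (pp i g) = pderiv i (hcp (n + 1) g) := by
  ext m
  rw [coeff_hcp, coeff_pderiv, coeff_hcp, pp_apply, MvPowerSeries.coeff_pderiv]
  have h : (m + Finsupp.single i 1).degree = m.degree + 1 := by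
    rw [map_add, Finsupp.degree_single]
  rw [h]
  by_cases h1 : m.degree = n
  · rw [if_pos h1, if_pos (by omega)]
  · rw [if_neg h1, if_neg (by omega), zero_mul]

theorem hcp_mul (n : ℕ) (h g : PS σ) :
    hcp n (h * g) = ∑ p ∈ Finset.HasAntidiagonal.antidiagonal n, hcp p.1 h * hcp p.2 g := by
  classical
  ext m
  rw [coeff_hcp, coeff_sum]
  have h1 : ∀ p ∈ Finset.HasAntidiagonal.antidiagonal n, coeff m (hcp p.1 h * hcp p.2 g) =
      ∑ q ∈ Finset.HasAntidiagonal.antidiagonal m, (if q.1.degree = p.1 then MvPowerSeries.coeff q.1 h else 0) *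
        (if q.2.degree = p.2 then MvPowerSeries.coeff q.2 g else 0) := by
    intro p _
    rw [coeff_mul]
    exact Finset.sum_congr rfl fun q _ => by rw [coeff_hcp, coeff_hcp]
  rw [Finset.sum_congr rfl h1, Finset.sum_comm]
  split_ifs with h2
  · rw [MvPowerSeries.coeff_mul]
    refine Finset.sum_congr rfl fun q hq => ?_
    rw [Finset.HasAntidiagonal.mem_antidiagonal] at hq
    have h3 : q.1.degree + q.2.degree = n := by
      rw [← map_add, hq, h2]
    rw [Finset.sum_eq_single (q.1.degree, q.2.degree)]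
    · rw [if_pos rfl, if_pos rfl]
    · rintro ⟨a, b⟩ _ hne
      by_cases h4 : q.1.degree = a
      · by_cases h5 : q.2.degree = b
        · exact absurd (by rw [h4, h5]) hne
        · rw [if_neg h5, mul_zero]
      · rw [if_neg h4, zero_mul]
    · intro h4
      exact absurd (Finset.HasAntidiagonal.mem_antidiagonal.2 h3) h4
  · rw [eq_comm]
    refine Finset.sum_eq_zero fun q hq => Finset.sum_eq_zero fun p hp => ?_
    rw [Finset.HasAntidiagonal.mem_antidiagonal] at hq hp
    by_cases h4 : q.1.degree = p.1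
    · by_cases h5 : q.2.degree = p.2
      · exfalso
        apply h2
        rw [← hq, map_add, h4, h5, hp]
      · rw [if_neg h5, mul_zero]
    · rw [if_neg h4, zero_mul]

theorem hcp_coe (n : ℕ) (p : MvPolynomial σ ℂ) : hcp n (p : PS σ) = homogeneousComponent n p := by
  ext m
  rw [coeff_hcp, coeff_homogeneousComponent, MvPolynomial.coeff_coe]

/-- the homogeneous component of degree `n`, which may be negative -/
noncomputable def hcz (n : ℤ) (g : PS σ) : MvPolynomial σ ℂ := if 0 ≤ n then hcp n.toNat g else 0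

theorem hcz_nat (n : ℕ) (g : PS σ) : hcz (n : ℤ) g = hcp n g := by
  rw [hcz, if_pos (Int.natCast_nonneg n), Int.toNat_natCast]

theorem hcz_neg (n : ℤ) (hn : n < 0) (g : PS σ) : hcz n g = 0 := if_neg (not_le.2 hn)

theorem hcz_add (n : ℤ) (g h : PS σ) : hcz n (g + h) = hcz n g + hcz n h := by
  rw [hcz, hcz, hcz]
  split_ifs
  · rw [map_add]
  · rw [add_zero]

theorem hcz_smul (n : ℤ) (c : ℂ) (g : PS σ) : hcz n (c • g) = c • hcz n g := by
  rw [hcz, hcz]
  split_ifs
  · rw [map_smul]
  · rw [smul_zero]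

theorem hcz_zero (n : ℤ) : hcz n (0 : PS σ) = 0 := by
  rw [hcz]
  split_ifs
  · rw [map_zero]
  · rfl

theorem hcz_sum {κ : Type} (n : ℤ) (s : Finset κ) (g : κ → PS σ) :
    hcz n (∑ i ∈ s, g i) = ∑ i ∈ s, hcz n (g i) := by
  classical
  induction s using Finset.induction_on with
  | empty => exact hcz_zero n
  | insert a s ha ih => rw [Finset.sum_insert ha, Finset.sum_insert ha, hcz_add, ih]

theorem hcz_pp (n : ℤ) (i : σ) (g : PS σ) : hcz n (pp i g) = pderiv i (hcz (n + 1) g) := by
  rcases lt_or_ge n 0 with h | h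
  · rw [hcz_neg n h]
    rcases lt_or_ge (n + 1) 0 with h1 | h1
    · rw [hcz_neg _ h1, map_zero]
    · have h2 : n + 1 = ((0 : ℕ) : ℤ) := by omega
      rw [h2, hcz_nat]
      have h3 := hcp_hom 0 g
      have h4 : hcp 0 g = C (coeff 0 (hcp 0 g)) := by
        rw [← homogeneousComponent_zero, homogeneousComponent_eq_self h3]
      rw [h4, pderiv_C]
  · obtain ⟨k, rfl⟩ := Int.eq_ofNat_of_zero_le h
    rw [hcz_nat, hcp_pp, ← hcz_nat]
    push_cast
    rfl

theorem hcz_mul (h g : PS σ) (n : ℤ) (M : ℕ) (hM : ∀ j : ℤ, j ≤ n - M → hcz j g = 0) :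
    hcz n (h * g) = ∑ i ∈ Finset.range M, hcp i h * hcz (n - i) g := by
  rcases lt_or_ge n 0 with hn | hn
  · rw [hcz_neg n hn, Finset.sum_eq_zero]
    intro i _
    rw [hcz_neg _ (by omega), mul_zero]
  · obtain ⟨k, rfl⟩ := Int.eq_ofNat_of_zero_le hn
    rw [hcz_nat, hcp_mul, Finset.Nat.sum_antidiagonal_eq_sum_range_succ_mk]
    have h1 : ∑ i ∈ Finset.range k.succ, hcp i h * hcp (k - i) g =
        ∑ i ∈ Finset.range (max k.succ M), hcp i h * hcz ((k : ℤ) - i) g := by
      rw [← Finset.sum_subset (Finset.range_subset_range.2 (le_max_left k.succ M))]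
      · refine Finset.sum_congr rfl fun i hi => ?_
        rw [Finset.mem_range] at hi
        have h2 : (k : ℤ) - i = ((k - i : ℕ) : ℤ) := by omega
        rw [h2, hcz_nat]
      · intro i _ hi
        rw [Finset.mem_range] at hi
        rw [hcz_neg _ (by omega), mul_zero]
    rw [h1, eq_comm]
    refine Finset.sum_subset (Finset.range_subset_range.2 (le_max_right k.succ M)) ?_
    intro i _ hi
    rw [Finset.mem_range] at hi
    rw [hM _ (by omega), mul_zero]

end Comp

end Pool.Agent.Helper48.SN
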