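import Pool.Agent.Helper48.SN.Tame

set_option autoImplicit false
set_option linter.unusedSectionVars false

/-! # The initial form along a smooth centre -/

namespace Pool.Agent.Helper48.SN

open Finset MvPolynomial Pool.Agent.K3h38.SM

section Slices

variable {σ τ : Type}

/-- the coefficient of `y ^ β` of a power series in `x_i`, `i : σ`, and `y_j`, `j : τ` -/
noncomputable def slice (β : τ →₀ ℕ) : PS (σ ⊕ τ) →ₗ[ℂ] PS σ where
  toFun g := fun α => MvPowerSeries.coeff (α.sumElim β) g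
  map_add' g h := by
    funext α
    exact map_add _ g h
  map_smul' c g := by
    funext α
    exact map_smul _ c g

theorem coeff_slice (β : τ →₀ ℕ) (g : PS (σ ⊕ τ)) (α : σ →₀ ℕ) :
    MvPowerSeries.coeff α (slice β g) = MvPowerSeries.coeff (α.sumElim β) g := rfl

theorem sumElim_inj {a a' : σ →₀ ℕ} {b b' : τ →₀ ℕ} (h : a.sumElim b = a'.sumElim b') :
    a = a' ∧ b = b' := by
  constructor
  · ext i
    have := DFunLike.congr_fun h (Sum.inl i)
    simpa using this
  · ext i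
    have := DFunLike.congr_fun h (Sum.inr i)
    simpa using this

theorem slice_mul [DecidableEq τ] (β : τ →₀ ℕ) (h g : PS (σ ⊕ τ)) :
    slice β (h * g) = ∑ q ∈ Finset.HasAntidiagonal.antidiagonal β, slice q.1 h * slice q.2 g := by
  classical
  ext α
  rw [coeff_slice, MvPowerSeries.coeff_mul, map_sum, ← Finsupp.image_sumElim_product_antidiagonal,
    Finset.sum_image, Finset.sum_product, Finset.sum_comm]
  · refine Finset.sum_congr rfl fun q _ => ?_
    rw [MvPowerSeries.coeff_mul]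
    rfl
  · rintro ⟨⟨a, b⟩, ⟨c, d⟩⟩ _ ⟨⟨a', b'⟩, ⟨c', d'⟩⟩ _ heq
    simp only [Prod.mk.injEq] at heq
    obtain ⟨h1, h2⟩ := sumElim_inj heq.1
    obtain ⟨h3, h4⟩ := sumElim_inj heq.2
    rw [h1, h2, h3, h4]

theorem slice_pp_inl (β : τ →₀ ℕ) (i : σ) (g : PS (σ ⊕ τ)) :
    slice β (pp (Sum.inl i) g) = pp i (slice β g) := by
  ext α
  rw [coeff_slice, pp_apply, pp_apply, MvPowerSeries.coeff_pderiv, MvPowerSeries.coeff_pderiv,
    coeff_slice]
  have h : α.sumElim β + Finsupp.single (Sum.inl i) 1 = (α + Finsupp.single i 1).sumElim β := by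
    ext (j | j)
    · by_cases hj : i = j
      · subst hj; simp
      · rw [Finsupp.add_apply, Finsupp.sumElim_inl, Finsupp.sumElim_inl, Finsupp.add_apply,
          Finsupp.single_eq_of_ne (by simpa using Ne.symm hj), Finsupp.single_eq_of_ne (Ne.symm hj)]
    · rw [Finsupp.add_apply, Finsupp.sumElim_inr, Finsupp.sumElim_inr,
        Finsupp.single_eq_of_ne (by simp), add_zero]
  rw [h, Finsupp.sumElim_inl]

theorem slice_pp_inr (β : τ →₀ ℕ) (i : τ) (g : PS (σ ⊕ τ)) :
    slice β (pp (Sum.inr i) g) = ((β i : ℂ) + 1) • slice (β + Finsupp.single i 1) g := by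
  ext α
  rw [coeff_slice, pp_apply, MvPowerSeries.coeff_pderiv, map_smul, coeff_slice]
  have h : α.sumElim β + Finsupp.single (Sum.inr i) 1 = α.sumElim (β + Finsupp.single i 1) := by
    ext (j | j)
    · rw [Finsupp.add_apply, Finsupp.sumElim_inl, Finsupp.sumElim_inl,
        Finsupp.single_eq_of_ne (by simp), add_zero]
    · by_cases hj : i = j
      · subst hj; simp
      · rw [Finsupp.add_apply, Finsupp.sumElim_inr, Finsupp.sumElim_inr, Finsupp.add_apply,
          Finsupp.single_eq_of_ne (by simpa using Ne.symm hj), Finsupp.single_eq_of_ne (Ne.symm hj)]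
  rw [h, Finsupp.sumElim_inr, smul_eq_mul, mul_comm]

/-- the maps which are combinations of operators applied to slices -/
noncomputable def Fset (σ τ : Type) : Submodule ℂ (PS (σ ⊕ τ) →ₗ[ℂ] PS σ) :=
  Submodule.span ℂ {F | ∃ q ∈ dS σ, ∃ γ : τ →₀ ℕ, F = q ∘ₗ slice γ}

theorem Fset_left (q : Module.End ℂ (PS σ)) (hq : q ∈ dS σ) :
    ∀ F ∈ Fset σ τ, q ∘ₗ F ∈ Fset σ τ := by
  intro F hF
  rw [Fset] at hF
  induction hF using Submodule.span_induction with
  | mem F hF =>
    obtain ⟨q', hq', γ, rfl⟩ := hF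
    exact Submodule.subset_span ⟨q * q', Subalgebra.mul_mem _ hq hq', γ, rfl⟩
  | zero => rw [LinearMap.comp_zero]; exact Submodule.zero_mem _
  | add F G _ _ ihF ihG => rw [LinearMap.comp_add]; exact Submodule.add_mem _ ihF ihG
  | smul c F _ ihF => rw [LinearMap.comp_smul]; exact Submodule.smul_mem _ c ihF

theorem Fset_right (Q : Module.End ℂ (PS (σ ⊕ τ)))
    (hQ : ∀ β : τ →₀ ℕ, slice β ∘ₗ Q ∈ Fset σ τ) : ∀ F ∈ Fset σ τ, F ∘ₗ Q ∈ Fset σ τ := by
  intro F hF
  rw [Fset] at hF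
  induction hF using Submodule.span_induction with
  | mem F hF =>
    obtain ⟨q', hq', γ, rfl⟩ := hF
    exact Fset_left q' hq' _ (hQ γ)
  | zero => rw [LinearMap.zero_comp]; exact Submodule.zero_mem _
  | add F G _ _ ihF ihG => rw [LinearMap.add_comp]; exact Submodule.add_mem _ ihF ihG
  | smul c F _ ihF => rw [LinearMap.smul_comp]; exact Submodule.smul_mem _ c ihF

theorem slice_mem (β : τ →₀ ℕ) : (slice β : PS (σ ⊕ τ) →ₗ[ℂ] PS σ) ∈ Fset σ τ :=
  Submodule.subset_span ⟨1, Subalgebra.one_mem _, β, rfl⟩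

theorem slice_op {Q : Module.End ℂ (PS (σ ⊕ τ))} (hQ : Q ∈ dS (σ ⊕ τ)) :
    ∀ β : τ →₀ ℕ, slice β ∘ₗ Q ∈ Fset σ τ := by
  classical
  induction hQ using Algebra.adjoin_induction with
  | mem Q hQ =>
    intro β
    rcases hQ with ⟨a, rfl⟩ | ⟨i | i, rfl⟩
    · have h1 : (slice β ∘ₗ ml a : PS (σ ⊕ τ) →ₗ[ℂ] PS σ) =
          ∑ q ∈ Finset.HasAntidiagonal.antidiagonal β, ml (slice q.1 a) ∘ₗ slice q.2 := by
        refine LinearMap.ext fun g => ?_
        rw [LinearMap.comp_apply, ml_apply, slice_mul, LinearMap.sum_apply]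
        rfl
      rw [h1]
      exact Submodule.sum_mem _ fun q _ => Fset_left _ (ml_mem _) _ (slice_mem _)
    · have h1 : (slice β ∘ₗ pp (Sum.inl i) : PS (σ ⊕ τ) →ₗ[ℂ] PS σ) = pp i ∘ₗ slice β :=
        LinearMap.ext fun g => slice_pp_inl β i g
      rw [h1]
      exact Fset_left _ (pp_mem i) _ (slice_mem _)
    · have h1 : (slice β ∘ₗ pp (Sum.inr i) : PS (σ ⊕ τ) →ₗ[ℂ] PS σ) =
          ((β i : ℂ) + 1) • slice (β + Finsupp.single i 1) :=
        LinearMap.ext fun g => slice_pp_inr β i g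
      rw [h1]
      exact Submodule.smul_mem _ _ (slice_mem _)
  | algebraMap a =>
    intro β
    have h1 : (slice β ∘ₗ (algebraMap ℂ (Module.End ℂ (PS (σ ⊕ τ))) a) :
        PS (σ ⊕ τ) →ₗ[ℂ] PS σ) = a • slice β := by
      refine LinearMap.ext fun g => ?_
      rw [LinearMap.comp_apply, Module.algebraMap_end_apply, map_smul]
      rfl
    rw [h1]
    exact Submodule.smul_mem _ _ (slice_mem _)
  | add Q Q' _ _ ih ih' =>
    intro β
    rw [LinearMap.comp_add]
    exact Submodule.add_mem _ (ih β) (ih' β)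
  | mul Q Q' _ _ ih ih' =>
    intro β
    have h1 : (slice β ∘ₗ (Q * Q') : PS (σ ⊕ τ) →ₗ[ℂ] PS σ) = (slice β ∘ₗ Q) ∘ₗ Q' := rfl
    rw [h1]
    exact Fset_right Q' ih' _ (ih β)

end Slices

section Order

variable {ι : Type}

/-- the order with respect to a weight is at least `n` -/
def Wo (w : (ι →₀ ℕ) → ℕ) (g : PS ι) (n : ℕ) : Prop :=
  ∀ m, w m < n → MvPowerSeries.coeff m g = 0

theorem Wo.mul {w : (ι →₀ ℕ) → ℕ} (hw : ∀ a b, w (a + b) = w a + w b) {g h : PS ι} {n k : ℕ}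
    (hg : Wo w g n) (hh : Wo w h k) : Wo w (g * h) (n + k) := by
  classical
  intro m hm
  rw [MvPowerSeries.coeff_mul]
  refine Finset.sum_eq_zero fun q hq => ?_
  rw [Finset.HasAntidiagonal.mem_antidiagonal] at hq
  rw [← hq, hw] at hm
  rcases Nat.lt_or_ge (w q.1) n with h1 | h1
  · rw [hg _ h1, zero_mul]
  · rw [hh _ (by omega), mul_zero]

theorem Wo.pow {w : (ι →₀ ℕ) → ℕ} (hw : ∀ a b, w (a + b) = w a + w b) {g : PS ι} {n : ℕ}
    (hg : Wo w g n) (k : ℕ) : Wo w (g ^ k) (n * k) := by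
  induction k with
  | zero =>
    intro m hm
    omega
  | succ k ih =>
    rw [pow_succ, Nat.mul_succ]
    exact ih.mul hw hg

end Order

section Expand

variable {σ τ : Type} [Fintype σ] [Fintype τ]

/-- `φ` is the restriction to the normal space at the origin of the initial form (of degree `d`) of
the power series `g(x, y)` along the centre `x = 0`: all monomials `x ^ α y ^ β` of `g` have
`|α| ≥ d`, and the part of degree `d` of `g(x, 0)` is `φ(x)`. -/
def IsCone (g : PS (σ ⊕ τ)) (d : ℕ) (φ : MvPolynomial σ ℂ) : Prop :=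
  φ.IsHomogeneous d ∧
  (∀ (α : σ →₀ ℕ) (β : τ →₀ ℕ), α.degree < d → MvPowerSeries.coeff (α.sumElim β) g = 0) ∧
  ∀ α : σ →₀ ℕ, α.degree = d → MvPowerSeries.coeff (α.sumElim 0) g = coeff α φ

/-- the polynomial as a power series in more variables -/
noncomputable def emb (τ : Type) (φ : MvPolynomial σ ℂ) : PS (σ ⊕ τ) := by
  classical
  exact fun m => if m.comapDomain Sum.inr Sum.inr_injective.injOn = 0 then
    coeff (m.comapDomain Sum.inl Sum.inl_injective.injOn) φ else 0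

theorem coeff_emb (φ : MvPolynomial σ ℂ) (α : σ →₀ ℕ) (β : τ →₀ ℕ) [Decidable (β = 0)] :
    MvPowerSeries.coeff (α.sumElim β) (emb τ φ) = if β = 0 then coeff α φ else 0 := by
  classical
  change (if (α.sumElim β).comapDomain Sum.inr Sum.inr_injective.injOn = 0 then
    coeff ((α.sumElim β).comapDomain Sum.inl Sum.inl_injective.injOn) φ else 0) = _
  rw [Finsupp.comapDomain_inr_sumElim, Finsupp.comapDomain_inl_sumElim]
  congr

theorem slice_emb (φ : MvPolynomial σ ℂ) (γ : τ →₀ ℕ) (g : PS (σ ⊕ τ)) :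
    slice γ (emb τ φ * g) = (φ : PS σ) * slice γ g := by
  classical
  have h1 : ∀ β : τ →₀ ℕ, slice β (emb τ φ) = if β = 0 then (φ : PS σ) else 0 := by
    intro β
    ext α
    rw [coeff_slice, coeff_emb]
    split_ifs
    · rw [MvPolynomial.coeff_coe]
    · rw [map_zero]
  rw [slice_mul, Finset.sum_eq_single ((0 : τ →₀ ℕ), γ)]
  · rw [h1, if_pos rfl]
  · rintro ⟨a, b⟩ hab hne
    rw [Finset.HasAntidiagonal.mem_antidiagonal] at hab
    rw [h1, if_neg, zero_mul]
    intro h2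
    apply hne
    simp only at h2 hab
    rw [h2, zero_add] at hab
    rw [h2, hab]
  · intro h
    exact absurd (Finset.HasAntidiagonal.mem_antidiagonal.2 (zero_add γ)) h

theorem slice_emb_pow (φ : MvPolynomial σ ℂ) (γ : τ →₀ ℕ) (k : ℕ) (g : PS (σ ⊕ τ)) :
    slice γ (emb τ φ ^ k * g) = ((φ ^ k : MvPolynomial σ ℂ) : PS σ) * slice γ g := by
  induction k with
  | zero => simp
  | succ k ih =>
    rw [pow_succ', mul_assoc, slice_emb, ih, pow_succ', MvPolynomial.coe_mul, mul_assoc]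

theorem hcz_hom_mul (p : MvPolynomial σ ℂ) (e : ℕ) (hp : p.IsHomogeneous e) (x : PS σ) (n : ℤ) :
    hcz n ((p : PS σ) * x) = p * hcz (n - e) x := by
  rw [hcz_mul _ x n (max e n.toNat + 1) (fun j hj => hcz_neg _ (by
    have h1 := Int.self_le_toNat n
    have h2 : n.toNat ≤ max e n.toNat := le_max_right _ _
    omega) _), Finset.sum_eq_single e]
  · rw [hcp_coe, homogeneousComponent_eq_self hp]
  · intro i _ hi
    rw [hcp_coe, homogeneousComponent_of_mem hp, if_neg hi, zero_mul]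
  · intro h
    exact absurd (Finset.mem_range.2 (Nat.lt_succ_of_le (le_max_left _ _))) h

theorem degree_sumElim (α : σ →₀ ℕ) (β : τ →₀ ℕ) :
    (α.sumElim β).degree = α.degree + β.degree := by
  rw [Finsupp.degree_eq_sum, Finsupp.degree_eq_sum, Finsupp.degree_eq_sum, Fintype.sum_sum_type]
  simp

/-- the terms of the expansion -/
noncomputable def XX (f : PS (σ ⊕ τ)) (d : ℕ) (φ : MvPolynomial σ ℂ) (γ : τ →₀ ℕ) (δ : ℤ) (k : ℕ) :
    MvPolynomial σ ℂ := hcz (δ + d * k) (slice γ ((f - emb τ φ) ^ k))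

theorem rest_order (f : PS (σ ⊕ τ)) (d : ℕ) (φ : MvPolynomial σ ℂ) (h : IsCone f d φ) :
    Wo (fun m => m.degree) (f - emb τ φ) (d + 1) := by
  classical
  intro m hm
  obtain ⟨α, β, rfl⟩ : ∃ (α : σ →₀ ℕ) (β : τ →₀ ℕ), m = α.sumElim β :=
    ⟨m.comapDomain Sum.inl Sum.inl_injective.injOn, m.comapDomain Sum.inr
      Sum.inr_injective.injOn, (Finsupp.comapDomain_sumElim_comapDomain ..).symm⟩
  obtain ⟨hφ, h1, h2⟩ := h
  beta_reduce at hm
  rw [degree_sumElim] at hm
  rw [map_sub, coeff_emb]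
  rcases Nat.lt_or_ge α.degree d with h3 | h3
  · rw [h1 α β h3]
    split_ifs
    · rw [hφ.coeff_eq_zero (by omega), sub_zero]
    · rw [sub_zero]
  · have h4 : α.degree = d := by omega
    have h5 : β.degree = 0 := by omega
    have h6 : β = 0 := (Finsupp.degree_eq_zero_iff β).1 h5
    rw [if_pos h6, h6, h2 α h4, sub_self]

theorem XX_zero (f : PS (σ ⊕ τ)) (d : ℕ) (φ : MvPolynomial σ ℂ) (h : IsCone f d φ) (γ : τ →₀ ℕ)
    (δ : ℤ) (k : ℕ) (hk : δ + γ.degree < k) : XX f d φ γ δ k = 0 := by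
  rw [XX]
  rcases lt_or_ge (δ + d * k) 0 with h1 | h1
  · rw [hcz_neg _ h1]
  · obtain ⟨n, hn⟩ := Int.eq_ofNat_of_zero_le h1
    rw [hn, hcz_nat]
    ext α
    rw [coeff_hcp, coeff_zero]
    split_ifs with h2
    · rw [coeff_slice]
      refine (rest_order f d φ h).pow (fun a b => map_add _ a b) k _ ?_
      rw [degree_sumElim, h2]
      have h3 : ((n + γ.degree : ℕ) : ℤ) < (((d + 1) * k : ℕ) : ℤ) := by
        push_cast
        rw [← hn, add_mul, one_mul]
        linarith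
      exact_mod_cast h3
    · rfl

/-- **The expansion of the powers.** -/
theorem expand (f : PS (σ ⊕ τ)) (d : ℕ) (φ : MvPolynomial σ ℂ) (h : IsCone f d φ) (γ : τ →₀ ℕ)
    (δ : ℤ) (n : ℕ) : hcz (d * n + δ) (slice γ (f ^ n)) =
      ∑ k ∈ Finset.range ((δ + γ.degree).toNat + 1), C (n.choose k : ℂ) * φ ^ (n - k) *
        XX f d φ γ δ k := by
  have h1 : f ^ n = ∑ k ∈ Finset.range (n + 1),
      (n.choose k : ℂ) • (emb τ φ ^ (n - k) * (f - emb τ φ) ^ k) := by
    have h2 : f = (f - emb τ φ) + emb τ φ := by ring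
    conv_lhs => rw [h2]
    rw [add_pow]
    refine Finset.sum_congr rfl fun k _ => ?_
    rw [Nat.cast_smul_eq_nsmul, nsmul_eq_mul]
    ring
  have h2 : hcz (d * n + δ) (slice γ (f ^ n)) = ∑ k ∈ Finset.range (n + 1),
      C (n.choose k : ℂ) * φ ^ (n - k) * XX f d φ γ δ k := by
    rw [h1, map_sum, hcz_sum]
    refine Finset.sum_congr rfl fun k hk => ?_
    rw [Finset.mem_range] at hk
    have h3 : (φ ^ (n - k)).IsHomogeneous (d * (n - k)) := h.1.pow _
    rw [map_smul, hcz_smul, slice_emb_pow, hcz_hom_mul _ _ h3, XX, ← C_mul', mul_assoc]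
    congr 3
    rw [Nat.cast_mul, Nat.cast_sub (by omega)]
    ring
  rw [h2]
  have h3 : ∀ k, k ∉ Finset.range (n + 1) → C (n.choose k : ℂ) * φ ^ (n - k) *
      XX f d φ γ δ k = 0 := by
    intro k hk
    rw [Finset.mem_range] at hk
    rw [Nat.choose_eq_zero_of_lt (by omega), Nat.cast_zero, map_zero, zero_mul, zero_mul]
  have h4 : ∀ k, k ∉ Finset.range ((δ + γ.degree).toNat + 1) → C (n.choose k : ℂ) * φ ^ (n - k) *
      XX f d φ γ δ k = 0 := by
    intro k hk
    rw [Finset.mem_range] at hk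
    rw [XX_zero f d φ h γ δ k (by
      have := Int.self_le_toNat (δ + γ.degree)
      omega), mul_zero]
  rw [Finset.sum_subset (Finset.range_subset_range.2 (le_max_left (n + 1)
      ((δ + γ.degree).toNat + 1))) (fun k _ hk => h3 k hk),
    Finset.sum_subset (Finset.range_subset_range.2 (le_max_right (n + 1)
      ((δ + γ.degree).toNat + 1))) (fun k _ hk => h4 k hk)]

theorem lowest (f : PS (σ ⊕ τ)) (d : ℕ) (φ : MvPolynomial σ ℂ) (h : IsCone f d φ) (s : ℕ) :
    hcz (d * s) (slice (0 : τ →₀ ℕ) (f ^ s)) = φ ^ s := by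
  classical
  have h1 := expand f d φ h 0 0 s
  rw [add_zero] at h1
  rw [h1]
  have h2 : (0 + ((0 : τ →₀ ℕ).degree : ℤ)).toNat + 1 = 1 := by simp
  rw [h2, Finset.sum_range_one, Nat.choose_zero_right, Nat.cast_one, map_one, one_mul,
    Nat.sub_zero, XX, pow_zero]
  have h3 : slice (0 : τ →₀ ℕ) (1 : PS (σ ⊕ τ)) = (1 : PS σ) := by
    ext α
    rw [coeff_slice, MvPowerSeries.coeff_one, MvPowerSeries.coeff_one]
    by_cases h4 : α = 0
    · subst h4
      rw [if_pos (by simp), if_pos rfl]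
    · rw [if_neg, if_neg h4]
      intro h5
      apply h4
      rw [← Finsupp.sumElim_zero_zero] at h5
      exact (sumElim_inj h5).1
  have h4 : (0 : ℤ) + d * ((0 : ℕ) : ℤ) = ((0 : ℕ) : ℤ) := by simp
  rw [h3, h4, hcz_nat]
  have h5 : hcp 0 (1 : PS σ) = 1 := by
    rw [← MvPolynomial.coe_one, hcp_coe, homogeneousComponent_zero, coeff_zero_one, map_one]
  rw [h5, mul_one]

theorem isPS_choose (k : ℕ) : ∃ c : ℂ → MvPolynomial σ ℂ, IsPS c ∧
    ∀ s : ℕ, c s = C (((s + 1).choose k : ℕ) : ℂ) := by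
  refine ⟨fun s => C ((((descPochhammer ℂ k).comp (Polynomial.X + 1)) *
    Polynomial.C ((k.factorial : ℂ)⁻¹)).eval s), isPS_eval _, fun s => ?_⟩
  beta_reduce
  congr 1
  rw [Polynomial.eval_mul, Polynomial.eval_comp, Polynomial.eval_C, Polynomial.eval_add,
    Polynomial.eval_X, Polynomial.eval_one]
  have h1 : (descPochhammer ℂ k).eval ((s : ℂ) + 1) = (((s + 1).descFactorial k : ℕ) : ℂ) := by
    have := descPochhammer_eval_eq_descFactorial ℂ (s + 1) k
    push_cast at this ⊢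
    exact this
  have h2 : (k.factorial : ℂ) ≠ 0 := by exact_mod_cast k.factorial_ne_zero
  rw [h1, Nat.descFactorial_eq_factorial_mul_choose]
  push_cast
  field_simp

theorem slice_vanish (f : PS (σ ⊕ τ)) (d : ℕ) (φ : MvPolynomial σ ℂ) (h : IsCone f d φ)
    (γ : τ →₀ ℕ) (s : ℕ) (j : ℤ) (hj : j < d * s + d) : hcz j (slice γ (f ^ (s + 1))) = 0 := by
  rcases lt_or_ge j 0 with h1 | h1
  · rw [hcz_neg _ h1]
  · obtain ⟨n, rfl⟩ := Int.eq_ofNat_of_zero_le h1
    rw [hcz_nat]
    ext α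
    rw [coeff_hcp, coeff_zero]
    split_ifs with h2
    · rw [coeff_slice]
      have h3 : Wo (fun m : σ ⊕ τ →₀ ℕ => ∑ i : σ, m (Sum.inl i)) f d := by
        intro m hm
        obtain ⟨α, β, rfl⟩ : ∃ (α : σ →₀ ℕ) (β : τ →₀ ℕ), m = α.sumElim β :=
          ⟨m.comapDomain Sum.inl Sum.inl_injective.injOn, m.comapDomain Sum.inr
            Sum.inr_injective.injOn, (Finsupp.comapDomain_sumElim_comapDomain ..).symm⟩
        refine h.2.1 α β ?_
        rw [Finsupp.degree_eq_sum]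
        simpa using hm
      refine h3.pow (fun a b => ?_) (s + 1) _ ?_
      · simp only [Finsupp.add_apply, Finset.sum_add_distrib]
      · simp only [Finsupp.sumElim_inl]
        rw [← Finsupp.degree_eq_sum, h2]
        have h4 : (n : ℤ) < ((d * (s + 1) : ℕ) : ℤ) := by
          push_cast
          rw [mul_add, mul_one]
          exact hj
        exact_mod_cast h4
    · rfl

theorem tame_slice (f : PS (σ ⊕ τ)) (d : ℕ) (φ : MvPolynomial σ ℂ) (h : IsCone f d φ)
    (γ : τ →₀ ℕ) : Tame φ d fun s => slice γ (f ^ (s + 1)) := by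
  refine ⟨⟨d, fun s j hj => slice_vanish f d φ h γ s j hj⟩, fun δ => ?_⟩
  · have h1 : ∀ s : ℕ, hcz (d * s + δ) (slice γ (f ^ (s + 1))) =
        ∑ k ∈ Finset.range ((δ - d + γ.degree).toNat + 1), C ((s + 1).choose k : ℂ) *
          φ ^ (s + 1 - k) * XX f d φ γ (δ - d) k := by
      intro s
      rw [← expand f d φ h γ (δ - d) (s + 1)]
      congr 1
      push_cast
      ring
    simp only [h1]
    refine Rat.sum _ _ fun k _ => ?_
    obtain ⟨c, hc, hcs⟩ := isPS_choose (σ := σ) k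
    refine ⟨k, fun s => φ * c s * XX f d φ γ (δ - d) k,
      ((IsPS.const _).mul hc).mul (IsPS.const _), fun s => ?_⟩
    beta_reduce
    rcases Nat.lt_or_ge (s + 1) k with h2 | h2
    · rw [hcs, Nat.choose_eq_zero_of_lt h2, Nat.cast_zero, map_zero]
      ring
    · rw [hcs]
      have h3 : φ ^ k * φ ^ (s + 1 - k) = φ ^ s * φ := by
        rw [← pow_add, ← pow_succ]
        congr 1
        omega
      linear_combination (C (((s + 1).choose k : ℕ) : ℂ) * XX f d φ γ (δ - d) k) * h3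

end Expand

end Pool.Agent.Helper48.SN
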