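import Pool.Agent.Helper48.SN.Ser

set_option autoImplicit false
set_option linter.unusedSectionVars false

/-! # Families of power series whose components are `φ ^ s` times polynomials in `s` -/

namespace Pool.Agent.Helper48.SN

open Finset MvPolynomial Pool.Agent.K3h38.SM

variable {σ : Type} [Fintype σ]

/-- `g_s` is `φ ^ (s - R)` times a polynomial in `s` -/
def Rat (φ : MvPolynomial σ ℂ) (g : ℕ → MvPolynomial σ ℂ) : Prop :=
  ∃ (R : ℕ) (V : ℂ → MvPolynomial σ ℂ), IsPS V ∧ ∀ s : ℕ, φ ^ R * g s = φ ^ s * V s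

theorem Rat.zero (φ : MvPolynomial σ ℂ) : Rat φ fun _ => 0 :=
  ⟨0, fun _ => 0, IsPS.const 0, fun s => by simp⟩

theorem Rat.add {φ : MvPolynomial σ ℂ} {g h : ℕ → MvPolynomial σ ℂ} (hg : Rat φ g) (hh : Rat φ h) :
    Rat φ fun s => g s + h s := by
  obtain ⟨R, V, hV, h1⟩ := hg
  obtain ⟨R', V', hV', h2⟩ := hh
  refine ⟨R + R', fun s => φ ^ R' * V s + φ ^ R * V' s,
    ((IsPS.const _).mul hV).add ((IsPS.const _).mul hV'), fun s => ?_⟩
  rw [pow_add]
  linear_combination φ ^ R' * h1 s + φ ^ R * h2 s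

theorem Rat.sum {φ : MvPolynomial σ ℂ} {κ : Type} (t : Finset κ) (g : κ → ℕ → MvPolynomial σ ℂ)
    (hg : ∀ i ∈ t, Rat φ (g i)) : Rat φ fun s => ∑ i ∈ t, g i s := by
  classical
  induction t using Finset.induction_on with
  | empty => simpa using Rat.zero φ
  | insert a t ha ih =>
    have h1 := (hg a (Finset.mem_insert_self a t)).add (ih fun i hi => hg i
      (Finset.mem_insert_of_mem hi))
    have h2 : (fun s => ∑ i ∈ insert a t, g i s) = fun s => g a s + ∑ i ∈ t, g i s := by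
      funext s
      rw [Finset.sum_insert ha]
    rw [h2]
    exact h1

theorem Rat.mulPS {φ : MvPolynomial σ ℂ} {g : ℕ → MvPolynomial σ ℂ} (hg : Rat φ g)
    (p : ℂ → MvPolynomial σ ℂ) (hp : IsPS p) : Rat φ fun s => p s * g s := by
  obtain ⟨R, V, hV, h1⟩ := hg
  refine ⟨R, fun s => p s * V s, hp.mul hV, fun s => ?_⟩
  linear_combination p s * h1 s

theorem deriv_aux (φ g V : MvPolynomial σ ℂ) (i : σ) (R s : ℕ) (h : φ ^ R * g = φ ^ s * V) :
    φ ^ (R + 1) * pderiv i g = φ ^ s * (C ((s : ℂ) - R) * pderiv i φ * V + φ * pderiv i V) := by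
  have h1 := congrArg (pderiv i) h
  rw [pderiv_mul, pderiv_mul, pderiv_pow, pderiv_pow] at h1
  have hR : φ * ((R : MvPolynomial σ ℂ) * φ ^ (R - 1)) = (R : MvPolynomial σ ℂ) * φ ^ R := by
    rcases Nat.eq_zero_or_pos R with h0 | h0
    · rw [h0]; simp
    · obtain ⟨m, hm⟩ := Nat.exists_eq_succ_of_ne_zero h0.ne'
      rw [hm]
      simp [pow_succ]
      ring
  have hs : φ * ((s : MvPolynomial σ ℂ) * φ ^ (s - 1)) = (s : MvPolynomial σ ℂ) * φ ^ s := by
    rcases Nat.eq_zero_or_pos s with h0 | h0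
    · subst h0; simp
    · obtain ⟨m, rfl⟩ := Nat.exists_eq_succ_of_ne_zero h0.ne'
      simp [pow_succ]
      ring
  rw [map_sub, C_eq_coe_nat, C_eq_coe_nat]
  linear_combination φ * h1 - g * pderiv i φ * hR + V * pderiv i φ * hs
    - (R : MvPolynomial σ ℂ) * pderiv i φ * h

theorem Rat.pderiv {φ : MvPolynomial σ ℂ} {g : ℕ → MvPolynomial σ ℂ} (hg : Rat φ g) (i : σ) :
    Rat φ fun s => pderiv i (g s) := by
  obtain ⟨R, V, hV, h1⟩ := hg
  refine ⟨R + 1, fun s => C (s - R) * MvPolynomial.pderiv i φ * V s +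
    φ * MvPolynomial.pderiv i (V s), ?_, fun s => deriv_aux φ (g s) (V s) i R s (h1 s)⟩
  refine IsPS.add ((IsPS.mul ?_ (IsPS.const _)).mul hV) ((IsPS.const _).mul (hV.pderiv i))
  simp only [map_sub]
  exact IsPS.id.sub (IsPS.const _)

/-- a family of power series with components of the form `Rat` -/
def Tame (φ : MvPolynomial σ ℂ) (d : ℕ) (g : ℕ → PS σ) : Prop :=
  (∃ K : ℤ, ∀ (s : ℕ) (j : ℤ), j < d * s + K → hcz j (g s) = 0) ∧
  ∀ δ : ℤ, Rat φ fun s => hcz (d * s + δ) (g s)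

theorem Tame.add {φ : MvPolynomial σ ℂ} {d : ℕ} {g h : ℕ → PS σ} (hg : Tame φ d g)
    (hh : Tame φ d h) : Tame φ d fun s => g s + h s := by
  obtain ⟨⟨K, hK⟩, h1⟩ := hg
  obtain ⟨⟨K', hK'⟩, h2⟩ := hh
  refine ⟨⟨min K K', fun s j hj => ?_⟩, fun δ => ?_⟩
  · have h3 : min K K' ≤ K := min_le_left _ _
    have h4 : min K K' ≤ K' := min_le_right _ _
    rw [hcz_add, hK s j (by omega), hK' s j (by omega), add_zero]
  · simp only [hcz_add]
    exact (h1 δ).add (h2 δ)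

theorem Tame.smul {φ : MvPolynomial σ ℂ} {d : ℕ} {g : ℕ → PS σ} (hg : Tame φ d g) (c : ℂ) :
    Tame φ d fun s => c • g s := by
  obtain ⟨⟨K, hK⟩, h1⟩ := hg
  refine ⟨⟨K, fun s j hj => ?_⟩, fun δ => ?_⟩
  · rw [hcz_smul, hK s j hj, smul_zero]
  · simp only [hcz_smul, ← C_mul']
    exact (h1 δ).mulPS (fun _ => C c) (IsPS.const _)

theorem Tame.zero (φ : MvPolynomial σ ℂ) (d : ℕ) : Tame φ d fun _ => 0 := by
  refine ⟨⟨0, fun s j hj => hcz_zero _⟩, fun δ => ?_⟩
  simp only [hcz_zero]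
  exact Rat.zero φ

theorem Tame.ml {φ : MvPolynomial σ ℂ} {d : ℕ} {g : ℕ → PS σ} (hg : Tame φ d g) (h : PS σ) :
    Tame φ d fun s => ml h (g s) := by
  obtain ⟨⟨K, hK⟩, h1⟩ := hg
  refine ⟨⟨K, fun s j hj => ?_⟩, fun δ => ?_⟩
  · beta_reduce
    rw [ml_apply, hcz_mul h (g s) j 0 fun i hi => hK s i (by omega), Finset.sum_range_zero]
  · have h2 : ∀ s : ℕ, hcz (d * s + δ) (Pool.Agent.Helper48.SN.ml h (g s)) =
        ∑ i ∈ Finset.range (δ - K + 1).toNat, hcp i h * hcz (d * s + (δ - i)) (g s) := by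
      intro s
      rw [ml_apply, hcz_mul h (g s) (d * s + δ) (δ - K + 1).toNat fun j hj => hK s j (by
        have := Int.self_le_toNat (δ - K + 1)
        omega)]
      refine Finset.sum_congr rfl fun i _ => ?_
      rw [add_sub_assoc]
    simp only [h2]
    exact Rat.sum _ _ fun i _ => (h1 (δ - i)).mulPS (fun _ => hcp i h) (IsPS.const _)

theorem Tame.pp {φ : MvPolynomial σ ℂ} {d : ℕ} {g : ℕ → PS σ} (hg : Tame φ d g) (i : σ) :
    Tame φ d fun s => pp i (g s) := by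
  obtain ⟨⟨K, hK⟩, h1⟩ := hg
  refine ⟨⟨K - 1, fun s j hj => ?_⟩, fun δ => ?_⟩
  · beta_reduce
    rw [hcz_pp, hK s (j + 1) (by omega), map_zero]
  · simp only [hcz_pp, add_assoc]
    exact (h1 (δ + 1)).pderiv i

theorem Tame.op {φ : MvPolynomial σ ℂ} {d : ℕ} {Q : Module.End ℂ (PS σ)} (hQ : Q ∈ dS σ) :
    ∀ g : ℕ → PS σ, Tame φ d g → Tame φ d fun s => Q (g s) := by
  induction hQ using Algebra.adjoin_induction with
  | mem Q hQ =>
    intro g hg
    rcases hQ with ⟨a, rfl⟩ | ⟨i, rfl⟩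
    · exact hg.ml a
    · exact hg.pp i
  | algebraMap a =>
    intro g hg
    have h1 : (fun s => (algebraMap ℂ (Module.End ℂ (PS σ)) a) (g s)) = fun s => a • g s := by
      funext s
      rw [Module.algebraMap_end_apply]
    rw [h1]
    exact hg.smul a
  | add Q Q' _ _ ih ih' =>
    intro g hg
    have h1 : (fun s => (Q + Q') (g s)) = fun s => Q (g s) + Q' (g s) := by
      funext s
      rw [LinearMap.add_apply]
    rw [h1]
    exact (ih g hg).add (ih' g hg)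
  | mul Q Q' _ _ ih ih' =>
    intro g hg
    exact ih _ (ih' g hg)

end Pool.Agent.Helper48.SN
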